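import Mathlib

set_option autoImplicit false

open Finset MeasureTheory Metric
open scoped Classical

noncomputable section

namespace Pool.Agent.Lib.MP_a77646_co

/-- Indicator of a proposition. -/
def ind (p : Prop) : ℝ := if p then 1 else 0

lemma ind_pos {p : Prop} (h : p) : ind p = 1 := if_pos h
lemma ind_neg {p : Prop} (h : ¬ p) : ind p = 0 := if_neg h
lemma ind_nonneg (p : Prop) : 0 ≤ ind p := by unfold ind; split_ifs <;> norm_num

/-- First moment method for a uniform point of a big ball. -/
lemma avg_ball (D : ℕ) (J : Type) [Fintype J] (P : J → EuclideanSpace ℝ (Fin D)) (r w : J → ℝ)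
    (T : ℝ) (hT : 0 < T) (hr : ∀ j, 0 ≤ r j) (hsub : ∀ j, ‖P j‖ + r j ≤ T) :
    ∃ c : EuclideanSpace ℝ (Fin D),
      ∑ j, w j * ind (dist c (P j) ≤ r j) ≤ ∑ j, w j * (r j / T) ^ D := by
  set s : Set (EuclideanSpace ℝ (Fin D)) := closedBall 0 T with hs
  have h0 : volume s ≠ 0 := (measure_closedBall_pos volume _ hT).ne'
  have h1 : volume s ≠ ⊤ := measure_closedBall_lt_top.ne
  have hind : ∀ j, (fun c : EuclideanSpace ℝ (Fin D) =>
      w j * ind (dist c (P j) ≤ r j)) =
      (closedBall (P j) (r j)).indicator (fun _ => w j) := by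
    intro j; funext c
    by_cases h : dist c (P j) ≤ r j
    · simp [h, Set.indicator, mem_closedBall, ind]
    · simp [h, Set.indicator, mem_closedBall, ind]
  have hint : ∀ j, IntegrableOn (fun c : EuclideanSpace ℝ (Fin D) =>
      w j * ind (dist c (P j) ≤ r j)) s volume := by
    intro j
    rw [hind j]
    exact (integrableOn_const h1).indicator measurableSet_closedBall
  obtain ⟨c, -, hc⟩ := exists_le_setAverage h0 h1 (f := fun c =>
    ∑ j, w j * ind (dist c (P j) ≤ r j)) (integrable_finsetSum _ fun j _ => hint j)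
  refine ⟨c, hc.trans (le_of_eq ?_)⟩
  rw [setAverage_eq, integral_finsetSum _ fun j _ => hint j, smul_eq_mul, Finset.mul_sum]
  refine Finset.sum_congr rfl fun j _ => ?_
  have hsubset : closedBall (P j) (r j) ⊆ s := by
    intro x hx
    rw [mem_closedBall] at hx
    rw [hs, mem_closedBall, dist_zero_right]
    have : ‖x‖ ≤ dist x (P j) + ‖P j‖ := by
      rw [dist_eq_norm]; simpa using norm_add_le (x - P j) (P j)
    linarith [hsub j]
  rw [hind j, setIntegral_indicator measurableSet_closedBall,
    Set.inter_eq_self_of_subset_right hsubset, setIntegral_const, smul_eq_mul,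
    Measure.addHaar_real_closedBall' volume _ (hr j), hs,
    Measure.addHaar_real_closedBall' volume _ hT.le]
  have hu : 0 < (volume : Measure (EuclideanSpace ℝ (Fin D))).real (closedBall 0 1) :=
    ENNReal.toReal_pos (measure_closedBall_pos volume _ one_pos).ne' measure_closedBall_lt_top.ne
  simp only [finrank_euclideanSpace, Fintype.card_fin, div_pow]
  field_simp

/-- Method of conditional expectations for `N` independent samples. -/
lemma sample {Ω I : Type} [Fintype I] (A : I → Ω → Prop) (g : Ω → ℝ) (p γ : ℝ) (hp : p ≤ 1)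
    (havg : ∀ ω : I → ℝ, (∀ i, 0 ≤ ω i) →
      ∃ c, ∑ i, ω i * ind (¬ A i c) + g c ≤ (1 - p) * ∑ i, ω i + γ) (N : ℕ) :
    ∀ ω : I → ℝ, (∀ i, 0 ≤ ω i) → ∃ c : Fin N → Ω,
      ∑ i, ω i * ind (¬ ∃ k, A i (c k)) + ∑ k, g (c k) ≤
        (1 - p) ^ N * ∑ i, ω i + N * γ := by
  induction N with
  | zero => intro ω _; exact ⟨Fin.elim0, by simp [ind]⟩
  | succ N ih =>
    intro ω hω
    have hq : 0 ≤ (1 - p) ^ N := pow_nonneg (by linarith) _
    obtain ⟨c0, hc0⟩ := havg (fun i => (1 - p) ^ N * ω i) fun i => mul_nonneg hq (hω i)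
    obtain ⟨c, hc⟩ := ih (fun i => ω i * ind (¬ A i c0))
      fun i => mul_nonneg (hω i) (ind_nonneg _)
    refine ⟨Fin.cons c0 c, ?_⟩
    have e1 : ∑ i, ω i * ind (¬ ∃ k, A i ((Fin.cons c0 c : Fin (N + 1) → Ω) k)) =
        ∑ i, ω i * ind (¬ A i c0) * ind (¬ ∃ k, A i (c k)) := by
      refine Finset.sum_congr rfl fun i _ => ?_
      rw [Fin.exists_fin_succ]
      simp only [Fin.cons_zero, Fin.cons_succ]
      by_cases h1 : A i c0 <;> by_cases h2 : ∃ k, A i (c k) <;>
        simp only [h1, h2, ind] <;> simp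
    rw [e1, Fin.sum_univ_succ]
    simp only [Fin.cons_zero, Fin.cons_succ]
    have e2 : ∑ i, (1 - p) ^ N * ω i * ind (¬ A i c0) =
        (1 - p) ^ N * ∑ i, ω i * ind (¬ A i c0) := by
      rw [Finset.mul_sum]; exact Finset.sum_congr rfl fun i _ => by ring
    rw [e2, ← Finset.mul_sum] at hc0
    push_cast
    rw [pow_succ]
    nlinarith

/-- A random hash has few collisions. -/
lemma hash {I K : Type} [Fintype I] [Fintype K] (m : ℕ) (hm : 0 < m) (k : I → K)
    (Out : I → K → Prop) : ∃ H : K → Fin m,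
      ∑ i, ∑ j, ind (Out i j ∧ j ≠ k i ∧ H j = H (k i)) ≤
        (∑ i, ∑ j, ind (Out i j)) / m := by
  have : Nonempty (Fin m) := ⟨⟨0, hm⟩⟩
  have hmR : (0 : ℝ) < m := by exact_mod_cast hm
  have key : ∀ a b : K, a ≠ b →
      (∑ H : K → Fin m, ind (H a = H b)) * m = Fintype.card (K → Fin m) := by
    intro a b hab
    have : ∑ H : K → Fin m, ∑ t : Fin m, ind (H a = H b) =
        ∑ H : K → Fin m, ∑ t : Fin m, ind (t = H b) := by
      rw [← Finset.sum_product', ← Finset.sum_product']
      refine Finset.sum_bij' (fun x _ => (Function.update x.1 a x.2, x.1 a))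
        (fun x _ => (Function.update x.1 a x.2, x.1 a)) (by simp) (by simp) ?_ ?_ ?_
      · intro x _; simp
      · intro x _; simp
      · intro x _; simp [Function.update_of_ne hab.symm]
    have h2 : ∀ H : K → Fin m, ∑ t : Fin m, ind (t = H b) = 1 := by
      intro H
      rw [Finset.sum_eq_single (H b) (fun t _ ht => ind_neg ht) (by simp), ind_pos rfl]
    simp only [h2, Finset.sum_const, Finset.card_univ, Fintype.card_fin, nsmul_eq_mul,
      mul_one] at this
    rw [← this, Finset.sum_mul]
    exact Finset.sum_congr rfl fun H _ => mul_comm _ _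
  have hsum : ∑ H : K → Fin m, ∑ i, ∑ j,
      ind (Out i j ∧ j ≠ k i ∧ H j = H (k i)) ≤
      ∑ _H : K → Fin m, (∑ i, ∑ j, ind (Out i j)) / m := by
    rw [Finset.sum_comm, Finset.sum_const, nsmul_eq_mul, Finset.sum_div, Finset.mul_sum]
    refine Finset.sum_le_sum fun i _ => ?_
    rw [Finset.sum_comm, Finset.sum_div, Finset.mul_sum]
    refine Finset.sum_le_sum fun j _ => ?_
    by_cases h1 : Out i j
    · by_cases h2 : j = k i
      · simp only [h2, ne_eq, not_true_eq_false, false_and, and_false, ind_neg not_false,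
          Finset.sum_const_zero]
        have := ind_nonneg (Out i (k i))
        positivity
      · have := key j (k i) h2
        simp only [h1, ne_eq, h2, not_false_eq_true, true_and, ind_pos trivial, Finset.card_univ]
        rw [← this]; field_simp; rfl
    · simp [h1, ind]
  obtain ⟨H, -, hH⟩ := Finset.exists_le_of_sum_le Finset.univ_nonempty hsum
  exact ⟨H, hH⟩

end Pool.Agent.Lib.MP_a77646_co
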