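import Mathlib
import Pool.Agent.Lib.MP_a77646_co.Sample

set_option autoImplicit false

open Finset
open scoped Classical

noncomputable section

namespace Pool.Agent.Lib.MP_a77646_co

lemma ind_exists_le {K : Type} [Fintype K] (q : K → Prop) : ind (∃ k, q k) ≤ ∑ k, ind (q k) := by
  by_cases h : ∃ k, q k
  · obtain ⟨k, hk⟩ := h
    rw [ind_pos ⟨k, hk⟩, ← ind_pos hk]
    exact Finset.single_le_sum (f := fun k => ind (q k)) (fun _ _ => ind_nonneg _) (mem_univ k)
  · rw [ind_neg h]; exact Finset.sum_nonneg fun _ _ => ind_nonneg _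

lemma ind_or_le (p q : Prop) : ind (p ∨ q) ≤ ind p + ind q := by
  by_cases hp : p <;> by_cases hq : q <;> simp [ind, hp, hq]

lemma ind_not (p : Prop) : ind (¬ p) = 1 - ind p := by
  by_cases hp : p <;> simp [ind, hp]

/-- Random centres: most points have a centre within `R`, none within `R'`, and a hash of the
chosen centre that no other centre within `R''` shares. -/
lemma centres (D : ℕ) (a R R' R'' : ℝ) (ha : 1 ≤ a) (hR : 0 < R) (hR' : 0 ≤ R') (h1 : R' ≤ R)
    (h2 : R ≤ R'') (m : ℕ) (hm : 0 < m) {I : Type} [Fintype I]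
    (P : I → EuclideanSpace ℝ (Fin D)) :
    ∃ (Bad : I → Prop) (N : ℕ) (c : Fin N → EuclideanSpace ℝ (Fin D)) (k : I → Fin N)
      (H : Fin N → Fin m),
      ∑ i, ind (Bad i) ≤ (Real.exp (-a) + 2 * a * (R' / R) ^ D + 2 * a * (R'' / R) ^ D / m) *
        Fintype.card I ∧
      ∀ i, ¬ Bad i → dist (c (k i)) (P i) ≤ R ∧ (∀ j, R' < dist (c j) (P i)) ∧
        ∀ j, dist (c j) (P i) ≤ R'' → H j = H (k i) → j = k i := by
  have hmR : (0 : ℝ) < m := by exact_mod_cast hm
  set B : ℝ := ∑ i, ‖P i‖ with hB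
  have hBi : ∀ i, ‖P i‖ ≤ B := fun i =>
    Finset.single_le_sum (f := fun i => ‖P i‖) (fun _ _ => norm_nonneg _) (mem_univ i)
  have hB0 : 0 ≤ B := Finset.sum_nonneg fun _ _ => norm_nonneg _
  set T : ℝ := B + R'' with hT
  have hT0 : 0 < T := by linarith
  set p : ℝ := (R / T) ^ D with hp
  have hp0 : 0 < p := by positivity
  have hp1 : p ≤ 1 := pow_le_one₀ (by positivity) ((div_le_one hT0).2 (by linarith))
  set g : EuclideanSpace ℝ (Fin D) → ℝ := fun c =>
    ∑ i, ind (dist c (P i) ≤ R') + (∑ i, ind (dist c (P i) ≤ R'')) / m with hg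
  set γ : ℝ := Fintype.card I * (p * (R' / R) ^ D + p * (R'' / R) ^ D / m) with hγ
  have havg : ∀ ω : I → ℝ, (∀ i, 0 ≤ ω i) → ∃ c, ∑ i, ω i * ind (¬ dist c (P i) ≤ R) + g c ≤
      (1 - p) * ∑ i, ω i + γ := by
    intro ω _
    obtain ⟨c, hc⟩ := avg_ball D (I ⊕ I ⊕ I) (Sum.elim P (Sum.elim P P))
      (Sum.elim (fun _ => R) (Sum.elim (fun _ => R') (fun _ => R'')))
      (Sum.elim (fun i => -ω i) (Sum.elim (fun _ => 1) (fun _ => 1 / m))) T hT0
      (by rintro (i | i | i) <;> simp <;> linarith)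
      (by rintro (i | i | i) <;> simp <;> linarith [hBi i])
    refine ⟨c, ?_⟩
    simp only [Fintype.sum_sum_type, Sum.elim_inl, Sum.elim_inr, one_mul, Finset.sum_const,
      Finset.card_univ, nsmul_eq_mul] at hc
    have e1 : (R' / T) ^ D = p * (R' / R) ^ D := by
      rw [hp, ← mul_pow]; congr 1; field_simp
    have e2 : (R'' / T) ^ D = p * (R'' / R) ^ D := by
      rw [hp, ← mul_pow]; congr 1; field_simp
    have e3 : ∑ i, ω i * ind (¬ dist c (P i) ≤ R) =
        ∑ i, ω i + ∑ i, -ω i * ind (dist c (P i) ≤ R) := by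
      rw [← Finset.sum_add_distrib]
      exact Finset.sum_congr rfl fun i _ => by rw [ind_not]; ring
    have e4 : ∑ i, -ω i * (R / T) ^ D = -p * ∑ i, ω i := by
      rw [Finset.mul_sum]; exact Finset.sum_congr rfl fun i _ => by rw [hp]; ring
    have e5 : ∑ i, 1 / (m : ℝ) * ind (dist c (P i) ≤ R'') =
        (∑ i, ind (dist c (P i) ≤ R'')) / m := by
      rw [Finset.sum_div]; exact Finset.sum_congr rfl fun i _ => by ring
    rw [e1, e2, e4, e5] at hc
    rw [e3, hg, hγ]
    have e6 : (Fintype.card I : ℝ) * (1 / m * (p * (R'' / R) ^ D)) =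
      Fintype.card I * (p * (R'' / R) ^ D / m) := by ring
    simp only
    nlinarith
  set N : ℕ := ⌈a / p⌉₊ with hN
  have hN1 : a ≤ N * p := by
    have := Nat.le_ceil (a / p); rwa [div_le_iff₀ hp0] at this
  have hN2 : N * p ≤ 2 * a := by
    have := (Nat.ceil_lt_add_one (show 0 ≤ a / p by positivity)).le
    have h3 : (N : ℝ) * p ≤ (a / p + 1) * p := mul_le_mul_of_nonneg_right this hp0.le
    rw [add_mul, div_mul_cancel₀ _ hp0.ne'] at h3; linarith
  have hN0 : 0 < N := by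
    rcases Nat.eq_zero_or_pos N with h | h
    · rw [h] at hN1; simp at hN1; linarith
    · exact h
  obtain ⟨c, hc⟩ := sample (fun i c => dist c (P i) ≤ R) g p γ hp1 havg N (fun _ => 1)
    fun _ => zero_le_one
  let k : I → Fin N := fun i => if h : ∃ j, dist (c j) (P i) ≤ R then h.choose else ⟨0, hN0⟩
  obtain ⟨H, hH⟩ := hash m hm k (fun i j => dist (c j) (P i) ≤ R'')
  refine ⟨fun i => (¬ ∃ j, dist (c j) (P i) ≤ R) ∨ (∃ j, dist (c j) (P i) ≤ R') ∨
    ∃ j, dist (c j) (P i) ≤ R'' ∧ j ≠ k i ∧ H j = H (k i), N, c, k, H, ?_, ?_⟩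
  · have s1 : ∑ i, ind ((¬ ∃ j, dist (c j) (P i) ≤ R) ∨ (∃ j, dist (c j) (P i) ≤ R') ∨
        ∃ j, dist (c j) (P i) ≤ R'' ∧ j ≠ k i ∧ H j = H (k i)) ≤
        ∑ i, ind (¬ ∃ j, dist (c j) (P i) ≤ R) + ∑ i, ∑ j, ind (dist (c j) (P i) ≤ R') +
        ∑ i, ∑ j, ind (dist (c j) (P i) ≤ R'' ∧ j ≠ k i ∧ H j = H (k i)) := by
      rw [← Finset.sum_add_distrib, ← Finset.sum_add_distrib]
      refine Finset.sum_le_sum fun i _ => (ind_or_le _ _).trans ?_
      have := ind_or_le (∃ j, dist (c j) (P i) ≤ R')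
        (∃ j, dist (c j) (P i) ≤ R'' ∧ j ≠ k i ∧ H j = H (k i))
      have t1 := ind_exists_le fun j => dist (c j) (P i) ≤ R'
      have t2 := ind_exists_le fun j => dist (c j) (P i) ≤ R'' ∧ j ≠ k i ∧ H j = H (k i)
      linarith
    have s2 : ∑ j, g (c j) = ∑ i, ∑ j, ind (dist (c j) (P i) ≤ R') +
        (∑ i, ∑ j, ind (dist (c j) (P i) ≤ R'')) / m := by
      rw [hg, Finset.sum_add_distrib, ← Finset.sum_div, Finset.sum_comm]
      congr 2; exact Finset.sum_comm
    have s3 : (1 - p) ^ N ≤ Real.exp (-a) := by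
      calc (1 - p) ^ N ≤ Real.exp (-p) ^ N :=
            pow_le_pow_left₀ (by linarith) (by linarith [Real.add_one_le_exp (-p)]) _
        _ = Real.exp (N * -p) := (Real.exp_nat_mul _ _).symm
        _ ≤ Real.exp (-a) := Real.exp_le_exp.2 (by linarith)
    simp only [one_mul, Finset.sum_const, Finset.card_univ, nsmul_eq_mul, mul_one] at hc
    have hI : (0 : ℝ) ≤ Fintype.card I := by positivity
    have q1 : 0 ≤ (R' / R) ^ D := by positivity
    have q2 : 0 ≤ (R'' / R) ^ D / m := by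
      have : 0 ≤ R'' := by linarith
      positivity
    have s4 : N * γ ≤ (2 * a * (R' / R) ^ D + 2 * a * (R'' / R) ^ D / m) * Fintype.card I := by
      have : N * γ = (N * p) * (((R' / R) ^ D + (R'' / R) ^ D / m) * Fintype.card I) := by
        rw [hγ]; ring
      rw [this]
      calc _ ≤ 2 * a * (((R' / R) ^ D + (R'' / R) ^ D / m) * Fintype.card I) :=
            mul_le_mul_of_nonneg_right hN2 (by positivity)
        _ = _ := by ring
    have s5 := mul_le_mul_of_nonneg_right s3 hI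
    rw [s2] at hc
    nlinarith
  · intro i hi
    simp only [not_or, not_exists, not_and, not_le] at hi
    obtain ⟨u1, u2, u3⟩ := hi
    have u1' : ∃ j, dist (c j) (P i) ≤ R := by
      by_contra h; exact u1 fun j => by
        by_contra h'; exact h ⟨j, not_lt.1 h'⟩
    refine ⟨?_, u2, fun j hj hH => ?_⟩
    · simp only [k, dif_pos u1']; exact u1'.choose_spec
    · by_contra h; exact u3 j hj h hH

/-- One dyadic scale: a colouring that halves the bound on the difference of a progression. -/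
lemma scale (D : ℕ) (a ρ : ℝ) (ha : 1 ≤ a) (hD : 4 * a ≤ D) (hρ : 0 < ρ) (m : ℕ)
    (hm : Real.exp (8 * √(a * D) + 2 * a) ≤ m) {I : Type} [Fintype I]
    (P : I → EuclideanSpace ℝ (Fin D)) :
    ∃ (Bad : I → Prop) (col : I → Fin m),
      ∑ i, ind (Bad i) ≤ 3 * Real.exp (-a) * Fintype.card I ∧
      ∀ i0 i1 i2 δ, ¬ Bad i0 → ¬ Bad i1 → ¬ Bad i2 → P i1 = P i0 + δ → P i2 = P i0 - δ →
        col i1 = col i2 → ‖δ‖ ≤ ρ → ‖δ‖ ≤ ρ / 2 := by
  have hmR : (0 : ℝ) < m := lt_of_lt_of_le (Real.exp_pos _) hm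
  have hm0 : 0 < m := by exact_mod_cast hmR
  set M : ℝ := √(D / (4 * a)) with hM
  have hM2 : M ^ 2 = D / (4 * a) := Real.sq_sqrt (by positivity)
  have hM1 : 1 ≤ M := Real.one_le_sqrt.2 ((one_le_div (by linarith)).2 hD)
  set R : ℝ := M * ρ / 2 with hR
  have hR0 : 0 < R := by positivity
  have hRρ : ρ / 2 ≤ R := by nlinarith
  set R' : ℝ := √(R ^ 2 - ρ ^ 2 / 4) with hR'
  have hR'2 : R' ^ 2 = R ^ 2 - ρ ^ 2 / 4 := Real.sq_sqrt (by nlinarith)
  have hR'0 : 0 ≤ R' := Real.sqrt_nonneg _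
  have h1 : R' ≤ R := by nlinarith
  obtain ⟨Bad, N, c, k, H, hB, hG⟩ := centres D a R R' (R + 2 * ρ) ha hR0 hR'0 h1 (by linarith) m
    hm0 P
  refine ⟨Bad, fun i => H (k i), hB.trans (mul_le_mul_of_nonneg_right ?_ (by positivity)), ?_⟩
  · have h2a : 2 * a ≤ Real.exp a := by
      have := Real.add_one_le_exp (a - 1)
      have h3 : Real.exp a = Real.exp (a - 1) * Real.exp 1 := by rw [← Real.exp_add]; simp
      have h4 := Real.add_one_le_exp 1
      nlinarith
    have t1 : (R' / R) ^ D ≤ Real.exp (-(2 * a)) := by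
      have u1 : R' / R ≤ Real.exp (-(1 / (2 * M ^ 2))) := by
        refine (pow_le_pow_iff_left₀ (by positivity) (by positivity) two_ne_zero).1 ?_
        rw [← Real.exp_nat_mul, div_pow, hR'2]
        have : (R ^ 2 - ρ ^ 2 / 4) / R ^ 2 = -(1 / M ^ 2) + 1 := by rw [hR]; field_simp; ring
        rw [this]
        refine (Real.add_one_le_exp _).trans (le_of_eq ?_)
        congr 1; push_cast; field_simp
      refine (pow_le_pow_left₀ (by positivity) u1 D).trans (le_of_eq ?_)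
      rw [← Real.exp_nat_mul, hM2]
      have : (0 : ℝ) < D := by linarith
      congr 1; field_simp; ring
    have t2 : ((R + 2 * ρ) / R) ^ D ≤ Real.exp (8 * √(a * D)) := by
      have u1 : (R + 2 * ρ) / R ≤ Real.exp (4 / M) := by
        have : (R + 2 * ρ) / R = 4 / M + 1 := by rw [hR]; field_simp; ring
        rw [this]; exact Real.add_one_le_exp _
      refine (pow_le_pow_left₀ (by positivity) u1 D).trans (le_of_eq ?_)
      rw [← Real.exp_nat_mul]
      congr 1
      have hD0 : (0 : ℝ) < D := by linarith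
      have u2 : √(a * D) = D / (2 * M) := by
        rw [Real.sqrt_eq_iff_mul_self_eq (by positivity) (by positivity)]
        have : D / (2 * M) * (D / (2 * M)) = D ^ 2 / (4 * M ^ 2) := by field_simp; ring
        rw [this, hM2]; field_simp
      rw [u2]; field_simp; ring
    have e1 : Real.exp a * Real.exp (-(2 * a)) = Real.exp (-a) := by
      rw [← Real.exp_add]; congr 1; ring
    have t3 : 2 * a * (R' / R) ^ D ≤ Real.exp (-a) := by
      rw [← e1]; exact mul_le_mul h2a t1 (by positivity) (by positivity)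
    have t4 : 2 * a * ((R + 2 * ρ) / R) ^ D / m ≤ Real.exp (-a) := by
      rw [div_le_iff₀ hmR]
      calc _ ≤ Real.exp a * Real.exp (8 * √(a * D)) :=
            mul_le_mul h2a t2 (by positivity) (by positivity)
        _ = Real.exp (-a) * Real.exp (8 * √(a * D) + 2 * a) := by
            rw [← Real.exp_add, ← Real.exp_add]; congr 1; ring
        _ ≤ _ := mul_le_mul_of_nonneg_left hm (by positivity)
    linarith
  · intro i0 i1 i2 δ b0 b1 b2 e1 e2 hcol hδ
    obtain ⟨-, g0, -⟩ := hG i0 b0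
    obtain ⟨g1, -, g1'⟩ := hG i1 b1
    obtain ⟨g2, -, -⟩ := hG i2 b2
    have hk : k i2 = k i1 := by
      refine g1' _ ?_ hcol.symm
      have : dist (P i2) (P i1) ≤ 2 * ρ := by
        rw [dist_eq_norm, e1, e2]
        have : P i0 - δ - (P i0 + δ) = -((2 : ℝ) • δ) := by rw [two_smul]; abel
        rw [this, norm_neg, norm_smul]; simp; linarith
      linarith [dist_triangle (c (k i2)) (P i2) (P i1)]
    rw [hk] at g2
    have g3 := g0 (k i1)
    rw [dist_comm, dist_eq_norm] at g1 g2 g3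
    have hpar := parallelogram_law_with_norm ℝ (P i0 - c (k i1)) δ
    have f1 : P i0 - c (k i1) + δ = P i1 - c (k i1) := by rw [e1]; abel
    have f2 : P i0 - c (k i1) - δ = P i2 - c (k i1) := by rw [e2]; abel
    rw [f1, f2] at hpar
    have v1 := pow_le_pow_left₀ (norm_nonneg _) g1 2
    have v2 := pow_le_pow_left₀ (norm_nonneg _) g2 2
    have v3 := pow_le_pow_left₀ hR'0 g3.le 2
    refine (pow_le_pow_iff_left₀ (norm_nonneg _) (by positivity) two_ne_zero).1 ?_
    nlinarith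

/-- All scales together. -/
lemma scales (D : ℕ) (a ρ : ℝ) (ha : 1 ≤ a) (hD : 4 * a ≤ D) (hρ : 0 < ρ) (m s : ℕ)
    (hm : Real.exp (8 * √(a * D) + 2 * a) ≤ m) {I : Type} [Fintype I]
    (P : I → EuclideanSpace ℝ (Fin D)) :
    ∃ (Bad : I → Prop) (col : I → Fin s → Fin m),
      ∑ i, ind (Bad i) ≤ 3 * s * Real.exp (-a) * Fintype.card I ∧
      ∀ i0 i1 i2 δ, ¬ Bad i0 → ¬ Bad i1 → ¬ Bad i2 → P i1 = P i0 + δ → P i2 = P i0 - δ →
        col i1 = col i2 → ‖δ‖ ≤ ρ → ‖δ‖ ≤ ρ / 2 ^ s := by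
  choose Bad col h1 h2 using fun t : Fin s =>
    scale D a (ρ / 2 ^ (t : ℕ)) ha hD (by positivity) m hm P
  refine ⟨fun i => ∃ t, Bad t i, fun i t => col t i, ?_, ?_⟩
  · calc _ ≤ ∑ i, ∑ t, ind (Bad t i) := Finset.sum_le_sum fun i _ => ind_exists_le _
      _ = ∑ t, ∑ i, ind (Bad t i) := Finset.sum_comm
      _ ≤ ∑ _t : Fin s, 3 * Real.exp (-a) * Fintype.card I := Finset.sum_le_sum fun t _ => h1 t
      _ = _ := by simp; ring
  · intro i0 i1 i2 δ b0 b1 b2 e1 e2 hcol hδ
    have key : ∀ t : ℕ, t ≤ s → ‖δ‖ ≤ ρ / 2 ^ t := by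
      intro t
      induction t with
      | zero => intro _; simpa using hδ
      | succ t ih =>
        intro ht
        have := h2 ⟨t, ht⟩ i0 i1 i2 δ (fun h => b0 ⟨_, h⟩) (fun h => b1 ⟨_, h⟩)
          (fun h => b2 ⟨_, h⟩) e1 e2 (congrFun hcol _) (ih (by omega))
        rw [pow_succ, ← div_div]; exact this
    exact key s le_rfl

end Pool.Agent.Lib.MP_a77646_co
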