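import Mathlib
import Pool.Agent.Lib.MP_a77646_co.Scale

set_option autoImplicit false

open Finset
open scoped Classical

noncomputable section

namespace Pool.Agent.Lib.MP_a77646_co

/-- A dense bipartite graph on `[q]^D × [q]^D` split into few induced matchings. -/
lemma cover (D q m s : ℕ) (a : ℝ) (ha : 1 ≤ a) (hD : 4 * a ≤ D) (hq : 0 < q)
    (hs : q * D < 2 ^ s) (hm : Real.exp (8 * √(a * D) + 2 * a) ≤ m) :
    ∃ (H : (Fin D → Fin q) → (Fin D → Fin q) → Prop)
      (g : (Fin D → Fin q) → (Fin D → Fin q) → (Fin D → Fin (2 * q)) × (Fin s → Fin m)),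
      (1 - 3 * s * Real.exp (-a)) * ((q : ℝ) ^ D) ^ 2 ≤
        ∑ z : (Fin D → Fin q) × (Fin D → Fin q), ind (H z.1 z.2) ∧
      ∀ x x' y y', H x' y → H x y' → H x y → g x' y = g x y' → x' = x ∧ y' = y := by
  have hD1 : (1 : ℝ) ≤ D := by linarith
  let P : (Fin D → Fin q) × (Fin D → Fin q) → EuclideanSpace ℝ (Fin D) := fun z =>
    WithLp.toLp 2 fun j => ((z.1 j : ℕ) : ℝ) - ((z.2 j : ℕ) : ℝ)
  obtain ⟨Bad, col, h1, h2⟩ := scales D a ((q : ℝ) * D) ha hD (by positivity) m s hm P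
  refine ⟨fun x y => ¬ Bad (x, y), fun x y => (fun j => ⟨x j + y j, by
    have := (x j).2; have := (y j).2; omega⟩, col (x, y)), ?_, ?_⟩
  · simp only [ind_not, Finset.sum_sub_distrib, Finset.sum_const, Finset.card_univ, nsmul_eq_mul,
      mul_one]
    simp only [Fintype.card_prod, Fintype.card_pi, Fintype.card_fin, Finset.prod_const,
      Finset.card_univ] at h1 ⊢
    push_cast at h1 ⊢
    nlinarith
  · intro x x' y y' b1 b2 b0 hg
    have hsum : ∀ j, (x' j : ℕ) + y j = x j + y' j := fun j => by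
      have := congrArg Fin.val (congrFun (congrArg Prod.fst hg) j); simpa using this
    have hsumR : ∀ j, ((x' j : ℕ) : ℝ) + ((y j : ℕ) : ℝ) = ((x j : ℕ) : ℝ) + ((y' j : ℕ) : ℝ) :=
      fun j => by exact_mod_cast hsum j
    let δ : EuclideanSpace ℝ (Fin D) := WithLp.toLp 2 fun j => ((x' j : ℕ) : ℝ) - ((x j : ℕ) : ℝ)
    have hδ : ‖δ‖ ≤ (q : ℝ) * D := by
      refine (pow_le_pow_iff_left₀ (norm_nonneg _) (by positivity) two_ne_zero).1 ?_
      rw [EuclideanSpace.real_norm_sq_eq]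
      calc ∑ j, δ j ^ 2 ≤ ∑ _j : Fin D, (q : ℝ) ^ 2 := by
            refine Finset.sum_le_sum fun j _ => ?_
            have u1 : ((x j : ℕ) : ℝ) < q := by exact_mod_cast (x j).2
            have u2 : ((x' j : ℕ) : ℝ) < q := by exact_mod_cast (x' j).2
            have u3 : (0 : ℝ) ≤ ((x j : ℕ) : ℝ) := by positivity
            have u4 : (0 : ℝ) ≤ ((x' j : ℕ) : ℝ) := by positivity
            change (((x' j : ℕ) : ℝ) - ((x j : ℕ) : ℝ)) ^ 2 ≤ _
            nlinarith
        _ = D * (q : ℝ) ^ 2 := by simp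
        _ ≤ _ := by nlinarith [sq_nonneg (q : ℝ), mul_nonneg (sq_nonneg (q : ℝ)) (sub_nonneg.2 hD1)]
    have h3 := h2 (x, y) (x', y) (x, y') δ b0 b1 b2
      (by ext j; simp [P, δ]) (by ext j; simp only [P, δ, PiLp.sub_apply]; linarith [hsumR j])
      (congrArg Prod.snd hg) hδ
    have h4 : ‖δ‖ < 1 := by
      refine h3.trans_lt ((div_lt_one (by positivity)).2 ?_)
      exact_mod_cast hs
    have hx : ∀ j, (x' j : ℕ) = x j := by
      intro j
      have u1 : |((x' j : ℕ) : ℝ) - ((x j : ℕ) : ℝ)| < 1 :=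
        lt_of_le_of_lt (by simpa [δ] using PiLp.norm_apply_le δ j) h4
      have u2 : |((x' j : ℕ) : ℤ) - ((x j : ℕ) : ℤ)| < 1 := by exact_mod_cast u1
      rw [Int.abs_lt_one_iff] at u2
      omega
    exact ⟨funext fun j => Fin.ext (hx j), funext fun j => Fin.ext (by
      have := hsum j; have := hx j; omega)⟩

/-- Between two nested finite graphs every number of edges occurs. -/
lemma between {V : Type} [Fintype V] (G0 G1 : SimpleGraph V) (h : G0 ≤ G1) (e : ℕ)
    (h0 : G0.edgeSet.ncard ≤ e) (h1 : e ≤ G1.edgeSet.ncard) :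
    ∃ G : SimpleGraph V, G0 ≤ G ∧ G ≤ G1 ∧ G.edgeSet.ncard = e := by
  rw [Set.ncard_eq_toFinset_card'] at h0 h1
  obtain ⟨u, u1, u2, u3⟩ := Finset.exists_subsuperset_card_eq
    (Set.toFinset_subset_toFinset.2 (SimpleGraph.edgeSet_mono h)) h0 h1
  have hE : (SimpleGraph.fromEdgeSet (u : Set (Sym2 V))).edgeSet = u := by
    rw [SimpleGraph.edgeSet_fromEdgeSet]
    refine sdiff_eq_left.2 (Set.disjoint_left.2 fun z hz hd => ?_)
    exact G1.not_isDiag_of_mem_edgeSet (Set.mem_toFinset.1 (u2 hz)) hd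
  refine ⟨SimpleGraph.fromEdgeSet u, ?_, ?_, by rw [hE, Set.ncard_coe_finset, u3]⟩
  · rw [← SimpleGraph.edgeSet_subset_edgeSet, hE]
    exact fun z hz => u1 (Set.mem_toFinset.2 hz)
  · rw [← SimpleGraph.edgeSet_subset_edgeSet, hE]
    exact fun z hz => Set.mem_toFinset.1 (u2 hz)

/-- The directed adjacency of the blown-up tripartite graph. -/
def Rl {X L : Type} {h : ℕ} (H : X → X → Prop) (g : X → X → L) (S : Fin h → Fin h → Prop) :
    (X × Fin h) ⊕ (X × Fin h) ⊕ L → (X × Fin h) ⊕ (X × Fin h) ⊕ L → Prop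
  | Sum.inl a, Sum.inr (Sum.inl b) => H a.1 b.1 ∧ S a.2 b.2
  | Sum.inl a, Sum.inr (Sum.inr c) => ∃ y, H a.1 y ∧ g a.1 y = c
  | Sum.inr (Sum.inl b), Sum.inr (Sum.inr c) => ∃ x, H x b.1 ∧ g x b.1 = c
  | _, _ => False

/-- The blown-up tripartite graph with a prescribed number of edges. -/
lemma graph {X L : Type} [Fintype X] [Fintype L] (h : ℕ) (hh : 0 < h) (H : X → X → Prop)
    (g : X → X → L)
    (hg : ∀ x x' y y', H x' y → H x y' → H x y → g x' y = g x y' → x' = x ∧ y' = y) (e : ℕ)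
    (h0 : 3 * (Fintype.card X ^ 2 * h) ≤ e)
    (h1 : (e : ℝ) ≤ (∑ z : X × X, ind (H z.1 z.2)) * h ^ 2) :
    ∃ G : SimpleGraph ((X × Fin h) ⊕ (X × Fin h) ⊕ L), G.edgeSet.ncard = e ∧
      ∀ u v, G.Adj u v → (G.commonNeighbors u v).Nonempty ∧ (G.commonNeighbors u v).ncard ≤ h := by
  set G0 := SimpleGraph.fromRel (Rl (h := h) H g fun i j => i = j) with hG0
  set G1 := SimpleGraph.fromRel (Rl (h := h) H g fun _ _ => True) with hG1
  have hle : G0 ≤ G1 := by
    rintro (a | b | c) (a' | b' | c') hadj <;>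
      simp only [hG0, hG1, SimpleGraph.fromRel_adj, Rl] at hadj ⊢ <;> tauto
  have hc0 : G0.edgeSet.ncard ≤ e := by
    refine le_trans ?_ h0
    let f : Fin 3 × (X × X) × Fin h → Sym2 ((X × Fin h) ⊕ (X × Fin h) ⊕ L) := fun z =>
      if z.1 = 0 then s(Sum.inl (z.2.1.1, z.2.2), Sum.inr (Sum.inl (z.2.1.2, z.2.2)))
      else if z.1 = 1 then s(Sum.inl (z.2.1.1, z.2.2), Sum.inr (Sum.inr (g z.2.1.1 z.2.1.2)))
      else s(Sum.inr (Sum.inl (z.2.1.2, z.2.2)), Sum.inr (Sum.inr (g z.2.1.1 z.2.1.2)))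
    have key : ∀ u v, Rl (h := h) H g (fun i j => i = j) u v → s(u, v) ∈ f '' Set.univ := by
      rintro (⟨a, i⟩ | ⟨b, i⟩ | c) (⟨a', j⟩ | ⟨b', j⟩ | c') hr <;> simp only [Rl] at hr
      · obtain ⟨-, rfl⟩ := hr
        exact ⟨(0, (a, b'), i), trivial, by simp [f]⟩
      · obtain ⟨y, -, rfl⟩ := hr
        exact ⟨(1, (a, y), i), trivial, by simp [f]⟩
      · obtain ⟨x, -, rfl⟩ := hr
        exact ⟨(2, (x, b), i), trivial, by simp [f]⟩
    have hsub : G0.edgeSet ⊆ f '' Set.univ := by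
      intro z hz
      induction z using Sym2.ind with
      | _ u v =>
        rw [SimpleGraph.mem_edgeSet, hG0, SimpleGraph.fromRel_adj] at hz
        rcases hz.2 with hr | hr
        · exact key u v hr
        · rw [Sym2.eq_swap]; exact key v u hr
    refine (Set.ncard_le_ncard hsub (Set.toFinite _)).trans ((Set.ncard_image_le (Set.toFinite _)).trans ?_)
    rw [Set.ncard_univ, Nat.card_eq_fintype_card]
    simp [sq]
  have hc1 : e ≤ G1.edgeSet.ncard := by
    have h1' : e ≤ (univ.filter fun z : X × X => H z.1 z.2).card * h ^ 2 := by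
      have : (∑ z : X × X, ind (H z.1 z.2)) =
          ((univ.filter fun z : X × X => H z.1 z.2).card : ℝ) := by
        rw [Finset.card_filter]; push_cast; rfl
      rw [this] at h1
      exact_mod_cast h1
    refine h1'.trans ?_
    let f : (X × X) × Fin h × Fin h → Sym2 ((X × Fin h) ⊕ (X × Fin h) ⊕ L) := fun z =>
      s(Sum.inl (z.1.1, z.2.1), Sum.inr (Sum.inl (z.1.2, z.2.2)))
    have := Set.ncard_le_ncard_of_injOn (s := ((univ.filter fun z : X × X => H z.1 z.2) ×ˢ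
      (univ : Finset (Fin h × Fin h)) : Finset _)) (t := G1.edgeSet) f
      (fun z hz => by
        have hz' : H z.1.1 z.1.2 := by simpa using hz
        simp [f, hG1, SimpleGraph.fromRel_adj, Rl, hz'])
      (fun z _ w _ hzw => by
        obtain ⟨⟨a, b⟩, i, j⟩ := z
        obtain ⟨⟨a', b'⟩, i', j'⟩ := w
        simp only [f, Sym2.eq_iff] at hzw
        simp at hzw
        simp [hzw]) (Set.toFinite _)
    rw [Set.ncard_coe_finset] at this
    simpa [sq] using this
  obtain ⟨G, g0, g1, ge⟩ := between G0 G1 hle e hc0 hc1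
  refine ⟨G, ge, ?_⟩
  have key : ∀ u v, Rl (h := h) H g (fun _ _ => True) u v →
      (G0.commonNeighbors u v).Nonempty ∧ (G1.commonNeighbors u v).ncard ≤ h := by
    rintro (⟨a, i⟩ | ⟨b, i⟩ | c) (⟨a', j⟩ | ⟨b', j⟩ | c') hr <;> simp only [Rl] at hr
    · refine ⟨⟨Sum.inr (Sum.inr (g a b')), ?_⟩, ?_⟩
      · simp only [SimpleGraph.mem_commonNeighbors, hG0, SimpleGraph.fromRel_adj, Rl]
        exact ⟨⟨by simp, Or.inl ⟨b', hr.1, rfl⟩⟩, by simp, Or.inl ⟨a, hr.1, rfl⟩⟩
      · refine le_trans (Set.ncard_le_ncard (t := {Sum.inr (Sum.inr (g a b'))}) ?_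
          (Set.toFinite _)) (by rw [Set.ncard_singleton]; exact hh)
        rintro (w | w | w) hw <;>
          simp only [SimpleGraph.mem_commonNeighbors, hG1, SimpleGraph.fromRel_adj, Rl] at hw
        · simp at hw
        · simp at hw
        · obtain ⟨⟨-, ⟨y, y1, y2⟩ | hf⟩, -, ⟨x, x1, x2⟩ | hf'⟩ := hw <;> try contradiction
          obtain ⟨rfl, -⟩ := hg a x b' y x1 y1 hr.1 (x2.trans y2.symm)
          simp [x2]
    · obtain ⟨y, y1, rfl⟩ := hr
      refine ⟨⟨Sum.inr (Sum.inl (y, i)), ?_⟩, ?_⟩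
      · simp only [SimpleGraph.mem_commonNeighbors, hG0, SimpleGraph.fromRel_adj, Rl]
        exact ⟨⟨by simp, Or.inl ⟨y1, trivial⟩⟩, by simp, Or.inr ⟨a, y1, rfl⟩⟩
      · refine le_trans (Set.ncard_le_ncard
          (t := (fun j : Fin h => Sum.inr (Sum.inl (y, j))) '' Set.univ) ?_ (Set.toFinite _))
          ((Set.ncard_image_le (Set.toFinite _)).trans (by simp [Set.ncard_univ]))
        rintro (w | ⟨b, j⟩ | w) hw <;>
          simp only [SimpleGraph.mem_commonNeighbors, hG1, SimpleGraph.fromRel_adj, Rl] at hw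
        · simp at hw
        · obtain ⟨⟨-, ⟨y2, -⟩ | hf⟩, -, hf' | ⟨x, x1, x2⟩⟩ := hw <;> try contradiction
          obtain ⟨-, rfl⟩ := hg a x b y x1 y1 y2 x2
          exact ⟨j, trivial, rfl⟩
        · simp at hw
    · obtain ⟨x, x1, rfl⟩ := hr
      refine ⟨⟨Sum.inl (x, i), ?_⟩, ?_⟩
      · simp only [SimpleGraph.mem_commonNeighbors, hG0, SimpleGraph.fromRel_adj, Rl]
        exact ⟨⟨by simp, Or.inr ⟨x1, trivial⟩⟩, by simp, Or.inr ⟨b, x1, rfl⟩⟩
      · refine le_trans (Set.ncard_le_ncard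
          (t := (fun j : Fin h => Sum.inl (x, j)) '' Set.univ) ?_ (Set.toFinite _))
          ((Set.ncard_image_le (Set.toFinite _)).trans (by simp [Set.ncard_univ]))
        rintro (⟨a, j⟩ | w | w) hw <;>
          simp only [SimpleGraph.mem_commonNeighbors, hG1, SimpleGraph.fromRel_adj, Rl] at hw
        · obtain ⟨⟨-, hf | ⟨y2, -⟩⟩, -, hf' | ⟨y, y1, y3⟩⟩ := hw <;> try contradiction
          obtain ⟨rfl, -⟩ := hg a x b y x1 y1 y2 y3.symm
          exact ⟨j, trivial, rfl⟩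
        · simp at hw
        · simp at hw
  have mono : ∀ (A B : SimpleGraph ((X × Fin h) ⊕ (X × Fin h) ⊕ L)), A ≤ B → ∀ u v,
      A.commonNeighbors u v ⊆ B.commonNeighbors u v := fun A B hAB u v w hw =>
    ⟨hAB hw.1, hAB hw.2⟩
  intro u v huv
  have := g1 huv
  rw [hG1, SimpleGraph.fromRel_adj] at this
  rcases this.2 with hr | hr
  · exact ⟨(key u v hr).1.mono (mono _ _ g0 u v),
      (Set.ncard_le_ncard (mono _ _ g1 u v) (Set.toFinite _)).trans (key u v hr).2⟩
  · rw [SimpleGraph.commonNeighbors_symm]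
    exact ⟨(key v u hr).1.mono (mono _ _ g0 v u),
      (Set.ncard_le_ncard (mono _ _ g1 v u) (Set.toFinite _)).trans (key v u hr).2⟩

/-- Padding with isolated vertices. -/
lemma pad {V : Type} [Fintype V] (G : SimpleGraph V) (n h : ℕ) (hn : Fintype.card V ≤ n)
    (hG : ∀ u v, G.Adj u v →
      (G.commonNeighbors u v).Nonempty ∧ (G.commonNeighbors u v).ncard ≤ h) :
    ∃ G' : SimpleGraph (Fin n), G'.edgeSet.ncard = G.edgeSet.ncard ∧ ∀ u v, G'.Adj u v →
      1 ≤ (G'.commonNeighbors u v).ncard ∧ (G'.commonNeighbors u v).ncard ≤ h := by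
  obtain ⟨f⟩ : Nonempty (V ↪ Fin n) := Function.Embedding.nonempty_of_card_le (by simpa using hn)
  refine ⟨G.map f, ?_, ?_⟩
  · rw [SimpleGraph.edgeSet_map, Set.ncard_image_of_injective _ f.sym2Map.injective]
  · intro u v huv
    obtain ⟨a, b, hab, rfl, rfl⟩ := (SimpleGraph.map_adj f G u v).1 huv
    have : (G.map f).commonNeighbors (f a) (f b) = f '' G.commonNeighbors a b := by
      ext w
      simp only [SimpleGraph.mem_commonNeighbors, Set.mem_image]
      constructor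
      · rintro ⟨w1, w2⟩
        obtain ⟨a', c, -, -, rfl⟩ := (SimpleGraph.map_adj f G _ _).1 w1
        exact ⟨c, ⟨SimpleGraph.map_adj_apply.1 w1, SimpleGraph.map_adj_apply.1 w2⟩, rfl⟩
      · rintro ⟨c, ⟨c1, c2⟩, rfl⟩
        exact ⟨SimpleGraph.map_adj_apply.2 c1, SimpleGraph.map_adj_apply.2 c2⟩
    rw [this, Set.ncard_image_of_injective _ f.injective]
    exact ⟨(Set.ncard_pos (Set.toFinite _)).2 (hG a b hab).1, (hG a b hab).2⟩

end Pool.Agent.Lib.MP_a77646_co
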