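import Mathlib
import Pool.Agent.Lib.MP_a77646_co.Graph

set_option autoImplicit false

open Finset Filter
open scoped Classical

noncomputable section

namespace Pool.Agent.Lib.MP_a77646_co

lemma exists_root (D : ℕ) (hD : 0 < D) (t : ℝ) (ht : 1 ≤ t) :
    ∃ q : ℕ, 0 < q ∧ (q : ℝ) ^ D ≤ t ∧ t ≤ (2 * q : ℝ) ^ D := by
  set r : ℝ := t ^ ((D : ℝ)⁻¹) with hr
  have hrD : r ^ D = t := Real.rpow_inv_natCast_pow (by linarith) hD.ne'
  have hr1 : 1 ≤ r := Real.one_le_rpow ht (by positivity)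
  have h1 : 1 ≤ ⌊r⌋₊ := Nat.le_floor (by simpa using hr1)
  have h1' : (1 : ℝ) ≤ ⌊r⌋₊ := by exact_mod_cast h1
  refine ⟨⌊r⌋₊, h1, ?_, ?_⟩
  · rw [← hrD]; exact pow_le_pow_left₀ (by positivity) (Nat.floor_le (by linarith)) _
  · rw [← hrD]
    exact pow_le_pow_left₀ (by linarith) (by linarith [Nat.lt_floor_add_one r]) _

lemma assemble (c η W a : ℝ) (n D s : ℕ) (hη : 0 < η) (hηc : 2 * η ≤ c) (hη1 : η ≤ 1 / 4)
    (hcη : c + η ≤ (1 - η) * (1 - 2 * η) ^ 2 / 4) (ha : 1 ≤ a) (hD : 4 * a ≤ D)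
    (hDW : (D : ℝ) ≤ 2 * W) (hms : s * (10 * √(a * D)) ≤ 57 * W)
    (hs : ∀ q : ℕ, (q : ℝ) ^ D ≤ n → q * D < 2 ^ s) (hfail : 3 * s * Real.exp (-a) ≤ η)
    (hn : Real.exp (61 * W) ≤ n) (hW : 2 * Real.exp (-(2 * W)) ≤ η) (hn1 : 1 ≤ η * (n : ℝ) ^ 2)
    (e : ℕ) (he : |(e : ℝ) - c * (n : ℝ) ^ 2| ≤ 1) :
    ∃ G : SimpleGraph (Fin n), G.edgeSet.ncard = e ∧ ∀ u v, G.Adj u v →
      1 ≤ (G.commonNeighbors u v).ncard ∧
        ((G.commonNeighbors u v).ncard : ℝ) ≤ Real.exp (63 * W) := by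
  have hD0 : 0 < D := by
    have : (0 : ℝ) < D := by linarith
    exact_mod_cast this
  have hW0 : 0 ≤ W := by linarith
  have hY : 1 ≤ Real.exp (61 * W) := Real.one_le_exp (by linarith)
  have hn0 : (0 : ℝ) < n := by linarith
  obtain ⟨q, hq, q1, q2⟩ := exists_root D hD0 (n / Real.exp (61 * W))
    ((one_le_div (by positivity)).2 hn)
  set m : ℕ := ⌈Real.exp (8 * √(a * D) + 2 * a)⌉₊ with hm
  have hsq : 2 * a ≤ √(a * D) := Real.le_sqrt_of_sq_le (by nlinarith)
  have hm2 : (m : ℝ) ≤ Real.exp (10 * √(a * D)) := by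
    have u1 := (Nat.ceil_lt_add_one (Real.exp_pos (8 * √(a * D) + 2 * a)).le).le
    have u2 : 1 ≤ Real.exp (8 * √(a * D) + 2 * a) := Real.one_le_exp (by positivity)
    have u3 : 2 ≤ Real.exp 1 := by linarith [Real.add_one_le_exp 1]
    calc (m : ℝ) ≤ Real.exp (8 * √(a * D) + 2 * a) * Real.exp 1 := by nlinarith
      _ = Real.exp (8 * √(a * D) + 2 * a + 1) := (Real.exp_add _ _).symm
      _ ≤ _ := Real.exp_le_exp.2 (by linarith)
  have qn : (q : ℝ) ^ D ≤ n := q1.trans (div_le_self hn0.le hY)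
  obtain ⟨H, g, hH, hg⟩ := cover D q m s a ha hD hq (hs q qn) (Nat.le_ceil _)
  set N : ℕ := q ^ D with hN
  have hNR : (N : ℝ) = (q : ℝ) ^ D := by rw [hN]; push_cast; rfl
  have hN0 : 0 < N := pow_pos hq D
  have hN0' : (0 : ℝ) < N := by exact_mod_cast hN0
  rw [← hNR] at hH q1
  have h2D : (2 : ℝ) ^ D ≤ Real.exp (2 * W) := by
    calc (2 : ℝ) ^ D ≤ Real.exp 1 ^ D :=
          pow_le_pow_left₀ (by norm_num) (by linarith [Real.add_one_le_exp 1]) _
      _ = Real.exp (D * 1) := (Real.exp_nat_mul _ _).symm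
      _ ≤ _ := Real.exp_le_exp.2 (by linarith)
  set l : ℕ := (2 * q) ^ D * m ^ s with hl
  have hNn : (N : ℝ) * Real.exp (61 * W) ≤ n := (le_div_iff₀ (by positivity)).1 q1
  have hE : Real.exp (61 * W) * Real.exp (-(2 * W)) = Real.exp (59 * W) := by
    rw [← Real.exp_add]; congr 1; ring
  have h59 : 1 ≤ Real.exp (59 * W) := Real.one_le_exp (by linarith)
  have hN59 : 2 * (N * Real.exp (59 * W)) ≤ η * n := by
    rw [← hE]
    have := mul_le_mul hNn hW (by positivity) hn0.le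
    nlinarith
  have hlR : (l : ℝ) ≤ N * Real.exp (59 * W) := by
    have u1 : (m : ℝ) ^ s ≤ Real.exp (57 * W) := by
      calc (m : ℝ) ^ s ≤ Real.exp (10 * √(a * D)) ^ s := pow_le_pow_left₀ (by positivity) hm2 _
        _ = Real.exp (s * (10 * √(a * D))) := (Real.exp_nat_mul _ _).symm
        _ ≤ _ := Real.exp_le_exp.2 hms
    have u2 : (l : ℝ) = N * (2 ^ D * (m : ℝ) ^ s) := by rw [hl, hNR]; push_cast; ring
    have u3 : Real.exp (59 * W) = Real.exp (2 * W) * Real.exp (57 * W) := by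
      rw [← Real.exp_add]; congr 1; ring
    rw [u2, u3]
    exact mul_le_mul_of_nonneg_left (mul_le_mul h2D u1 (by positivity) (by positivity)) hN0'.le
  have hlη : (l : ℝ) ≤ η * n := by nlinarith
  have hNη : 2 * (N : ℝ) ≤ η * n := by nlinarith
  have hln : l ≤ n := by
    have : (l : ℝ) ≤ n := hlη.trans (mul_le_of_le_one_left hn0.le (by linarith))
    exact_mod_cast this
  set h : ℕ := (n - l) / (2 * N) with hh
  have hh1 : 2 * N * h + l ≤ n := by
    have h1 : 2 * N * h ≤ n - l := Nat.mul_div_le (n - l) (2 * N)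
    exact (Nat.le_sub_iff_add_le hln).1 h1
  have hh2 : n < 2 * N * h + 2 * N + l := by
    have h1 : n - l < 2 * N * (h + 1) := Nat.lt_mul_div_succ (n - l) (show 0 < 2 * N by omega)
    rw [mul_add, mul_one] at h1
    exact (Nat.sub_lt_iff_lt_add hln).1 h1
  have hh1R : 2 * ((N : ℝ) * h) + l ≤ n := by
    have : ((2 * N * h + l : ℕ) : ℝ) ≤ n := by exact_mod_cast hh1
    push_cast at this; linarith
  have hh2R : (1 - 2 * η) * n ≤ 2 * ((N : ℝ) * h) := by
    have : (n : ℝ) < ((2 * N * h + 2 * N + l : ℕ) : ℝ) := by exact_mod_cast hh2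
    push_cast at this; linarith
  have hl0 : (0 : ℝ) ≤ l := by positivity
  have hhpos : 0 < h := by
    rcases Nat.eq_zero_or_pos h with h0 | h0
    · rw [h0] at hh2R; simp at hh2R; nlinarith
    · exact h0
  have hcard : Fintype.card (Fin D → Fin q) = N := by simp [hN]
  obtain ⟨e1, e2⟩ := abs_le.1 he
  obtain ⟨G, G1, G2⟩ := graph h hhpos H g hg e (by
    rw [hcard]
    have : (3 * ((N : ℝ) ^ 2 * h)) ≤ e := by
      have u1 : (N : ℝ) * (2 * ((N : ℝ) * h)) ≤ N * n :=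
        mul_le_mul_of_nonneg_left (by linarith) hN0'.le
      have u2 : 2 * (N : ℝ) * n ≤ η * n * n := mul_le_mul_of_nonneg_right hNη hn0.le
      have u3 : 2 * η * (n : ℝ) ^ 2 ≤ c * (n : ℝ) ^ 2 :=
        mul_le_mul_of_nonneg_right hηc (by positivity)
      nlinarith
    exact_mod_cast this) (by
    have u1 : ((1 - 2 * η) * n) ^ 2 ≤ (2 * ((N : ℝ) * h)) ^ 2 :=
      pow_le_pow_left₀ (by nlinarith) hh2R 2
    have u2 : (1 - η) * (N : ℝ) ^ 2 ≤ ∑ z : (Fin D → Fin q) × (Fin D → Fin q), ind (H z.1 z.2) :=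
      le_trans (mul_le_mul_of_nonneg_right (by linarith) (by positivity)) hH
    have u3 := mul_le_mul_of_nonneg_right u2 (show (0 : ℝ) ≤ (h : ℝ) ^ 2 by positivity)
    have u4 := mul_le_mul_of_nonneg_left u1 (show 0 ≤ 1 - η by linarith)
    have u5 := mul_le_mul_of_nonneg_right hcη (show (0 : ℝ) ≤ (n : ℝ) ^ 2 by positivity)
    nlinarith)
  obtain ⟨G', G1', G2'⟩ := pad G n h (by
    simp only [Fintype.card_sum, Fintype.card_prod, hcard, Fintype.card_fin, Fintype.card_pi,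
      Finset.prod_const, Finset.card_univ]
    rw [← hl]; nlinarith) G2
  refine ⟨G', G1'.trans G1, fun u v huv => ⟨(G2' u v huv).1, ?_⟩⟩
  have u1 : ((G'.commonNeighbors u v).ncard : ℝ) ≤ h := by exact_mod_cast (G2' u v huv).2
  refine u1.trans ?_
  have u2 : (n : ℝ) ≤ N * Real.exp (63 * W) := by
    rw [div_le_iff₀ (by positivity), mul_pow, ← hNR] at q2
    have u3 : Real.exp (63 * W) = Real.exp (2 * W) * Real.exp (61 * W) := by
      rw [← Real.exp_add]; congr 1; ring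
    rw [u3]
    have := mul_le_mul_of_nonneg_right h2D (show 0 ≤ N * Real.exp (61 * W) by positivity)
    nlinarith
  have u4 : (N : ℝ) * h ≤ N * Real.exp (63 * W) := by
    have : (0 : ℝ) ≤ N * h := by positivity
    linarith
  exact le_of_mul_le_mul_left u4 hN0'

theorem main (c : ℝ) (hc0 : 0 < c) (hc : c < 1 / 4) : ∃ n₀ : ℕ, ∀ n : ℕ, n₀ ≤ n → ∀ e : ℕ,
    |(e : ℝ) - c * (n : ℝ) ^ 2| ≤ 1 → ∃ G : SimpleGraph (Fin n), G.edgeSet.ncard = e ∧
      ∀ u v, G.Adj u v → 1 ≤ (G.commonNeighbors u v).ncard ∧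
        ((G.commonNeighbors u v).ncard : ℝ) ≤ Real.exp (63 *
          (Real.log n ^ (2 / 3 : ℝ) * Real.log (Real.log n) ^ (1 / 3 : ℝ))) := by
  set η : ℝ := min (c / 2) ((1 / 4 - c) / 3) with hη
  have hη0 : 0 < η := lt_min (by linarith) (by linarith)
  have hη1 : η ≤ c / 2 := min_le_left _ _
  have hη2 : η ≤ (1 / 4 - c) / 3 := min_le_right _ _
  have hL : Tendsto (fun n : ℕ => Real.log n) atTop atTop :=
    Real.tendsto_log_atTop.comp tendsto_natCast_atTop_atTop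
  have ev1 : ∀ᶠ L : ℝ in atTop, ‖Real.log L ^ 4‖ ≤ 1 / 61 ^ 3 * ‖id L‖ :=
    (Real.isLittleO_pow_log_id_atTop (n := 4)).bound (by positivity)
  have ev2 : ∀ᶠ L : ℝ in atTop, 1 ≤ Real.log L := Real.tendsto_log_atTop.eventually_ge_atTop 1
  have ev3 : ∀ᶠ L : ℝ in atTop, max 1 (12 / η) ≤ L := eventually_ge_atTop _
  have ev4 : ∀ᶠ L : ℝ in atTop, (1 / η) ^ 3 ≤ L := eventually_ge_atTop _
  obtain ⟨n₀, hn₀⟩ := eventually_atTop.1 (hL.eventually (ev1.and (ev2.and (ev3.and ev4))))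
  refine ⟨max n₀ 1, fun n hn e he => ?_⟩
  obtain ⟨p1, p2, p3, p4⟩ := hn₀ n (le_of_max_le_left hn)
  have hn1 : (1 : ℝ) ≤ n := by exact_mod_cast le_of_max_le_right hn
  set L : ℝ := Real.log n with hLd
  set l : ℝ := Real.log L with hld
  have L1 : 1 ≤ L := le_of_max_le_left p3
  have L2 : 12 / η ≤ L := le_of_max_le_right p3
  have hnL : Real.exp L = n := Real.exp_log (by linarith)
  have hLl : Real.exp l = L := Real.exp_log (by linarith)
  set u : ℝ := L ^ (1 / 3 : ℝ) with hu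
  set w : ℝ := l ^ (1 / 3 : ℝ) with hw
  have u3 : u ^ 3 = L := by
    rw [hu, ← Real.rpow_natCast, ← Real.rpow_mul (by linarith)]; norm_num
  have w3 : w ^ 3 = l := by
    rw [hw, ← Real.rpow_natCast, ← Real.rpow_mul (by linarith)]; norm_num
  have u2 : L ^ (2 / 3 : ℝ) = u ^ 2 := by
    rw [hu, ← Real.rpow_natCast, ← Real.rpow_mul (by linarith)]; norm_num
  have u1 : 1 ≤ u := Real.one_le_rpow L1 (by norm_num)
  have w1 : 1 ≤ w := Real.one_le_rpow p2 (by norm_num)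
  have uw : 61 * w ^ 4 ≤ u := by
    refine (pow_le_pow_iff_left₀ (by positivity) (by positivity) three_ne_zero).1 ?_
    rw [Real.norm_of_nonneg (by positivity), id, Real.norm_of_nonneg (by linarith), ← w3] at p1
    rw [u3]; nlinarith
  have uη : 1 / η ≤ u := by
    refine (pow_le_pow_iff_left₀ (by positivity) (by positivity) three_ne_zero).1 ?_
    rw [u3]; exact p4
  rw [u2]
  set W : ℝ := u ^ 2 * w with hW
  have w4 : w ≤ w ^ 4 := le_self_pow₀ w1 (by norm_num)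
  have w34 : w ^ 3 ≤ w ^ 4 := pow_le_pow_right₀ w1 (by norm_num)
  have uW : u ≤ W := by nlinarith [mul_le_mul u1 w1 zero_le_one (by linarith : (0 : ℝ) ≤ u)]
  have W1 : 1 ≤ W := u1.trans uW
  have WL : 61 * (W * w ^ 3) ≤ L := by
    have := mul_le_mul_of_nonneg_left uw (show 0 ≤ u ^ 2 by positivity)
    rw [← u3, hW]; nlinarith
  have w31 : 1 ≤ w ^ 3 := one_le_pow₀ w1
  have WL' : 61 * W ≤ L := by nlinarith
  set D : ℕ := ⌈W⌉₊ with hD
  have D1 : W ≤ D := Nat.le_ceil _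
  have D2 : (D : ℝ) ≤ 2 * W := by
    have := (Nat.ceil_lt_add_one (show 0 ≤ W by linarith)).le; linarith
  have D0 : (0 : ℝ) < D := by linarith
  have LD : l ≤ L / D := by rw [le_div_iff₀ D0, ← w3]; nlinarith
  set s : ℕ := ⌈3 * (L / D)⌉₊ with hs
  have s1 : 3 * (L / D) ≤ s := Nat.le_ceil _
  have s2 : (s : ℝ) ≤ 4 * (L / D) := by
    have := (Nat.ceil_lt_add_one (show 0 ≤ 3 * (L / D) by positivity)).le; linarith
  refine assemble c η W (2 * l) n D s hη0 (by linarith) (by linarith) ?_ (by linarith)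
    (by rw [← w3]; linarith) D2 ?_ ?_ ?_ (by rw [← hnL]; exact Real.exp_le_exp.2 WL') ?_ ?_ e he
  · nlinarith [mul_nonneg hη0.le hη0.le, mul_nonneg (mul_nonneg hη0.le hη0.le)
      (show 0 ≤ 2 - η by linarith)]
  · have v1 : L / D * √(2 * l * D) ≤ 1.425 * W := by
      refine (pow_le_pow_iff_left₀ (by positivity) (by positivity) two_ne_zero).1 ?_
      rw [mul_pow, Real.sq_sqrt (by positivity)]
      have v2 : (L / D) ^ 2 * (2 * l * D) = 2 * (L ^ 2 * l) / D := by field_simp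
      have v3 : L ^ 2 * l = W ^ 3 := by rw [← u3, ← w3, hW]; ring
      rw [v2, v3, div_le_iff₀ D0]
      have v4 := mul_le_mul_of_nonneg_left D1 (show 0 ≤ W ^ 2 by positivity)
      nlinarith [mul_nonneg (sq_nonneg W) D0.le]
    have v5 := mul_le_mul_of_nonneg_right s2 (Real.sqrt_nonneg (2 * l * D))
    nlinarith
  · intro q hq
    have v1 : (q : ℝ) ≤ Real.exp (L / D) := by
      refine (pow_le_pow_iff_left₀ (by positivity) (by positivity)
        (show D ≠ 0 by exact_mod_cast D0.ne')).1 ?_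
      rw [← Real.exp_nat_mul, mul_div_cancel₀ _ D0.ne', hnL]; exact hq
    have v2 : (D : ℝ) ≤ Real.exp (L / D) := by
      refine le_trans ?_ (Real.exp_le_exp.2 LD)
      rw [hLl]; linarith
    have v3 : Real.exp (L / D) * Real.exp (L / D) < 2 ^ s := by
      rw [← Real.exp_add, ← Real.exp_log two_pos, ← Real.exp_nat_mul]
      refine Real.exp_lt_exp.2 ?_
      have := Real.log_two_gt_d9
      have v4 : 1 ≤ L / D := by linarith
      nlinarith
    have v5 : (q : ℝ) * D < 2 ^ s :=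
      (mul_le_mul v1 v2 D0.le (by positivity)).trans_lt v3
    exact_mod_cast v5
  · have v1 : Real.exp (-(2 * l)) = 1 / L ^ 2 := by
      rw [Real.exp_neg, show 2 * l = (2 : ℕ) * l by norm_num, Real.exp_nat_mul, hLl, one_div]
    have v2 : L / D ≤ L := div_le_self (by linarith) (by linarith)
    rw [v1, mul_one_div, div_le_iff₀ (by positivity)]
    rw [div_le_iff₀ hη0] at L2
    nlinarith
  · have v1 := Real.add_one_le_exp (2 * W)
    rw [Real.exp_neg, ← div_eq_mul_inv, div_le_iff₀ (by positivity)]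
    rw [div_le_iff₀ hη0] at uη
    nlinarith
  · have v1 := Real.add_one_le_exp L
    rw [div_le_iff₀ hη0] at L2
    nlinarith

end Pool.Agent.Lib.MP_a77646_co
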