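import Mathlib

/-! Averages over the classes of a labelling, and a greedy hitting set. -/

set_option autoImplicit false

namespace Pool.Agent.Lib.MP_a77646_co.Tow

open Finset
open scoped Classical

variable {α ι : Type*}

/-- The class of `x` in `s` under the labelling `τ`. -/
noncomputable def cl (τ : α → ι) (s : Finset α) (x : α) : Finset α := s.filter fun y => τ y = τ x

/-- The mean of `f` over the class of `x`. -/
noncomputable def av (τ : α → ι) (s : Finset α) (f : α → ℝ) (x : α) : ℝ :=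
  (∑ y ∈ cl τ s x, f y) / (cl τ s x).card

lemma mem_cl {τ : α → ι} {s : Finset α} {x y : α} : y ∈ cl τ s x ↔ y ∈ s ∧ τ y = τ x :=
  mem_filter

lemma cl_congr {τ : α → ι} (s : Finset α) {x y : α} (h : τ x = τ y) : cl τ s x = cl τ s y := by
  simp only [cl, h]

lemma av_congr {τ : α → ι} (s : Finset α) (f : α → ℝ) {x y : α} (h : τ x = τ y) :
    av τ s f x = av τ s f y := by
  simp only [av, cl_congr s h]

lemma cl_pos (τ : α → ι) {s : Finset α} {x : α} (h : x ∈ s) : (0 : ℝ) < (cl τ s x).card := by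
  exact_mod_cast card_pos.2 ⟨x, mem_cl.2 ⟨h, rfl⟩⟩

lemma av_nonneg (τ : α → ι) (s : Finset α) {f : α → ℝ} (hf : ∀ y, 0 ≤ f y) (x : α) :
    0 ≤ av τ s f x :=
  div_nonneg (sum_nonneg fun y _ => hf y) (Nat.cast_nonneg _)

lemma av_le_one (τ : α → ι) (s : Finset α) {f : α → ℝ} (hf : ∀ y, f y ≤ 1) (x : α) :
    av τ s f x ≤ 1 := by
  refine div_le_one_of_le₀ ?_ (Nat.cast_nonneg _)
  simpa using sum_le_card_nsmul (cl τ s x) f 1 fun y _ => hf y

lemma av_sum (τ : α → ι) (s : Finset α) (f g : α → ℝ)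
    (hg : ∀ x y, τ x = τ y → g x = g y) :
    ∑ x ∈ s, g x * av τ s f x = ∑ x ∈ s, g x * f x := by
  have h1 : ∀ x ∈ s, g x * av τ s f x =
      ∑ y ∈ s, if τ y = τ x then g y * f y / (cl τ s y).card else 0 := fun x _ => by
    rw [av, ← sum_filter, sum_div, mul_sum]
    refine sum_congr rfl fun y hy => ?_
    have e := (mem_cl.1 hy).2
    rw [hg y x e, cl_congr s e, mul_div_assoc]
  rw [sum_congr rfl h1, sum_comm]
  refine sum_congr rfl fun y hy => ?_
  have h2 : (s.filter fun x => τ y = τ x) = cl τ s y := by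
    ext x; simp only [mem_filter, mem_cl, eq_comm]
  rw [← sum_filter, sum_const, h2, nsmul_eq_mul]
  have := cl_pos τ hy
  field_simp

lemma sum_inv_le {s : Finset α} {m : α → ℝ} (h : ∀ x ∈ s, (s.card : ℝ) ≤ m x) :
    ∑ x ∈ s, 1 / m x ≤ 1 := by
  rcases s.eq_empty_or_nonempty with rfl | hs
  · simp
  have hp : (0 : ℝ) < s.card := by exact_mod_cast card_pos.2 hs
  have := sum_le_card_nsmul s (fun x => 1 / m x) (1 / s.card) fun x hx =>
    one_div_le_one_div_of_le hp (h x hx)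
  rwa [nsmul_eq_mul, mul_one_div_cancel hp.ne'] at this

lemma sum_inv_cl (τ : α → ι) (s : Finset α) (T : Finset ι) (h : ∀ x ∈ s, τ x ∈ T) :
    ∑ x ∈ s, 1 / ((cl τ s x).card : ℝ) ≤ T.card := by
  rw [← sum_fiberwise_of_maps_to h]
  have := sum_le_card_nsmul T (fun t => ∑ x ∈ s with τ x = t, 1 / ((cl τ s x).card : ℝ)) 1
    fun t _ => sum_inv_le fun x hx => by
      have : (s.filter fun y => τ y = t) = cl τ s x := by
        rw [cl, (mem_filter.1 hx).2]
      rw [this]
  simpa using this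

/-- Greedy hitting set. -/
lemma hit {V : Type*} [Fintype V] [Nonempty V] (I : Finset α) (w : α → ℝ) (hw : ∀ i, 0 ≤ w i)
    (W : α → Finset V) {σ : ℝ} (hσ : σ ≤ 1)
    (hW : ∀ i ∈ I, σ * Fintype.card V ≤ (W i).card) : ∀ t : ℕ, ∃ N : Finset V, N.card ≤ t ∧
      ∑ i ∈ I with Disjoint (W i) N, w i ≤ (1 - σ) ^ t * ∑ i ∈ I, w i
  | 0 => ⟨∅, by simp, by simp⟩
  | t + 1 => by
    obtain ⟨N, h1, h2⟩ := hit I w hw W hσ hW t
    set J := I.filter fun i => Disjoint (W i) N with hJ
    have h3 : ∑ _v : V, σ * ∑ i ∈ J, w i ≤ ∑ v : V, ∑ i ∈ J with v ∈ W i, w i := by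
      have e : ∑ v : V, ∑ i ∈ J with v ∈ W i, w i = ∑ i ∈ J, w i * (W i).card := by
        simp only [sum_filter]
        rw [sum_comm]
        refine sum_congr rfl fun i _ => ?_
        have : (univ.filter fun v => v ∈ W i) = W i := by ext v; simp
        rw [← sum_filter, sum_const, nsmul_eq_mul, mul_comm, this]
      rw [e, sum_const, card_univ, nsmul_eq_mul, ← mul_assoc, mul_sum]
      refine sum_le_sum fun i hi => ?_
      have := mul_le_mul_of_nonneg_left (hW i (mem_filter.1 hi).1) (hw i)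
      linarith
    obtain ⟨v, -, hv⟩ := exists_le_of_sum_le univ_nonempty h3
    refine ⟨insert v N, (card_insert_le _ _).trans (by omega), ?_⟩
    have h4 : (I.filter fun i => Disjoint (W i) (insert v N)) = J.filter fun i => ¬v ∈ W i := by
      ext i; simp only [hJ, mem_filter, disjoint_insert_right]; tauto
    have h5 := sum_filter_add_sum_filter_not J (fun i => v ∈ W i) w
    rw [h4, pow_succ]
    nlinarith [mul_le_mul_of_nonneg_left h2 (sub_nonneg.2 hσ)]

lemma bern {σ θ : ℝ} (h0 : 0 ≤ σ) (h1 : σ ≤ 1) (hθ : 0 < θ) {t : ℕ} (h : 1 ≤ θ * (t * σ)) :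
    (1 - σ) ^ t ≤ θ := by
  have a := one_add_mul_le_pow (a := σ) (by linarith) t
  have b : (1 - σ) ^ t * (1 + σ) ^ t ≤ 1 := by
    rw [← mul_pow]; exact pow_le_one₀ (by nlinarith) (by nlinarith)
  have c : 0 ≤ (1 - σ) ^ t := pow_nonneg (by linarith) t
  have d : (1 - σ) ^ t * (t * σ) ≤ 1 := by nlinarith
  by_contra hc
  have e : θ < (1 - σ) ^ t := not_le.1 hc
  have f : 0 < (t : ℝ) * σ := by
    by_contra g
    have : θ * (t * σ) ≤ 0 := mul_nonpos_of_nonneg_of_nonpos hθ.le (not_lt.1 g)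
    linarith
  nlinarith

end Pool.Agent.Lib.MP_a77646_co.Tow
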