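import Pool.Agent.Lib.MP_a77646_co.TowPhase

/-! Iteration of the phase and the final count. -/

set_option autoImplicit false

namespace Pool.Agent.Lib.MP_a77646_co.Tow

open Finset
open scoped Classical

/-- Tower of twos. -/
def tw (j : ℕ) : ℕ := (fun x : ℕ => 2 ^ x)^[j] 1

lemma tw_succ (j : ℕ) : tw (j + 1) = 2 ^ tw j := Function.iterate_succ_apply' _ _ _

lemma tw_ge : ∀ j : ℕ, 2 ^ j ≤ tw j
  | 0 => le_rfl
  | j + 1 => by
    rw [tw_succ]
    exact Nat.pow_le_pow_right two_pos ((Nat.succ_le_of_lt Nat.lt_two_pow_self).trans (tw_ge j))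

lemma tw_mono : Monotone tw :=
  monotone_nat_of_le_succ fun j => by rw [tw_succ]; exact Nat.lt_two_pow_self.le

lemma cube : ∀ k : ℕ, (k + 10) ^ 3 ≤ 2 ^ (k + 10)
  | 0 => by norm_num
  | k + 1 => by
    have := cube k
    rw [show k + 1 + 10 = k + 10 + 1 by ring, pow_succ 2]
    nlinarith [Nat.zero_le k, Nat.zero_le (k ^ 2), Nat.zero_le (k ^ 3)]

variable {V : Type*} [Fintype V] {A : V → V → Prop} {z : V × V → V} {K η : ℝ}

lemma iter [Nonempty V] (H : Hyp A z K) (hη : 0 < η) (hη1 : η ≤ 1) {T : ℝ} (hT : 1 ≤ T)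
    {L k j : ℕ} (h1 : K * T ^ 2 + η ^ 3 ≤ η ^ 3 * 2 ^ L) (h2 : K ^ 2 ≤ η * 2 ^ L) (h3 : 2 ≤ L)
    (h4 : 2 * L ≤ tw k) (h5 : tw j ≤ Fintype.card V) : ∀ i : ℕ, i + k ≤ j →
      ∃ R : Finset V, 2 * (R.card + L) ≤ tw (i + k) ∧
        phi A z ∅ + i * (((ed A).card - 3 * η * (Fintype.card V : ℝ) ^ 2) * Real.log T -
          4 * (ed A).card) ≤ phi A z R + T / η ^ 2 * qq A R
  | 0, _ => ⟨∅, by simpa using h4, by
      have := qq_nonneg (A := A) ∅
      have : 0 ≤ T / η ^ 2 * qq A ∅ := by positivity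
      simpa using this⟩
  | i + 1, h => by
    obtain ⟨R, a, b⟩ := iter H hη hη1 hT h1 h2 h3 h4 h5 i (by omega)
    obtain ⟨M, hM⟩ : ∃ M, 2 ^ L = M + 1 := ⟨2 ^ L - 1, (Nat.sub_add_cancel Nat.one_le_two_pow).symm⟩
    have hM' : (2 : ℝ) ^ L = M + 1 := by exact_mod_cast hM
    have e : i + 1 + k = i + k + 1 := by ring
    have c : 2 ^ (2 * (R.card + L)) ≤ tw (i + 1 + k) := by
      rw [e, tw_succ]; exact Nat.pow_le_pow_right two_pos a
    have p : (0 : ℝ) < 2 ^ R.card := by positivity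
    obtain ⟨R', a', b'⟩ := phase H hη hη1 hT R (t := M * 2 ^ R.card) (by
      push_cast
      rw [hM'] at h1
      nlinarith [mul_le_mul_of_nonneg_right h1 p.le]) (by
      have c1 : M * 2 ^ R.card * 2 ^ L ≤ Fintype.card V := by
        refine le_trans ?_ (c.trans ((tw_mono h).trans h5))
        calc M * 2 ^ R.card * 2 ^ L ≤ 2 ^ L * 2 ^ R.card * 2 ^ L := by gcongr; omega
          _ = 2 ^ (R.card + 2 * L) := by ring
          _ ≤ _ := Nat.pow_le_pow_right two_pos (by omega)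
      have c2 : ((M * 2 ^ R.card : ℕ) : ℝ) * 2 ^ L ≤ Fintype.card V := by exact_mod_cast c1
      nlinarith [mul_le_mul_of_nonneg_left h2 (Nat.cast_nonneg (M * 2 ^ R.card))])
    refine ⟨R', le_trans ?_ c, by push_cast; linarith⟩
    have d1 : R.card ≤ 2 ^ R.card := Nat.lt_two_pow_self.le
    have d2 : R.card + L ≤ 2 ^ (R.card + L) := Nat.lt_two_pow_self.le
    have d3 : 2 ^ (R.card + L) = 2 ^ R.card + M * 2 ^ R.card := by rw [pow_add, hM]; ring
    have d4 : 2 ^ (R.card + L + 2) ≤ 2 ^ (2 * (R.card + L)) :=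
      Nat.pow_le_pow_right two_pos (by omega)
    rw [pow_add _ _ 2] at d4
    omega

lemma core [Nonempty V] (H : Hyp A z K) {γ δ : ℝ} (hγ : 0 < γ) (hγ1 : γ ≤ 1) (hδ : 0 < δ)
    (hδ1 : δ ≤ 1) (hη : η = γ * δ / 3) (hE : γ * (Fintype.card V : ℝ) ^ 2 ≤ (ed A).card)
    {T L k j : ℕ} (hT : 1 ≤ T) (h1 : K * T ^ 2 + η ^ 3 ≤ η ^ 3 * 2 ^ L) (h2 : K ^ 2 ≤ η * 2 ^ L)
    (h3 : 2 ≤ L) (h4 : 2 * L ≤ tw k) (h5 : tw j ≤ Fintype.card V) (h6 : T + k ≤ j) :
    Real.log γ + T * ((1 - δ) * Real.log T - 4) ≤ Real.log K + T * (1 / (γ * η ^ 2)) := by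
  have h0 : 0 < η := by rw [hη]; positivity
  have hT' : (1 : ℝ) ≤ T := by exact_mod_cast hT
  obtain ⟨R, -, a⟩ := iter H h0 (by rw [hη]; nlinarith) hT' h1 h2 h3 h4 h5 T h6
  have hn : (0 : ℝ) < Fintype.card V := by exact_mod_cast Fintype.card_pos
  have he : (0 : ℝ) < (ed A).card := lt_of_lt_of_le (by positivity) hE
  have b1 := le_phi (z := z) hγ hE
  have b2 := phi_le H R
  have b3 : T / η ^ 2 * qq A R ≤ (ed A).card * (T * (1 / (γ * η ^ 2))) := by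
    have e : ((ed A).card : ℝ) * (T * (1 / (γ * η ^ 2))) = T / η ^ 2 * ((ed A).card / γ) := by
      field_simp
    rw [e]
    exact mul_le_mul_of_nonneg_left ((qq_le R).trans ((le_div_iff₀' hγ).2 hE)) (by positivity)
  have b4 : 3 * η * (Fintype.card V : ℝ) ^ 2 ≤ δ * (ed A).card := by
    rw [hη]; nlinarith [mul_le_mul_of_nonneg_left hE hδ.le]
  have b5 := mul_le_mul_of_nonneg_right b4
    (mul_nonneg (zero_le_one.trans hT') (Real.log_nonneg hT'))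
  exact le_of_mul_le_mul_left (by nlinarith) he

theorem main {γ ε : ℝ} (hγ : 0 < γ) (hγ1 : γ ≤ 1) (hε : 0 < ε) (hε1 : ε ≤ 1) :
    ∀ᶠ j : ℕ in Filter.atTop, ∀ (n : ℕ) (A : Fin n → Fin n → Prop) (z : Fin n × Fin n → Fin n),
      tw j ≤ n → γ * (n : ℝ) ^ 2 ≤ (ed A).card → ¬Hyp A z ((j : ℝ) ^ ((1 - ε) * j)) := by
  obtain ⟨η, hη⟩ : ∃ η : ℝ, η = γ * (ε / 4) / 3 := ⟨_, rfl⟩
  have h0 : 0 < η := by rw [hη]; positivity
  obtain ⟨D, hD⟩ := exists_nat_ge (8 / ε)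
  rw [div_le_iff₀ hε] at hD
  have hD0 : 0 < D := Nat.pos_of_ne_zero fun e => by rw [e] at hD; norm_num at hD
  obtain ⟨C, hC⟩ : ∃ C : ℝ, C = 1 / γ + 1 / (γ * η ^ 2) + 5 := ⟨_, rfl⟩
  filter_upwards [Filter.eventually_ge_atTop (D * (6 * D ^ 2 + 10)),
    (tendsto_natCast_atTop_atTop (R := ℝ)).eventually_ge_atTop (1 / η),
    (Real.tendsto_log_atTop.comp tendsto_natCast_atTop_atTop).eventually_gt_atTop (2 * C / ε)]
    with j j1 j2 j3 n A z hn hE H
  have hn0 : 0 < n := lt_of_lt_of_le (by positivity) ((tw_ge j).trans hn)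
  have : Nonempty (Fin n) := ⟨⟨0, hn0⟩⟩
  obtain ⟨k, hk⟩ : ∃ k, k = j / D + 1 := ⟨_, rfl⟩
  have k1 : j ≤ D * k := hk ▸ (Nat.lt_mul_div_succ j hD0).le
  have k2 : D * k ≤ j + D := by rw [hk, mul_add, mul_one]; exact add_le_add_left (Nat.mul_div_le _ _) _
  have k3 : 6 * D ^ 2 + 10 ≤ k := Nat.le_of_mul_le_mul_left (j1.trans k1) hD0
  have k4 : 10 * D ≤ j := by nlinarith
  have hj : (10 : ℝ) ≤ j := by exact_mod_cast (by omega : 10 ≤ j)
  have k5 : (k : ℝ) ≤ ε / 4 * j := by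
    have a1 : (D : ℝ) * k ≤ j + D := by exact_mod_cast k2
    have a2 : 10 * (D : ℝ) ≤ j := by exact_mod_cast k4
    nlinarith [mul_le_mul_of_nonneg_right hD (Nat.cast_nonneg k)]
  have k6 : k + 1 ≤ j := by
    have : (k : ℝ) + 1 ≤ j := by nlinarith
    exact_mod_cast this
  obtain ⟨T, hT⟩ : ∃ T, j = T + k := ⟨j - k, by omega⟩
  have hT' : (j : ℝ) = T + k := by exact_mod_cast hT
  have k7 : 2 * (3 * j ^ 2) ≤ tw k := by
    obtain ⟨m, hm⟩ : ∃ m, k = m + 10 := ⟨k - 10, by omega⟩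
    have a1 : k ^ 3 ≤ 2 ^ k := hm ▸ cube m
    have a2 := Nat.pow_le_pow_left k1 2
    have a3 := Nat.mul_le_mul_right (k ^ 2) k3
    refine le_trans ?_ (a1.trans (tw_ge k))
    nlinarith [Nat.zero_le (k ^ 2)]
  obtain ⟨P, hP⟩ : ∃ P : ℝ, P = 2 ^ j ^ 2 := ⟨_, rfl⟩
  have p0 : (j : ℝ) ≤ 2 ^ j := by exact_mod_cast Nat.lt_two_pow_self.le
  have p1 : ∀ i : ℕ, i ≤ j → (j : ℝ) ^ i ≤ P := fun i hi => by
    refine (pow_le_pow_left₀ (by positivity) p0 i).trans ?_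
    rw [hP, ← pow_mul, sq]
    exact pow_le_pow_right₀ one_le_two (Nat.mul_le_mul_left _ hi)
  have p2 : (j : ℝ) ^ ((1 - ε) * j) ≤ P := by
    refine le_trans ?_ (p1 j le_rfl)
    rw [← Real.rpow_natCast]
    exact Real.rpow_le_rpow_of_exponent_le (by linarith) (by nlinarith)
  have p3 : (2 : ℝ) ^ (3 * j ^ 2) = P ^ 3 := by rw [hP, ← pow_mul, mul_comm]
  have p4 : Real.log ((j : ℝ) ^ ((1 - ε) * j)) = (1 - ε) * j * Real.log j :=
    Real.log_rpow (by linarith) _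
  have p5 : 1 ≤ η * j := by rwa [div_le_iff₀' h0] at j2
  have p6 := p1 1 (by omega)
  rw [pow_one] at p6
  have hK := H.one
  have t0 : (0 : ℝ) ≤ T := by positivity
  have t1 : (T : ℝ) ≤ j := by linarith [(Nat.cast_nonneg k : (0 : ℝ) ≤ k)]
  have t2 : (1 - ε / 4) * j ≤ T := by linarith
  have c := core H hγ hγ1 (δ := ε / 4) (by positivity) (by linarith) hη (by simpa using hE)
    (T := T) (L := 3 * j ^ 2) (k := k) (j := j) (by omega) (by
      have a1 : (T : ℝ) ^ 2 ≤ η ^ 3 * P := by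
        have a2 : (T : ℝ) ^ 2 ≤ j ^ 2 := pow_le_pow_left₀ t0 t1 2
        have a3 : 1 ≤ (η * j) ^ 3 := one_le_pow₀ p5
        have a4 := mul_le_mul_of_nonneg_left (p1 5 (by omega)) (pow_pos h0 3).le
        nlinarith [mul_le_mul_of_nonneg_left a3 (sq_nonneg (j : ℝ))]
      have a5 := mul_le_mul p2 a1 (sq_nonneg _) (by linarith)
      have a6 : P ^ 2 + 1 ≤ P ^ 3 := by nlinarith [mul_nonneg (sq_nonneg P) (by linarith : 0 ≤ P - 2)]
      rw [p3]
      nlinarith [mul_le_mul_of_nonneg_left a6 (pow_pos h0 3).le]) (by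
      have a1 := pow_le_pow_left₀ (by linarith) p2 2
      have a2 : 1 ≤ η * P := by nlinarith
      rw [p3]
      nlinarith [mul_le_mul_of_nonneg_left a2 (sq_nonneg P)]) (by nlinarith) k7
    (by simpa using hn) hT.ge
  rw [p4] at c
  simp only [Function.comp] at j3
  rw [div_lt_iff₀ hε] at j3
  have l1 : Real.log j - 1 ≤ Real.log T := by
    have := log_ge (s := T) (T := j) (by nlinarith) (by linarith)
    have a : (j : ℝ) / T ≤ 2 := (div_le_iff₀ (by nlinarith)).2 (by nlinarith)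
    linarith
  have l2 : -(1 / γ) ≤ Real.log γ := by
    have := log_ge hγ zero_lt_one
    rw [Real.log_one] at this
    linarith
  have l3 : 0 < 1 / γ := by positivity
  have l4 : 0 < 1 / (γ * η ^ 2) := by positivity
  generalize 1 / γ = u at *
  generalize 1 / (γ * η ^ 2) = v at *
  generalize Real.log j = l at *
  have l5 : 10 ≤ l := by nlinarith
  have l6 : (1 - ε / 4) * j * ((1 - ε / 4) * (l - 1)) ≤ T * ((1 - ε / 4) * Real.log T) :=
    mul_le_mul t2 (mul_le_mul_of_nonneg_left l1 (by linarith))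
      (mul_nonneg (by linarith) (by linarith)) t0
  have l7 : (1 - ε / 2) * (l - 1) ≤ (1 - ε / 4) * ((1 - ε / 4) * (l - 1)) := by
    nlinarith [mul_nonneg (sq_nonneg ε) (by linarith : 0 ≤ l - 1)]
  have l8 := mul_le_mul_of_nonneg_left l7 (by linarith : (0 : ℝ) ≤ j)
  have l9 := mul_le_mul_of_nonneg_right t1 (by linarith : 0 ≤ v + 4)
  have l10 : (j : ℝ) * (u + v + 5) < j * (l * ε / 2) :=
    mul_lt_mul_of_pos_left (by linarith) (by linarith)
  nlinarith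

end Pool.Agent.Lib.MP_a77646_co.Tow
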