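import Pool.Agent.Lib.MP_a77646_co.TowPot

/-! One refinement phase. -/

set_option autoImplicit false

namespace Pool.Agent.Lib.MP_a77646_co.Tow

open Finset
open scoped Classical

variable {V : Type*} [Fintype V] (A : V → V → Prop) (z : V × V → V)

/-- The class is large and dense on average. -/
def nice (R : Finset V) (β η : ℝ) (b : V × V) : Prop :=
  β ≤ mm A z R b ∧ η * mm A z R b ≤ ∑ a ∈ cl (ka A z R) (ed A) b, dd A R a.1 a.2

/-- Second ends of the class of `b` adjacent to `x`. -/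
noncomputable def ww (R : Finset V) (b : V × V) (x : V) : Finset V :=
  ((cl (ka A z R) (ed A) b).image Prod.snd).filter (A x)

/-- Number of edges of the class of `b` with second end adjacent to `x`. -/
noncomputable def de (R : Finset V) (b : V × V) (x : V) : ℝ :=
  ∑ a ∈ cl (ka A z R) (ed A) b, if A x a.2 then 1 else 0

/-- Points of the cell that see no new pivot among the second ends of the class. -/
noncomputable def good (R N : Finset V) (b : V × V) : Finset V :=
  univ.filter fun x => ty A R x = ty A R b.1 ∧ Disjoint (ww A z R b x) N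

/-- Variation of the density inside the cell. -/
noncomputable def var (R R' : Finset V) (a : V × V) : ℝ :=
  ∑ x ∈ cl (ty A R) univ a.1, (dd A R' x a.2 - dd A R x a.2) ^ 2

variable {A z} {K : ℝ} {R R' N : Finset V} {β η θ : ℝ}

lemma nice_congr {a b : V × V} (e : ka A z R a = ka A z R b) :
    nice A z R β η a ↔ nice A z R β η b := by
  simp only [nice, mm_congr e, cl_congr _ e]

lemma good_congr {a b : V × V} (e : ka A z R a = ka A z R b) :
    good A z R N a = good A z R N b := by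
  simp only [good, ww, cl_congr _ e, (ka_iff.1 e).1]

lemma good_closed (h : R ⊆ R') (h' : N ⊆ R') {b : V × V} {x x' : V}
    (e : ty A R' x' = ty A R' x) (hx : x ∈ good A z R N b) : x' ∈ good A z R N b := by
  obtain ⟨-, h1, h2⟩ := mem_filter.1 hx
  refine mem_filter.2 ⟨mem_univ _, (ty_mono h e).trans h1, disjoint_left.2 fun r a c => ?_⟩
  obtain ⟨a1, a2⟩ := mem_filter.1 a
  exact disjoint_left.1 h2 (mem_filter.2 ⟨a1, ty_adj e (h' c) a2⟩) c

lemma not_nice (hβ : 0 ≤ β) (hη : 0 < η) :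
    ∑ a ∈ ed A, (if nice A z R β η a then (0 : ℝ) else 1) ≤
      β * (2 ^ R.card * Fintype.card V) + η * (Fintype.card V : ℝ) ^ 2 := by
  obtain ⟨g, hg⟩ : ∃ g : V × V → ℝ, g = fun b =>
    if η * mm A z R b ≤ ∑ a ∈ cl (ka A z R) (ed A) b, dd A R a.1 a.2 then 0 else 1 := ⟨_, rfl⟩
  have h1 : ∀ a ∈ ed A, (if nice A z R β η a then (0 : ℝ) else 1) ≤
      β * (1 / mm A z R a) + g a := fun a ha => by
    have hm := mm_pos (z := z) R ha
    have h0 : 0 ≤ β * (1 / mm A z R a) := by positivity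
    simp only [hg]
    split_ifs with p q q <;> try linarith
    have : mm A z R a < β := not_le.1 fun r => p ⟨r, q⟩
    rw [mul_one_div, add_zero, le_div_iff₀ hm]
    linarith
  have h2 := av_sum (ka A z R) (ed A) (fun a => dd A R a.1 a.2) g fun a b e => by
    simp only [hg, mm_congr e, cl_congr _ e]
  have h3 : ∑ a ∈ ed A, g a * av (ka A z R) (ed A) (fun a => dd A R a.1 a.2) a ≤
      ∑ a ∈ ed A, η * g a := sum_le_sum fun a ha => by
    simp only [hg]
    split_ifs with q
    · simp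
    · rw [one_mul, mul_one]
      exact (div_le_iff₀ (mm_pos R ha)).2 (not_le.1 q).le
  have h4 : ∑ a ∈ ed A, 2 * η * g a ≤
      ∑ a ∈ ed A, (η ^ 2 * (1 / dd A R a.1 a.2) + g a * dd A R a.1 a.2) :=
    sum_le_sum fun a ha => by
      have hd := dd_pos R (mem_ed.1 ha)
      simp only [hg]
      split_ifs with q
      · simp only [mul_zero, zero_mul, add_zero]; positivity
      · have : 2 * η - dd A R a.1 a.2 ≤ η ^ 2 / dd A R a.1 a.2 :=
          (le_div_iff₀ hd).2 (by nlinarith [sq_nonneg (η - dd A R a.1 a.2)])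
        rw [mul_one_div]; linarith
  have h5 := mul_le_mul_of_nonneg_left (sum_inv_dd (A := A) R) (sq_nonneg η)
  have h6 := mul_le_mul_of_nonneg_left (sum_inv_mm (A := A) (z := z) R) hβ
  rw [sum_add_distrib, ← mul_sum, ← mul_sum, ← h2] at h4
  rw [← mul_sum] at h3
  have h7 : ∑ a ∈ ed A, g a ≤ η * (Fintype.card V : ℝ) ^ 2 :=
    le_of_mul_le_mul_left (by nlinarith) hη
  have h8 := sum_le_sum h1
  rw [sum_add_distrib, ← mul_sum] at h8
  linarith

lemma size (hη : 0 ≤ η) (h : R ⊆ R') (h' : N ⊆ R') {b : V × V} (hb : nice A z R β η b) :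
    η ^ 2 * ((good A z R N b).card * mm A z R b) ≤ 2 * η * ∑ x ∈ good A z R N b, de A z R b x +
      ∑ a ∈ cl (ka A z R) (ed A) b, var A R R' a := by
  have h1 : ∀ a ∈ cl (ka A z R) (ed A) b, 2 * η * ((good A z R N b).card * dd A R a.1 a.2) ≤
      2 * η * (∑ x ∈ good A z R N b, if A x a.2 then (1 : ℝ) else 0) +
        η ^ 2 * (good A z R N b).card + var A R R' a := fun a ha => by
    have e0 : ∀ x ∈ good A z R N b, ty A R x = ty A R a.1 := fun x hx =>
      (mem_filter.1 hx).2.1.trans (ka_iff.1 (mem_cl.1 ha).2).1.symm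
    have e1 := av_sum (ty A R') univ (fun u => if A u a.2 then 1 else 0)
      (fun x => if x ∈ good A z R N b then 1 else 0) fun x y e => by
        simp only [show x ∈ good A z R N b ↔ y ∈ good A z R N b from
          ⟨good_closed h h' e.symm, good_closed h h' e⟩]
    simp only [ite_mul, one_mul, zero_mul, sum_ite_mem, univ_inter] at e1
    have e2 : ∑ x ∈ good A z R N b, (dd A R' x a.2 - dd A R x a.2) ^ 2 ≤ var A R R' a :=
      sum_le_sum_of_subset_of_nonneg (fun x hx => mem_cl.2 ⟨mem_univ _, e0 x hx⟩)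
        fun _ _ _ => sq_nonneg _
    have e3 : ∑ _x ∈ good A z R N b, 2 * η * dd A R a.1 a.2 ≤ ∑ x ∈ good A z R N b,
        (2 * η * dd A R' x a.2 + η ^ 2 + (dd A R' x a.2 - dd A R x a.2) ^ 2) :=
      sum_le_sum fun x hx => by
        rw [show dd A R x a.2 = dd A R a.1 a.2 from av_congr _ _ (e0 x hx)]
        nlinarith [sq_nonneg (dd A R' x a.2 - dd A R a.1 a.2 + η)]
    rw [sum_const, sum_add_distrib, sum_add_distrib, ← mul_sum, sum_const, nsmul_eq_mul,
      nsmul_eq_mul] at e3
    rw [← e1]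
    change _ ≤ 2 * η * ∑ x ∈ good A z R N b, dd A R' x a.2 + _ + _
    nlinarith
  have h2 := sum_le_sum h1
  rw [sum_add_distrib, sum_add_distrib, ← mul_sum, ← mul_sum, ← mul_sum, sum_comm, sum_const,
    nsmul_eq_mul] at h2
  have h3 := mul_le_mul_of_nonneg_left hb.2
    (by positivity : 0 ≤ 2 * η * ((good A z R N b).card : ℝ))
  change _ ≤ 2 * η * ∑ x ∈ good A z R N b, de A z R b x + mm A z R b * _ + _ at h2
  nlinarith

lemma de_le (R : Finset V) (b : V × V) (x : V) : de A z R b x ≤ mm A z R b := by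
  simpa [de, mm] using sum_le_card_nsmul (cl (ka A z R) (ed A) b)
    (fun a => if A x a.2 then (1 : ℝ) else 0) 1 fun _ _ => by split_ifs <;> norm_num

lemma de_ww (H : Hyp A z K) (R : Finset V) (b : V × V) (x : V) :
    de A z R b x ≤ K * (ww A z R b x).card := by
  rw [de, sum_boole]
  refine cnt H Prod.snd Prod.fst (fun _ _ e f => Prod.ext f e) _ (z b) _ fun a ha => ?_
  obtain ⟨h1, h2⟩ := mem_filter.1 ha
  obtain ⟨h3, h4⟩ := mem_cl.1 h1
  have := H.apex a (mem_ed.1 h3)
  rw [(ka_iff.1 h4).2] at this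
  exact ⟨H.sym _ _ (mem_ed.1 h3), this.2, this.1, mem_filter.2 ⟨mem_image_of_mem _ h1, h2⟩⟩

lemma sum_var (h : R ⊆ R') :
    ∑ b ∈ ed A, 1 / cc A R b.1 * av (ka A z R) (ed A) (var A R R') b ≤ qq A R' - qq A R := by
  rw [av_sum _ _ _ _ fun a b e => by simp only [cc_congr (ka_iff.1 e).1], sum_ed, ← pyth h]
  refine sum_le_sum fun y _ => ?_
  have := av_sum (ty A R) univ (fun x => (dd A R' x y - dd A R x y) ^ 2) (fun _ => 1)
    fun _ _ _ => rfl
  simp only [one_mul] at this
  rw [← this]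
  refine sum_le_sum fun x _ => ?_
  have e : 1 / cc A R x * var A R R' (x, y) =
    av (ty A R) univ (fun x => (dd A R' x y - dd A R x y) ^ 2) x := one_div_mul_eq_div _ _
  have p := av_nonneg (ty A R) univ (fun x => sq_nonneg (dd A R' x y - dd A R x y)) x
  rw [e]
  split_ifs <;> simp [p]

lemma pivots [Nonempty V] (H : Hyp A z K) (hθ : 0 < θ) {σ : ℝ} (h0 : 0 ≤ σ) (h1 : σ ≤ 1)
    (hβ : K * (σ * Fintype.card V) ≤ θ * β) {t : ℕ} (ht : 1 ≤ θ * (t * σ)) :
    ∃ N : Finset V, N.card ≤ t ∧ ∑ b ∈ ed A, ∑ x, (if (nice A z R β η b ∧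
      ty A R x = ty A R b.1 ∧ θ * mm A z R b ≤ de A z R b x) ∧ Disjoint (ww A z R b x) N
        then 1 / cc A R b.1 else 0) ≤ θ * (ed A).card := by
  have hK := zero_lt_one.trans_le H.one
  obtain ⟨N, a, b⟩ := hit ((ed A ×ˢ univ).filter fun p : (V × V) × V => nice A z R β η p.1 ∧
      ty A R p.2 = ty A R p.1.1 ∧ θ * mm A z R p.1 ≤ de A z R p.1 p.2)
    (fun p => 1 / cc A R p.1.1) (fun p => (one_div_pos.2 (cc_pos _ _)).le)
    (fun p => ww A z R p.1 p.2) h1 (fun p hp => by
      obtain ⟨-, c, -, d⟩ := mem_filter.1 hp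
      have := mul_le_mul_of_nonneg_left c.1 hθ.le
      exact le_of_mul_le_mul_left (by linarith [de_ww H R p.1 p.2]) hK) t
  refine ⟨N, a, ?_⟩
  rw [filter_filter, sum_filter, sum_filter, sum_product, sum_product] at b
  refine b.trans (mul_le_mul (bern h0 h1 hθ ht) ?_ (sum_nonneg fun p _ => sum_nonneg fun x _ => ?_)
    hθ.le)
  · refine (sum_le_card_nsmul _ _ 1 fun p _ => ?_).trans (by simp)
    have hc := cc_pos (A := A) R p.1
    have : ∑ x ∈ cl (ty A R) univ p.1, 1 / cc A R p.1 = 1 := by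
      rw [sum_const, nsmul_eq_mul]; exact mul_one_div_cancel hc.ne'
    refine le_of_le_of_eq ?_ this
    rw [cl, sum_filter]
    refine sum_le_sum fun x _ => ?_
    split_ifs with u v v
    · exact le_rfl
    · exact absurd u.2.1 v
    · positivity
    · exact le_rfl
  · have hc := cc_pos (A := A) R p.1
    positivity

lemma each (hη : 0 ≤ η) (hθ : 0 ≤ θ) (h : R ⊆ R') (h' : N ⊆ R') {b : V × V} (hb : b ∈ ed A) :
    η ^ 2 * ((if nice A z R β η b then good A z R N b else ∅).card / cc A R b.1) ≤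
      2 * η * (θ + ∑ x, (if (nice A z R β η b ∧
        ty A R x = ty A R b.1 ∧ θ * mm A z R b ≤ de A z R b x) ∧ Disjoint (ww A z R b x) N
          then 1 / cc A R b.1 else 0)) +
        1 / cc A R b.1 * av (ka A z R) (ed A) (var A R R') b := by
  have hc := cc_pos (A := A) R b.1
  have hm := mm_pos (z := z) R hb
  have hv := av_nonneg (ka A z R) (ed A) (f := var A R R')
    (fun _ => sum_nonneg fun _ _ => sq_nonneg _) b
  by_cases hn : nice A z R β η b
  swap
  · simp only [hn, if_false, card_empty, Nat.cast_zero, zero_div, mul_zero]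
    positivity
  have h1 := size (z := z) hη h h' hn
  obtain ⟨u, hu⟩ : ∃ u : ℝ, u = ∑ x, (if (nice A z R β η b ∧
      ty A R x = ty A R b.1 ∧ θ * mm A z R b ≤ de A z R b x) ∧ Disjoint (ww A z R b x) N
        then 1 / cc A R b.1 else 0) := ⟨_, rfl⟩
  have h2 : ∑ x ∈ good A z R N b, de A z R b x ≤
      cc A R b.1 * (θ * mm A z R b) + mm A z R b * cc A R b.1 * u := by
    rw [hu, mul_sum, cc, ← nsmul_eq_mul, ← sum_const, cl, good, sum_filter, sum_filter,
      ← sum_add_distrib]
    refine sum_le_sum fun x _ => ?_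
    have p1 : 0 ≤ θ * mm A z R b := by positivity
    have p2 := de_le (A := A) (z := z) R b x
    have p3 : mm A z R b * cc A R b.1 * (1 / cc A R b.1) = mm A z R b := by field_simp
    change _ ≤ _ + mm A z R b * cc A R b.1 * ite _ (1 / cc A R b.1) 0
    by_cases a1 : ty A R x = ty A R b.1 ∧ Disjoint (ww A z R b x) N
    · by_cases a2 : θ * mm A z R b ≤ de A z R b x
      · rw [if_pos a1, if_pos a1.1, if_pos ⟨⟨hn, a1.1, a2⟩, a1.2⟩]; linarith
      · rw [if_pos a1, if_pos a1.1, if_neg fun c => a2 c.1.2.2]; linarith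
    · rw [if_neg a1]; positivity
  have h3 : av (ka A z R) (ed A) (var A R R') b * mm A z R b =
      ∑ a ∈ cl (ka A z R) (ed A) b, var A R R' a := div_mul_cancel₀ _ hm.ne'
  rw [← hu, if_pos hn, ← mul_div_assoc, div_le_iff₀ hc]
  refine le_of_mul_le_mul_right ?_ hm
  have h4 : 1 / cc A R b.1 * av (ka A z R) (ed A) (var A R R') b * cc A R b.1 =
    av (ka A z R) (ed A) (var A R R') b := by field_simp
  have h5 := mul_le_mul_of_nonneg_left h2 (by positivity : 0 ≤ 2 * η)
  rw [add_mul, h4, add_mul, h3]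
  nlinarith

theorem phase [Nonempty V] (H : Hyp A z K) (hη : 0 < η) (hη1 : η ≤ 1) {T : ℝ} (hT : 1 ≤ T)
    (R : Finset V) {t : ℕ} (ht : K * T ^ 2 * 2 ^ R.card ≤ η ^ 3 * t)
    (hn : t * K ^ 2 ≤ η * Fintype.card V) : ∃ R' : Finset V, R'.card ≤ R.card + t ∧
      phi A z R + T / η ^ 2 * qq A R + (((ed A).card - 3 * η * (Fintype.card V : ℝ) ^ 2) *
        Real.log T - 4 * (ed A).card) ≤ phi A z R' + T / η ^ 2 * qq A R' := by
  have hK := H.one
  have h2 : (1 : ℝ) ≤ 2 ^ R.card := one_le_pow₀ one_le_two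
  have hθ : 0 < η / T := by positivity
  have hθ1 : η / T ≤ 1 := (div_le_one (by positivity)).2 (hη1.trans hT)
  obtain ⟨β, hβ⟩ : ∃ β : ℝ, β = η * Fintype.card V / 2 ^ R.card := ⟨_, rfl⟩
  obtain ⟨N, hN, hp⟩ := pivots (R := R) (β := β) (η := η) H hθ
    (σ := η / T * η / (K * 2 ^ R.card)) (t := t) (by positivity)
    ((div_le_one (by positivity)).2 (by nlinarith)) (le_of_eq (by rw [hβ]; field_simp)) (by
      have e : η / T * (t * (η / T * η / (K * 2 ^ R.card))) =
        η ^ 3 * t / (K * T ^ 2 * 2 ^ R.card) := by field_simp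
      rw [e, le_div_iff₀ (by positivity), one_mul]; exact ht)
  have s1 : R ⊆ R ∪ N := subset_union_left
  have s2 : N ⊆ R ∪ N := subset_union_right
  refine ⟨R ∪ N, (card_union_le _ _).trans (by omega), ?_⟩
  generalize R ∪ N = R' at s1 s2
  obtain ⟨G, hG⟩ : ∃ G : V × V → Finset V,
    G = fun b => if nice A z R β η b then good A z R N b else ∅ := ⟨_, rfl⟩
  have a1 := ratio (A := A) (R := R) (R' := R') (z := z) G (fun a b e => by
    simp only [hG, nice_congr (β := β) (η := η) e, good_congr (N := N) e]) fun a x x' e hx => by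
      simp only [hG] at hx ⊢
      split_ifs at hx ⊢
      exacts [good_closed s1 s2 e hx, absurd hx (notMem_empty _)]
  have a2 := ratio (A := A) (R := R) (R' := R') (z := z) (fun a => cl (ty A R) univ a.1)
    (fun a b e => cl_congr _ (ka_iff.1 e).1) fun a x x' e hx =>
      mem_cl.2 ⟨mem_univ _, (ty_mono s1 e).trans (mem_cl.1 hx).2⟩
  have a3 : ∑ b ∈ ed A, ((cl (ty A R) univ b.1).card : ℝ) / cc A R b.1 = (ed A).card := by
    exact (sum_congr rfl fun b _ => div_self (cc_pos (A := A) R b.1).ne').trans (by simp)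
  have a4 := sum_le_sum fun b hb => each (A := A) (z := z) (β := β) hη.le hθ.le s1 s2 (b := b) hb
  rw [← mul_sum, sum_add_distrib, ← mul_sum, sum_add_distrib, sum_const, nsmul_eq_mul] at a4
  have a5 := sum_var (A := A) (z := z) s1
  have a6 : T * ∑ b ∈ ed A, ((G b).card : ℝ) / cc A R b.1 ≤
      4 * (ed A).card + T / η ^ 2 * (qq A R' - qq A R) := by
    refine le_of_mul_le_mul_left ?_ (by positivity : 0 < η ^ 2 / T)
    have e1 : ∀ s : ℝ, η ^ 2 / T * (T * s) = η ^ 2 * s := fun s => by field_simp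
    have e2 : ∀ s u : ℝ, η ^ 2 / T * (4 * s + T / η ^ 2 * u) =
      2 * η * (s * (η / T) + η / T * s) + u := fun s u => by field_simp; ring
    rw [e1, e2, hG]
    nlinarith [mul_le_mul_of_nonneg_left hp hη.le]
  have hL := Real.log_nonneg hT
  have b1 : ∀ a ∈ ed A, Real.log (mm A z R a / cc A R a.1) + ((1 - (if nice A z R β η a then 0
      else 1) - if ∃ r ∈ N, A a.1 r ∧ A r (z a) then 1 else 0) * Real.log T + 1 -
      mm A z R a / cc A R a.1 *
        (if a.1 ∈ cl (ty A R) univ a.1 then cc A R' a.1 / mm A z R' a else 0) -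
      T * (mm A z R a / cc A R a.1 * if a.1 ∈ G a then cc A R' a.1 / mm A z R' a else 0)) ≤
      Real.log (mm A z R' a / cc A R' a.1) := fun a ha => by
    have p := div_pos (mm_pos (z := z) R ha) (cc_pos (A := A) R a.1)
    have p' := div_pos (mm_pos (z := z) R' ha) (cc_pos (A := A) R' a.1)
    rw [if_pos (mem_cl.2 ⟨mem_univ _, rfl⟩), ← inv_div (mm A z R' a)]
    have c1 := log_ge (div_pos p' p) (zero_lt_one.trans_le hT)
    have c2 := log_ge (div_pos p' p) zero_lt_one
    have hx : nice A z R β η a → (¬∃ r ∈ N, A a.1 r ∧ A r (z a)) → a.1 ∈ G a := fun u v => by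
      simp only [hG, if_pos u]
      refine mem_filter.2 ⟨mem_univ _, rfl, disjoint_left.2 fun r w w' => v ⟨r, w', ?_⟩⟩
      obtain ⟨w1, w2⟩ := mem_filter.1 w
      obtain ⟨c, hc, rfl⟩ := mem_image.1 w1
      exact ⟨w2, (ka_iff.1 (mem_cl.1 hc).2).2 ▸ (H.apex c (mem_ed.1 (mem_cl.1 hc).1)).2⟩
    generalize mm A z R a / cc A R a.1 = s at *
    generalize mm A z R' a / cc A R' a.1 = s' at *
    rw [Real.log_div p'.ne' p.ne', div_div_eq_mul_div, div_eq_mul_inv, mul_assoc] at c1 c2
    have c3 : 0 ≤ s * s'⁻¹ := by positivity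
    rw [Real.log_one] at c2
    split_ifs with u v w w v w w
    all_goals first | exact absurd (hx u v) w | nlinarith
  have b2 := sum_le_sum b1
  have b3 := not_nice (A := A) (z := z) (R := R) (β := β) (by rw [hβ]; positivity) hη
  have b4 := bad_le H N
  have b5 : β * (2 ^ R.card * Fintype.card V) = η * (Fintype.card V : ℝ) ^ 2 := by
    rw [hβ]; field_simp
  have b6 : (N.card : ℝ) * (Fintype.card V * K ^ 2) ≤ η * (Fintype.card V : ℝ) ^ 2 := by
    have : (N.card : ℝ) ≤ t := by exact_mod_cast hN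
    have := mul_le_mul_of_nonneg_right this (sq_nonneg K)
    have h0 : (0 : ℝ) ≤ Fintype.card V := by positivity
    nlinarith
  simp only [sum_add_distrib, sum_sub_distrib, ← mul_sum, ← sum_mul, sum_const, nsmul_eq_mul,
    mul_one] at b2
  rw [sum_boole] at b2
  have b7 := mul_le_mul_of_nonneg_right (add_le_add b3 b4) hL
  have b8 := mul_le_mul_of_nonneg_left a1 (zero_le_one.trans hT)
  have b9 := mul_le_mul_of_nonneg_right b6 hL
  unfold phi
  rw [b5] at b7
  nlinarith

end Pool.Agent.Lib.MP_a77646_co.Tow
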