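import Pool.Agent.Lib.MP_a77646_co.TowAv

/-! Cells given by adjacency to a pivot set, and the two potentials. -/

set_option autoImplicit false

namespace Pool.Agent.Lib.MP_a77646_co.Tow

open Finset
open scoped Classical

variable {V : Type*} [Fintype V] (A : V → V → Prop) (z : V × V → V)

/-- Ordered edges. -/
noncomputable def ed : Finset (V × V) := univ.filter fun a => A a.1 a.2

/-- Adjacency type on the pivot set `R`. -/
noncomputable def ty (R : Finset V) (x : V) : Finset V := R.filter (A x)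

/-- Size of the cell of `x`. -/
noncomputable def cc (R : Finset V) (x : V) : ℝ := (cl (ty A R) univ x).card

/-- Density of the neighbourhood of `y` in the cell of `x`. -/
noncomputable def dd (R : Finset V) (x y : V) : ℝ :=
  av (ty A R) univ (fun u => if A u y then 1 else 0) x

/-- Energy. -/
noncomputable def qq (R : Finset V) : ℝ := ∑ y, ∑ x, dd A R x y ^ 2

/-- Class label of an edge: cell of the first end and apex. -/
noncomputable def ka (R : Finset V) (a : V × V) : Finset V × V := (ty A R a.1, z a)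

/-- Size of the class of an edge. -/
noncomputable def mm (R : Finset V) (a : V × V) : ℝ := (cl (ka A z R) (ed A) a).card

/-- Concentration potential. -/
noncomputable def phi (R : Finset V) : ℝ := ∑ a ∈ ed A, Real.log (mm A z R a / cc A R a.1)

/-- Symmetric relation, apex of a triangle on each edge, at most `K` triangles on each edge. -/
structure Hyp (K : ℝ) : Prop where
  sym : ∀ x y, A x y → A y x
  apex : ∀ a : V × V, A a.1 a.2 → A a.1 (z a) ∧ A a.2 (z a)
  cod : ∀ x y, A x y → ((univ.filter fun w => A x w ∧ A y w).card : ℝ) ≤ K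
  one : 1 ≤ K

variable {A z} {K : ℝ} {R R' : Finset V}

lemma mem_ed {a : V × V} : a ∈ ed A ↔ A a.1 a.2 := by simp [ed]

omit [Fintype V] in
lemma ty_adj {x x' r : V} (e : ty A R x = ty A R x') (hr : r ∈ R) (h : A x r) : A x' r := by
  have : r ∈ ty A R x := mem_filter.2 ⟨hr, h⟩
  rw [e] at this
  exact (mem_filter.1 this).2

omit [Fintype V] in
lemma ty_mono (h : R ⊆ R') {x x' : V} (e : ty A R' x = ty A R' x') : ty A R x = ty A R x' := by
  ext r
  simp only [ty, mem_filter]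
  exact ⟨fun a => ⟨a.1, ty_adj e (h a.1) a.2⟩, fun a => ⟨a.1, ty_adj e.symm (h a.1) a.2⟩⟩

omit [Fintype V] in
lemma ka_iff {a b : V × V} : ka A z R a = ka A z R b ↔ ty A R a.1 = ty A R b.1 ∧ z a = z b :=
  Prod.mk.injEq .. ▸ Iff.rfl

lemma cc_pos (R : Finset V) (x : V) : 0 < cc A R x := cl_pos _ (mem_univ x)

lemma mm_pos (R : Finset V) {a : V × V} (h : a ∈ ed A) : 0 < mm A z R a := cl_pos _ h

lemma cc_congr {x y : V} (h : ty A R x = ty A R y) : cc A R x = cc A R y := by
  simp only [cc, cl_congr univ h]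

lemma mm_congr {a b : V × V} (h : ka A z R a = ka A z R b) : mm A z R a = mm A z R b := by
  simp only [mm, cl_congr _ h]

lemma dd_nonneg (R : Finset V) (x y : V) : 0 ≤ dd A R x y :=
  av_nonneg _ _ (fun _ => by positivity) _

lemma dd_le (R : Finset V) (x y : V) : dd A R x y ≤ 1 :=
  av_le_one _ _ (fun _ => by split_ifs <;> norm_num) _

lemma dd_pos (R : Finset V) {x y : V} (h : A x y) : 0 < dd A R x y := by
  refine div_pos (lt_of_lt_of_le ?_ (single_le_sum (f := fun u => if A u y then (1 : ℝ) else 0)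
    (fun _ _ => by positivity) (mem_cl.2 ⟨mem_univ x, rfl⟩))) (cc_pos R x)
  simp [h]

lemma qq_nonneg (R : Finset V) : 0 ≤ qq A R := by unfold qq; positivity

lemma sum_sq_le {f : V → V → ℝ} (h : ∀ x y, f x y ≤ 1) :
    ∑ y, ∑ x, f x y ≤ (Fintype.card V : ℝ) ^ 2 := by
  refine (sum_le_sum fun y _ => sum_le_sum fun x _ => h x y).trans_eq ?_
  simp [sq]

lemma qq_le (R : Finset V) : qq A R ≤ (Fintype.card V : ℝ) ^ 2 :=
  sum_sq_le fun x y => pow_le_one₀ (dd_nonneg R x y) (dd_le R x y)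

lemma sum_ed (f : V × V → ℝ) :
    ∑ a ∈ ed A, f a = ∑ y, ∑ x, f (x, y) * if A x y then 1 else 0 := by
  rw [ed, sum_filter, Fintype.sum_prod_type_right]
  simp only [mul_ite, mul_one, mul_zero]

lemma pyth (h : R ⊆ R') :
    ∑ y, ∑ x, (dd A R' x y - dd A R x y) ^ 2 = qq A R' - qq A R := by
  rw [qq, qq, ← sum_sub_distrib]
  refine sum_congr rfl fun y _ => ?_
  have e1 := av_sum (ty A R') univ (fun u => if A u y then 1 else 0) (fun x => dd A R x y)
    fun _ _ e => av_congr _ _ (ty_mono h e)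
  have e2 := av_sum (ty A R) univ (fun u => if A u y then 1 else 0) (fun x => dd A R x y)
    fun _ _ e => av_congr _ _ e
  have e3 : ∑ x, dd A R x y * dd A R' x y = ∑ x, dd A R x y * dd A R x y := e1.trans e2.symm
  have e4 : ∀ x, (dd A R' x y - dd A R x y) ^ 2 = dd A R' x y ^ 2 - dd A R x y ^ 2 -
      2 * (dd A R x y * dd A R' x y) + 2 * (dd A R x y * dd A R x y) := fun x => by ring
  simp only [e4, sum_add_distrib, sum_sub_distrib, ← mul_sum, e3]
  ring

lemma sum_inv_dd (R : Finset V) :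
    ∑ a ∈ ed A, 1 / dd A R a.1 a.2 ≤ (Fintype.card V : ℝ) ^ 2 := by
  rw [sum_ed]
  refine le_trans (le_of_eq (sum_congr rfl fun y _ => ?_))
    (sum_sq_le (f := fun x y => 1 / dd A R x y * dd A R x y) fun x y => ?_)
  · exact (av_sum (ty A R) univ (fun u => if A u y then 1 else 0) (fun x => 1 / dd A R x y)
      fun _ _ e => by simp only [dd, av_congr _ _ e]).symm
  · rw [one_div_mul_eq_div]; exact div_self_le_one _

lemma sum_inv_mm (R : Finset V) :
    ∑ a ∈ ed A, 1 / mm A z R a ≤ 2 ^ R.card * Fintype.card V := by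
  have := sum_inv_cl (ka A z R) (ed A) (R.powerset ×ˢ univ) fun a _ =>
    mem_product.2 ⟨mem_powerset.2 (filter_subset _ _), mem_univ _⟩
  simpa [mm] using this

lemma cnt (H : Hyp A z K) (p p' : V × V → V) (inj : ∀ a b, p a = p b → p' a = p' b → a = b)
    (S : Finset (V × V)) (w : V) (X : Finset V)
    (hS : ∀ a ∈ S, A (p a) (p' a) ∧ A (p a) w ∧ A (p' a) w ∧ p a ∈ X) :
    (S.card : ℝ) ≤ K * X.card := by
  rw [card_eq_sum_card_fiberwise (f := p) (t := X) fun a ha => (hS a ha).2.2.2, Nat.cast_sum,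
    mul_comm, ← nsmul_eq_mul]
  refine sum_le_card_nsmul _ _ _ fun x _ => ?_
  rcases (S.filter fun a => p a = x).eq_empty_or_nonempty with e | ⟨a, ha⟩
  · rw [e]; simpa using zero_le_one.trans H.one
  obtain ⟨h1, rfl⟩ := mem_filter.1 ha
  refine le_trans (Nat.cast_le.2 (card_le_card_of_injOn p' (fun b hb => ?_) fun b hb c hc e => ?_))
    (H.cod _ _ (hS a h1).2.1)
  · obtain ⟨h2, e⟩ := mem_filter.1 hb
    exact mem_filter.2 ⟨mem_univ _, e ▸ (hS b h2).1, H.sym _ _ (hS b h2).2.2.1⟩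
  · exact inj b c ((mem_filter.1 hb).2.trans (mem_filter.1 hc).2.symm) e

lemma phi_le (H : Hyp A z K) (R : Finset V) : phi A z R ≤ (ed A).card * Real.log K := by
  rw [← nsmul_eq_mul]
  refine sum_le_card_nsmul _ _ _ fun a ha => Real.log_le_log
    (div_pos (mm_pos R ha) (cc_pos R _)) ((div_le_iff₀ (cc_pos R _)).2 ?_)
  refine cnt H Prod.fst Prod.snd (fun _ _ => Prod.ext) _ (z a) _ fun b hb => ?_
  obtain ⟨h1, h2⟩ := mem_cl.1 hb
  obtain ⟨h3, h4⟩ := ka_iff.1 h2
  have := H.apex b (mem_ed.1 h1)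
  exact ⟨mem_ed.1 h1, h4 ▸ this.1, h4 ▸ this.2, mem_cl.2 ⟨mem_univ _, h3⟩⟩

lemma log_ge {s T : ℝ} (hs : 0 < s) (hT : 0 < T) : Real.log T + 1 - T / s ≤ Real.log s := by
  have := Real.one_sub_inv_le_log_of_pos (div_pos hs hT)
  rw [Real.log_div hs.ne' hT.ne', inv_div] at this
  linarith

lemma le_phi {γ : ℝ} (hγ : 0 < γ) (h : γ * (Fintype.card V : ℝ) ^ 2 ≤ (ed A).card) :
    (ed A).card * Real.log γ ≤ phi A z ∅ := by
  have h1 : ∀ a ∈ ed A, Real.log γ + 1 - γ * Fintype.card V * (1 / mm A z ∅ a) ≤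
      Real.log (mm A z ∅ a / cc A ∅ a.1) := fun a ha => by
    have := log_ge (div_pos (mm_pos (z := z) ∅ ha) (cc_pos (A := A) ∅ a.1)) hγ
    have e : cc A ∅ a.1 = Fintype.card V := by simp [cc, cl, ty]
    rw [div_div_eq_mul_div, e] at this
    rw [e, mul_one_div]
    exact this
  have h2 := sum_le_sum h1
  have h3 := mul_le_mul_of_nonneg_left (sum_inv_mm (A := A) (z := z) ∅)
    (by positivity : 0 ≤ γ * Fintype.card V)
  rw [sum_sub_distrib, ← mul_sum, sum_const, nsmul_eq_mul] at h2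
  simp only [card_empty, pow_zero, one_mul] at h3
  unfold phi
  nlinarith

lemma ratio (G : V × V → Finset V)
    (h1 : ∀ a b, ka A z R a = ka A z R b → G a = G b)
    (h2 : ∀ a x x', ty A R' x' = ty A R' x → x ∈ G a → x' ∈ G a) :
    ∑ a ∈ ed A, mm A z R a / cc A R a.1 * (if a.1 ∈ G a then cc A R' a.1 / mm A z R' a else 0) ≤
      ∑ b ∈ ed A, (G b).card / cc A R b.1 := by
  rw [← av_sum (ka A z R) (ed A) _ (fun a => mm A z R a / cc A R a.1) fun a b e => by
    simp only [mm_congr e, cc_congr (ka_iff.1 e).1]]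
  refine sum_le_sum fun b hb => ?_
  have hm := mm_pos (z := z) R hb
  have hc := cc_pos (A := A) R b.1
  have e : ∀ s : ℝ, mm A z R b / cc A R b.1 * (s / mm A z R b) = s / cc A R b.1 := fun s => by
    field_simp
  refine (e _).trans_le (div_le_div_of_nonneg_right ?_ hc.le)
  have h3 : ∀ a ∈ cl (ka A z R) (ed A) b,
      (if a.1 ∈ G a then cc A R' a.1 / mm A z R' a else 0) ≤
        ∑ x ∈ G b, if ty A R' x = ty A R' a.1 then 1 / mm A z R' a else 0 := fun a ha => by
    have hp := (mm_pos (z := z) R' (mem_cl.1 ha).1).le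
    rw [← sum_filter, sum_const, nsmul_eq_mul, mul_one_div]
    split_ifs with h
    · refine div_le_div_of_nonneg_right (Nat.cast_le.2 (card_le_card fun x hx => ?_)) hp
      exact mem_filter.2 ⟨h1 a b (mem_cl.1 ha).2 ▸ h2 a _ _ (mem_cl.1 hx).2 h, (mem_cl.1 hx).2⟩
    · positivity
  refine (sum_le_sum h3).trans ?_
  rw [sum_comm]
  refine (sum_le_card_nsmul _ _ 1 fun x _ => ?_).trans (by simp)
  rw [← sum_filter]
  refine sum_inv_le fun a ha => Nat.cast_le.2 (card_le_card fun c hc => ?_)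
  obtain ⟨a1, a2⟩ := mem_filter.1 ha
  obtain ⟨c1, c2⟩ := mem_filter.1 hc
  exact mem_cl.2 ⟨(mem_cl.1 c1).1, ka_iff.2 ⟨c2.symm.trans a2,
    (ka_iff.1 (mem_cl.1 c1).2).2.trans (ka_iff.1 (mem_cl.1 a1).2).2.symm⟩⟩

lemma bad_le (H : Hyp A z K) (N : Finset V) :
    (((ed A).filter fun a => ∃ r ∈ N, A a.1 r ∧ A r (z a)).card : ℝ) ≤
      N.card * (Fintype.card V * K ^ 2) := by
  have hK := zero_le_one.trans H.one
  have h1 : ((ed A).filter fun a => ∃ r ∈ N, A a.1 r ∧ A r (z a)) ⊆ N.biUnion fun r =>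
      univ.biUnion fun w => (ed A).filter fun a => z a = w ∧ A a.1 r ∧ A r w := fun a ha => by
    obtain ⟨h, r, hr, b⟩ := mem_filter.1 ha
    exact mem_biUnion.2 ⟨r, hr, mem_biUnion.2 ⟨_, mem_univ _, mem_filter.2 ⟨h, rfl, b⟩⟩⟩
  refine le_trans (Nat.cast_le.2 ((card_le_card h1).trans card_biUnion_le)) ?_
  rw [Nat.cast_sum, ← nsmul_eq_mul]
  refine sum_le_card_nsmul _ _ _ fun r _ => le_trans (Nat.cast_le.2 card_biUnion_le) ?_
  rw [Nat.cast_sum, ← card_univ, ← nsmul_eq_mul]
  refine sum_le_card_nsmul _ _ _ fun w _ => ?_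
  by_cases h : A r w
  · refine (cnt H Prod.fst Prod.snd (fun _ _ => Prod.ext) _ w
      (univ.filter fun u => A r u ∧ A w u) fun a ha => ?_).trans ?_
    · obtain ⟨b, rfl, c, -⟩ := mem_filter.1 ha
      have := H.apex a (mem_ed.1 b)
      exact ⟨mem_ed.1 b, this.1, this.2,
        mem_filter.2 ⟨mem_univ _, H.sym _ _ c, H.sym _ _ this.1⟩⟩
    · rw [sq]; exact mul_le_mul_of_nonneg_left (H.cod _ _ h) hK
  · simp only [h, and_false, filter_false, card_empty, Nat.cast_zero]
    positivity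

end Pool.Agent.Lib.MP_a77646_co.Tow
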