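import Mathlib

/-! A second moment inequality for families of classes of pairs with disjoint supports. -/

set_option autoImplicit false

namespace Pool.Agent.Lib.MP_a77646_co.Win

open Finset

variable {Z X : Type} [Fintype Z] [Fintype X]

lemma gram (u v : Z → X → ℝ) : ∑ x, ∑ y, (∑ z, u z x * v z y) ^ 2 =
    ∑ z, ∑ w, (∑ x, u z x * u w x) * ∑ y, v z y * v w y := by
  simp only [sq, sum_mul_sum]
  rw [sum_congr rfl fun x _ => sum_comm, sum_comm]
  refine sum_congr rfl fun z _ => ?_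
  rw [sum_congr rfl fun x _ => sum_comm, sum_comm]
  exact sum_congr rfl fun w _ => sum_congr rfl fun x _ => sum_congr rfl fun y _ => by ring

lemma gram_le (u v : Z → X → ℝ) : 2 * ∑ x, ∑ y, (∑ z, u z x * v z y) ^ 2 ≤
    ∑ x, ∑ y, (∑ z, u z x * u z y) ^ 2 + ∑ x, ∑ y, (∑ z, v z x * v z y) ^ 2 := by
  rw [gram, gram, gram, mul_sum, ← sum_add_distrib]
  refine sum_le_sum fun z _ => ?_
  rw [mul_sum, ← sum_add_distrib]
  exact sum_le_sum fun w _ => by
    nlinarith [sq_nonneg ((∑ x, u z x * u w x) - ∑ y, v z y * v w y)]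

/-- The second moment of the number of common classes of two points on one side. -/
lemma side {κ : Z → X → X → ℝ} {a b : X → X → ℝ} {n β d : ℝ}
    (hn : (univ : Finset X).card = n) (hβ : 0 ≤ β) (h0 : ∀ z x y, 0 ≤ κ z x y)
    (h1 : ∀ x y, ∑ z, κ z x y ≤ 1) (hu : ∀ z x, ∑ y, κ z x y ≤ β) (ha : ∀ x y, 0 ≤ a x y)
    (hb : ∀ x y, 0 ≤ b x y)
    (hab : ∀ z x y x' y', κ z x y' ≠ 0 → κ z x' y ≠ 0 → 1 ≤ a x y + b x y)
    (hd : ∀ x, ∑ y, b x y ≤ d)
    (hay : ∀ z x' y, κ z x' y ≠ 0 → ∑ x, (∑ y', κ z x y') * a x y ≤ β ^ 2) :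
    ∑ x, ∑ x', (∑ z, (∑ y, κ z x y) * ∑ y, κ z x' y) ^ 2 ≤
      β * d * ∑ z, (∑ x, ∑ y, κ z x y) ^ 2 + n ^ 3 * β ^ 3 := by
  set u : Z → X → ℝ := fun z x => ∑ y, κ z x y with hu'
  have u0 : ∀ z x, 0 ≤ u z x := fun z x => sum_nonneg fun y _ => h0 z x y
  have hn0 : 0 ≤ n := hn ▸ Nat.cast_nonneg _
  set q : X → X → ℝ := fun x x' => ∑ y, ∑ z, κ z x y * (u z x' * a x' y) with hq
  have q0 : ∀ x x', 0 ≤ q x x' := fun x x' => sum_nonneg fun y _ => sum_nonneg fun z _ =>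
    mul_nonneg (h0 z x y) (mul_nonneg (u0 z x') (ha x' y))
  have e1 : ∀ x x', ∑ z, u z x * u z x' = ∑ y, ∑ z, κ z x y * u z x' := fun x x' => by
    rw [sum_comm]
    exact sum_congr rfl fun z _ => sum_mul _ _ _
  have wt : ∀ x y (t : ℝ), 0 ≤ t → ∑ z, κ z x y * t ≤ t := fun x y t ht => by
    rw [← sum_mul]
    exact mul_le_of_le_one_left ht (h1 x y)
  have p1 : ∀ x x', ∑ z, u z x * u z x' ≤ n * β := fun x x' => by
    rw [e1]
    refine (sum_le_sum fun y _ => (sum_le_sum fun z _ =>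
      mul_le_mul_of_nonneg_left (hu z x') (h0 z x y)).trans (wt x y β hβ)).trans ?_
    rw [sum_const, nsmul_eq_mul, hn]
  have p2 : ∀ x x', ∑ z, u z x * u z x' ≤ β * d + q x x' := fun x x' => by
    rw [e1]
    have h2 : ∀ y, ∑ z, κ z x y * u z x' ≤
        β * b x' y + ∑ z, κ z x y * (u z x' * a x' y) := fun y => by
      refine le_trans ?_ (add_le_add_left (wt x y _ (mul_nonneg hβ (hb x' y))) _)
      rw [← sum_add_distrib]
      refine sum_le_sum fun z _ => ?_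
      rw [← mul_add]
      by_cases h3 : κ z x y = 0
      · simp [h3]
      refine mul_le_mul_of_nonneg_left ?_ (h0 z x y)
      by_cases h4 : u z x' = 0
      · simpa [h4] using mul_nonneg hβ (hb x' y)
      obtain ⟨y', -, h5⟩ := exists_ne_zero_of_sum_ne_zero h4
      nlinarith [mul_le_mul_of_nonneg_left (hab z x' y x y' h5 h3) (u0 z x'),
        mul_le_mul_of_nonneg_right (hu z x') (hb x' y)]
    refine (sum_le_sum fun y _ => h2 y).trans ?_
    rw [sum_add_distrib, ← mul_sum]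
    exact add_le_add_left (mul_le_mul_of_nonneg_left (hd x') hβ) _
  have p3 : ∑ x, ∑ x', q x x' ≤ n ^ 2 * β ^ 2 := by
    have h2 : ∀ x, ∑ x', q x x' ≤ n * β ^ 2 := fun x => by
      rw [sum_comm]
      have h3 : ∀ y, ∑ x', ∑ z, κ z x y * (u z x' * a x' y) ≤ β ^ 2 := fun y => by
        rw [sum_comm]
        refine le_trans (sum_le_sum fun z _ => ?_) (wt x y _ (sq_nonneg β))
        rw [← mul_sum]
        by_cases h4 : κ z x y = 0
        · simp [h4]
        · exact mul_le_mul_of_nonneg_left (hay z x y h4) (h0 z x y)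
      refine (sum_le_sum fun y _ => h3 y).trans ?_
      rw [sum_const, nsmul_eq_mul, hn]
    refine (sum_le_sum fun x _ => h2 x).trans (le_of_eq ?_)
    rw [sum_const, nsmul_eq_mul, hn]
    ring
  have p4 : ∑ x, ∑ x', ∑ z, u z x * u z x' = ∑ z, (∑ x, u z x) ^ 2 := by
    simp only [sq, sum_mul_sum]
    rw [sum_congr rfl fun x _ => sum_comm, sum_comm]
  have p5 : ∑ x, ∑ x', (∑ z, u z x * u z x') ^ 2 ≤
      ∑ x, ∑ x', (β * d * ∑ z, u z x * u z x' + n * β * q x x') :=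
    sum_le_sum fun x _ => sum_le_sum fun x' _ => by
      have h2 : 0 ≤ ∑ z, u z x * u z x' := sum_nonneg fun z _ => mul_nonneg (u0 z x) (u0 z x')
      nlinarith [mul_le_mul_of_nonneg_left (p2 x x') h2,
        mul_le_mul_of_nonneg_right (p1 x x') (q0 x x')]
  simp only [sum_add_distrib, ← mul_sum, p4] at p5
  nlinarith [mul_le_mul_of_nonneg_left p3 (mul_nonneg hn0 hβ)]

/-- The second moment inequality. -/
theorem cs_count {κ : Z → X → X → ℝ} {a b : X → X → ℝ} {n β d N : ℝ} (C : Finset Z)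
    (hn : (univ : Finset X).card = n) (hβ : 0 ≤ β) (hd0 : 0 ≤ d) (h0 : ∀ z x y, 0 ≤ κ z x y)
    (hC : ∀ z x y, κ z x y ≠ 0 → z ∈ C) (hN : ∑ z, ∑ x, ∑ y, κ z x y = N)
    (h1 : ∀ x y, ∑ z, κ z x y ≤ 1) (hu : ∀ z x, ∑ y, κ z x y ≤ β) (hv : ∀ z y, ∑ x, κ z x y ≤ β)
    (ha : ∀ x y, 0 ≤ a x y) (hb : ∀ x y, b x y = 0 ∨ b x y = 1)
    (hab : ∀ z x y x' y', κ z x y' ≠ 0 → κ z x' y ≠ 0 → 1 ≤ a x y + b x y)
    (hdx : ∀ x, ∑ y, b x y ≤ d) (hdy : ∀ y, ∑ x, b x y ≤ d)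
    (hax : ∀ z x y', κ z x y' ≠ 0 → ∑ y, (∑ x', κ z x' y) * a x y ≤ β ^ 2)
    (hay : ∀ z x' y, κ z x' y ≠ 0 → ∑ x, (∑ y', κ z x y') * a x y ≤ β ^ 2) :
    ∃ T S : ℝ, N ^ 2 ≤ C.card * T ∧ T ≤ β ^ 2 * N + S ∧
      S ^ 2 ≤ n * d * (β * d * T + n ^ 3 * β ^ 3) := by
  classical
  have hb0 : ∀ x y, 0 ≤ b x y := fun x y => by rcases hb x y with e | e <;> simp [e]
  have hn0 : 0 ≤ n := hn ▸ Nat.cast_nonneg _
  have s1 := side hn hβ h0 h1 hu ha hb0 hab hdx hay
  have s2 := side (κ := fun z y x => κ z x y) (a := fun y x => a x y) (b := fun y x => b x y)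
    hn hβ (fun z y x => h0 z x y) (fun y x => h1 x y) hv (fun y x => ha x y) (fun y x => hb0 x y)
    (fun z y x y' x' e e' => hab z x y x' y' e' e) hdy fun z y' x e => hax z x y' e
  have s3 := gram_le (fun z x => ∑ y, κ z x y) fun z y => ∑ x, κ z x y
  set u : Z → X → ℝ := fun z x => ∑ y, κ z x y with hu'
  set v : Z → X → ℝ := fun z y => ∑ x, κ z x y with hv'
  have u0 : ∀ z x, 0 ≤ u z x := fun z x => sum_nonneg fun y _ => h0 z x y
  have v0 : ∀ z y, 0 ≤ v z y := fun z y => sum_nonneg fun x _ => h0 z x y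
  have huv : ∀ z, ∑ y, v z y = ∑ x, u z x := fun z => sum_comm
  refine ⟨∑ z, (∑ x, u z x) ^ 2, ∑ x, ∑ y, (∑ z, u z x * v z y) * b x y, ?_, ?_, ?_⟩
  · have h2 : ∀ F : ℝ → ℝ, F 0 = 0 → ∑ z, F (∑ x, u z x) = ∑ z ∈ C, F (∑ x, u z x) :=
      fun F hF => (sum_subset (subset_univ C) fun z _ hz => by
        rw [sum_eq_zero fun x _ => sum_eq_zero fun y _ => by
          by_contra e
          exact hz (hC z x y e), hF]).symm
    rw [← hN, h2 (fun t => t) rfl, h2 (fun t => t ^ 2) (by norm_num)]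
    exact sq_sum_le_card_mul_sum_sq
  · have h2 : ∀ z, (∑ x, u z x) ^ 2 ≤ β ^ 2 * ∑ x, u z x + ∑ x, ∑ y, u z x * v z y * b x y := by
      intro z
      rw [sq, mul_sum (s := univ) (f := u z) (a := β ^ 2), ← sum_add_distrib]
      nth_rewrite 2 [← huv]
      rw [sum_mul]
      refine sum_le_sum fun x _ => ?_
      by_cases h3 : u z x = 0
      · simp [h3]
      obtain ⟨y', -, h4⟩ := exists_ne_zero_of_sum_ne_zero h3
      have h5 : ∑ y, v z y ≤ ∑ y, (v z y * a x y + v z y * b x y) := sum_le_sum fun y _ => by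
        by_cases h6 : v z y = 0
        · simp [h6]
        obtain ⟨x', -, h7⟩ := exists_ne_zero_of_sum_ne_zero h6
        nlinarith [mul_le_mul_of_nonneg_left (hab z x y x' y' h4 h7) (v0 z y)]
      rw [sum_add_distrib] at h5
      simp only [mul_assoc, ← mul_sum]
      nlinarith [mul_le_mul_of_nonneg_left (h5.trans (add_le_add_left (hax z x y' h4) _))
        (u0 z x)]
    refine (sum_le_sum fun z _ => h2 z).trans (le_of_eq ?_)
    rw [sum_add_distrib, ← mul_sum, hN]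
    simp only [sum_mul]
    congr 1
    rw [sum_comm]
    exact sum_congr rfl fun x _ => sum_comm
  · have h2 := sum_mul_sq_le_sq_mul_sq univ (fun i : X × X => ∑ z, u z i.1 * v z i.2)
      fun i => b i.1 i.2
    have h3 : ∑ x, ∑ y, b x y ^ 2 ≤ n * d := by
      refine (sum_le_sum fun x _ => (le_of_eq (sum_congr rfl fun y _ => ?_)).trans
        (hdx x)).trans ?_
      · rcases hb x y with e | e <;> simp [e]
      · rw [sum_const, nsmul_eq_mul, hn]
    simp only [Fintype.sum_prod_type] at h2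
    have h5 : ∑ z, (∑ y, v z y) ^ 2 = ∑ z, (∑ x, u z x) ^ 2 := by simp only [huv]
    have h4 : ∑ x, ∑ y, (∑ z, u z x * v z y) ^ 2 ≤
        β * d * ∑ z, (∑ x, u z x) ^ 2 + n ^ 3 * β ^ 3 := by
      change _ ≤ β * d * ∑ z, (∑ y, v z y) ^ 2 + _ at s2
      rw [h5] at s2
      linarith
    refine h2.trans ?_
    rw [mul_comm (n * d)]
    exact mul_le_mul h4 h3 (sum_nonneg fun x _ => sum_nonneg fun y _ => sq_nonneg _)
      (by positivity)

end Pool.Agent.Lib.MP_a77646_co.Win
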