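import Mathlib

/-! An entropy inequality for families of classes of pairs with disjoint supports. -/

set_option autoImplicit false

namespace Pool.Agent.Lib.MP_a77646_co.Win

open Finset Real

variable {Z X Y : Type} [Fintype Z] [Fintype X] [Fintype Y]

/-- Entropy of a vector of weights. -/
noncomputable def HH (v : X → ℝ) : ℝ := ∑ i, negMulLog (v i) - negMulLog (∑ i, v i)

lemma gibbs {v w : X → ℝ} (hv : ∀ i, 0 ≤ v i) (hw : ∀ i, 0 ≤ w i) (h : ∀ i, v i ≠ 0 → w i ≠ 0) :
    HH v ≤ ∑ i, v i * -log (w i) + (∑ i, v i) * log (∑ i, w i) := by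
  rcases (sum_nonneg fun i (_ : i ∈ univ) => hv i).eq_or_lt with h0 | h0
  · have h1 : ∀ i, v i = 0 := fun i =>
      (sum_eq_zero_iff_of_nonneg fun i _ => hv i).mp h0.symm i (mem_univ i)
    simp [HH, h1]
  obtain ⟨i0, -, hi0⟩ := exists_ne_zero_of_sum_ne_zero h0.ne'
  have h2 : 0 < ∑ i, w i :=
    sum_pos' (fun i _ => hw i) ⟨i0, mem_univ _, (hw i0).lt_of_ne' (h i0 hi0)⟩
  set S := ∑ i, v i with hS
  set R := ∑ i, w i with hR
  have h3 : ∀ i, negMulLog (v i) + v i * log S ≤
      v i * -log (w i) + v i * log R + (S / R * w i - v i) := fun i => by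
    rcases (hv i).eq_or_lt with e | e
    · rw [← e]
      simpa using mul_nonneg (div_pos h0 h2).le (hw i)
    have h4 : 0 < w i := (hw i).lt_of_ne' (h i e.ne')
    have h5 := mul_le_mul_of_nonneg_left
      (log_le_sub_one_of_pos (show 0 < S / R * w i / v i by positivity)) e.le
    rw [log_div (by positivity) e.ne', log_mul (by positivity) h4.ne', log_div h0.ne' h2.ne',
      mul_sub (v i) _ 1, mul_div_cancel₀ _ e.ne'] at h5
    rw [negMulLog]
    linarith
  have h6 := sum_le_sum fun i (_ : i ∈ univ) => h3 i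
  simp only [sum_add_distrib, sum_sub_distrib, ← sum_mul, ← mul_sum, ← hS, ← hR] at h6
  rw [div_mul_cancel₀ _ h2.ne'] at h6
  rw [HH, ← hS, negMulLog]
  linarith

lemma HH_super {v : Y → X → ℝ} (hv : ∀ j i, 0 ≤ v j i) :
    ∑ j, HH (v j) ≤ HH fun i => ∑ j, v j i := by
  refine (sum_le_sum fun j _ => gibbs (w := fun i => ∑ j, v j i) (hv j)
    (fun i => sum_nonneg fun j _ => hv j i) fun i hi => ((hv j i).lt_of_ne' hi |>.trans_le
      (single_le_sum (fun j _ => hv j i) (mem_univ j))).ne').trans (le_of_eq ?_)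
  rw [sum_add_distrib, sum_comm, ← sum_mul, sum_comm (s := univ) (t := univ) (f := v)]
  simp only [HH, negMulLog, ← sum_mul]
  simp only [mul_neg, neg_mul, sub_neg_eq_add]

lemma HH_sub {q : X × Y → ℝ} (hq : ∀ i, 0 ≤ q i) :
    HH q ≤ HH (fun x => ∑ y, q (x, y)) + HH fun y => ∑ x, q (x, y) := by
  have h1 := HH_super (v := fun x y => q (x, y)) fun x y => hq _
  simp only [HH, Fintype.sum_prod_type, sum_sub_distrib] at h1 ⊢
  linarith

/-- Observation of one sample. -/
def TT' (P : Z → X → ℝ) (F : (Z → ℝ) → ℝ) (m : Z → ℝ) : ℝ := ∑ x, F fun z => m z * P z x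

/-- Weights that live on a set `G`. -/
def Good (G : Z → Prop) (m : Z → ℝ) : Prop := ∀ z, 0 ≤ m z ∧ (m z = 0 ∨ G z)

/-- A kernel that is stochastic on `G`. -/
def Sto (G : Z → Prop) (P : Z → X → ℝ) : Prop := (∀ z x, 0 ≤ P z x) ∧ ∀ z, G z → ∑ x, P z x = 1

variable {G : Z → Prop} {P : Z → X → ℝ} {Q : Z → Y → ℝ} {m : Z → ℝ}

omit [Fintype Z] in
lemma Good.mul (hm : Good G m) (hP : Sto G P) (x : X) : Good G fun z => m z * P z x := fun z =>
  ⟨mul_nonneg (hm z).1 (hP.1 z x), (hm z).2.imp_left fun e => by simp [e]⟩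

omit [Fintype Z] in
lemma Good.sum (hm : Good G m) (hP : Sto G P) (z : Z) : ∑ x, m z * P z x = m z := by
  rcases (hm z).2 with e | e
  · simp [e]
  · rw [← mul_sum, hP.2 z e, mul_one]

lemma Good.lin (hm : Good G m) (hP : Sto G P) (ρ : Z → ℝ) :
    ∑ x, ∑ z, m z * P z x * ρ z = ∑ z, m z * ρ z := by
  rw [sum_comm]
  simp only [← sum_mul, hm.sum hP]

lemma chain (hm : Good G m) (hP : Sto G P) : TT' P HH m =
    HH m + ∑ z, m z * ∑ x, negMulLog (P z x) - HH fun x => ∑ z, m z * P z x := by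
  have h1 : ∑ x, ∑ z, m z * P z x = ∑ z, m z := by simpa using hm.lin hP fun _ => 1
  have h2 : ∑ x, ∑ z, P z x * negMulLog (m z) = ∑ z, negMulLog (m z) := by
    rw [sum_comm]
    refine sum_congr rfl fun z _ => ?_
    rcases (hm z).2 with e | e
    · simp [e]
    · rw [← sum_mul, hP.2 z e, one_mul]
  simp only [TT', HH, negMulLog_mul, sum_add_distrib, sum_sub_distrib, h1, h2, mul_sum]
  rw [sum_comm]
  ring

lemma convex0 (hm : Good G m) (hP : Sto G P) : 2 * TT' P HH m ≤ HH m + TT' P (TT' P HH) m := by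
  have h1 := HH_super (v := fun x x' => ∑ z, m z * P z x * P z x') fun x x' =>
    sum_nonneg fun z _ => mul_nonneg ((hm.mul hP x) z).1 (hP.1 z x')
  simp only [hm.lin hP] at h1
  have h2 : TT' P (TT' P HH) m = _ := sum_congr rfl fun x _ => chain (hm.mul hP x) hP
  simp only [sum_add_distrib, sum_sub_distrib, hm.lin hP] at h2
  have h3 := chain hm hP
  change _ = TT' P HH m + _ - _ at h2
  linarith

lemma key0 {r : Z → X × Y → ℝ} (hm : Good G m) (hr : Sto G r) (hP : Sto G P) (hQ : Sto G Q)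
    (h1 : ∀ z x, ∑ y, r z (x, y) = P z x) (h2 : ∀ z y, ∑ x, r z (x, y) = Q z y)
    (hd : ∀ i, ∃ z0, ∀ z, z ≠ z0 → r z i = 0) :
    TT' P HH m + TT' Q HH m ≤ HH m + ∑ z, m z * (∑ x, negMulLog (P z x) +
      ∑ y, negMulLog (Q z y) - ∑ i, negMulLog (r z i)) := by
  have h3 : TT' r HH m = 0 := sum_eq_zero fun i _ => by
    obtain ⟨z0, h0⟩ := hd i
    rw [HH, sum_eq_single z0, sum_eq_single z0, sub_self] <;> simp +contextual [h0]
  have h4 := HH_sub (q := fun i => ∑ z, m z * r z i) fun i =>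
    sum_nonneg fun z _ => ((hm.mul hr i) z).1
  have h5 : ∀ x, ∑ y, ∑ z, m z * r z (x, y) = ∑ z, m z * P z x := fun x => by
    rw [sum_comm]
    simp only [← mul_sum, h1]
  have h6 : ∀ y, ∑ x, ∑ z, m z * r z (x, y) = ∑ z, m z * Q z y := fun y => by
    rw [sum_comm]
    simp only [← mul_sum, h2]
  simp only [h5, h6] at h4
  simp only [mul_add, mul_sub, sum_add_distrib, sum_sub_distrib]
  linarith [chain hm hr, chain hm hP, chain hm hQ]

/-- The entropy left after `a` samples of the first kind and `b` of the second. -/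
noncomputable def gg (P : Z → X → ℝ) (Q : Z → Y → ℝ) (a b : ℕ) : (Z → ℝ) → ℝ :=
  (TT' P)^[a] ((TT' Q)^[b] HH)

lemma gg_left (a b : ℕ) : TT' P (gg P Q a b) = gg P Q (a + 1) b :=
  (Function.iterate_succ_apply' _ _ _).symm

lemma gg_right (a b : ℕ) : TT' Q (gg P Q a b) = gg P Q a (b + 1) := by
  induction a with
  | zero => exact (Function.iterate_succ_apply' (TT' Q) b HH).symm
  | succ a ih =>
    rw [← gg_left, ← gg_left, ← ih]
    funext m
    simp only [TT']
    rw [sum_comm]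
    simp only [mul_right_comm]

/-- An inequality between four values is kept by further observations. -/
lemma shift (hP : Sto G P) (hQ : Sto G Q) (ρ : Z → ℝ) (t : ℝ) {a1 b1 a2 b2 a3 b3 : ℕ}
    (h : ∀ m, Good G m → gg P Q a1 b1 m + gg P Q a2 b2 m ≤
      gg P Q 0 0 m + t * gg P Q a3 b3 m + ∑ z, m z * ρ z) (a b : ℕ) :
    ∀ m, Good G m → gg P Q (a1 + a) (b1 + b) m + gg P Q (a2 + a) (b2 + b) m ≤
      gg P Q a b m + t * gg P Q (a3 + a) (b3 + b) m + ∑ z, m z * ρ z := by
  induction a with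
  | zero =>
    induction b with
    | zero => exact h
    | succ b ih =>
      intro m hm
      have := sum_le_sum fun y (_ : y ∈ univ) => ih _ (hm.mul hQ y)
      simp only [sum_add_distrib, ← mul_sum, hm.lin hQ] at this
      simp only [← add_assoc, ← gg_right]
      exact this
  | succ a ih =>
    intro m hm
    have := sum_le_sum fun x (_ : x ∈ univ) => ih _ (hm.mul hP x)
    simp only [sum_add_distrib, ← mul_sum, hm.lin hP] at this
    simp only [← add_assoc, ← gg_left]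
    exact this

theorem five {r : Z → X × Y → ℝ} (hm : Good G m) (hr : Sto G r) (hP : Sto G P) (hQ : Sto G Q)
    (h1 : ∀ z x, ∑ y, r z (x, y) = P z x) (h2 : ∀ z y, ∑ x, r z (x, y) = Q z y)
    (hd : ∀ i, ∃ z0, ∀ z, z ≠ z0 → r z i = 0) :
    15 * HH m + 7 * ∑ z, m z * ∑ x, negMulLog (P z x) + 7 * ∑ z, m z * ∑ y, negMulLog (Q z y) +
      15 * ∑ z, m z * ∑ i, negMulLog (r z i) ≤
        22 * HH fun i : X × Y => ∑ z, m z * (P z i.1 * Q z i.2) := by
  have K := fun a b => shift hP hQ _ 0 (a1 := 1) (b1 := 0) (a2 := 0) (b2 := 1) (a3 := 0) (b3 := 0)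
    (fun m hm => by simpa [gg] using key0 hm hr hP hQ h1 h2 hd) a b m hm
  have A := fun a b => shift hP hQ 0 1 (a1 := 1) (b1 := 0) (a2 := 1) (b2 := 0) (a3 := 2) (b3 := 0)
    (fun m hm => by simpa [gg, two_mul] using convex0 hm hP) a b m hm
  have B := fun a b => shift hP hQ 0 1 (a1 := 0) (b1 := 1) (a2 := 0) (b2 := 1) (a3 := 0) (b3 := 2)
    (fun m hm => by simpa [gg, two_mul] using convex0 hm hQ) a b m hm
  have hPQ : Sto G fun z (i : X × Y) => P z i.1 * Q z i.2 :=
    ⟨fun z i => mul_nonneg (hP.1 _ _) (hQ.1 _ _), fun z hz => by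
      simp only [Fintype.sum_prod_type, ← mul_sum, hP.2 z hz, hQ.2 z hz, mul_one]⟩
  have h3 := chain hm hPQ
  have h4 : TT' (fun z (i : X × Y) => P z i.1 * Q z i.2) HH m = gg P Q 1 1 m := by
    simp only [gg, TT', Fintype.sum_prod_type, Function.iterate_one, mul_assoc]
  have h5 : ∑ z, m z * ∑ i : X × Y, negMulLog (P z i.1 * Q z i.2) =
      ∑ z, m z * ∑ x, negMulLog (P z x) + ∑ z, m z * ∑ y, negMulLog (Q z y) := by
    rw [← sum_add_distrib]
    refine sum_congr rfl fun z _ => ?_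
    rcases (hm z).2 with e | e
    · simp [e]
    · simp only [Fintype.sum_prod_type, negMulLog_mul, sum_add_distrib, ← sum_mul, ← mul_sum,
        hP.2 z e, hQ.2 z e, one_mul, mul_add]
  have h6 : gg P Q 0 0 m = HH m := rfl
  have k1 := K 2 2
  have k2 := K 0 1
  have k3 := K 1 0
  have k4 := K 0 0
  have a1 := A 1 2
  have a2 := A 0 2
  have a3 := A 0 1
  have b1 := B 2 1
  have b2 := B 2 0
  have b3 := B 1 0
  simp only [mul_add, mul_sub, sum_add_distrib, sum_sub_distrib, Pi.zero_apply, mul_zero,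
    sum_const_zero, Nat.reduceAdd] at k1 k2 k3 k4 a1 a2 a3 b1 b2 b3
  linarith

lemma ent_ge {v : X → ℝ} {β e : ℝ} (hv : ∀ x, 0 ≤ v x) (hβ : ∀ x, v x ≤ β) (he : ∑ x, v x = e) :
    e * log e - e * log β ≤ e * ∑ x, negMulLog (v x / e) := by
  rcases (he ▸ sum_nonneg fun x _ => hv x : 0 ≤ e).eq_or_lt with h0 | h0
  · simp [← h0]
  have h1 : ∀ x, v x * (log e - log β) ≤ e * negMulLog (v x / e) := fun x => by
    rcases (hv x).eq_or_lt with h2 | h2
    · simp [← h2]
    have h3 := mul_le_mul_of_nonneg_left (log_le_log h2 (hβ x)) h2.le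
    rw [negMulLog, log_div h2.ne' h0.ne', ← mul_assoc, mul_neg, mul_div_cancel₀ _ h0.ne']
    linarith
  have h4 := sum_le_sum fun x (_ : x ∈ univ) => h1 x
  rw [← sum_mul, he, ← mul_sum] at h4
  linarith

open Classical in
/-- The class of `z` in the set of pairs with indicator `j`. -/
noncomputable def cl (c : X → X → X) (j : X → X → ℝ) (z x y : X) : ℝ :=
  if c x y = z then j x y else 0

theorem ent_count {c : X → X → X} {j : X → X → ℝ} (hj : ∀ x y, j x y = 0 ∨ j x y = 1)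
    (C : Finset X) (hC : ∀ x y, j x y = 1 → c x y ∈ C) {β N L1 L2 : ℝ} (hβ : 0 < β)
    (hN : ∑ x, ∑ y, j x y = N) (hN0 : 0 < N) (hx : ∀ z x, ∑ y, cl c j z x y ≤ β)
    (hy : ∀ z y, ∑ x, cl c j z x y ≤ β) (w a : X → X → ℝ) (hw : ∀ x y, 0 < w x y)
    (hw2 : ∑ x, ∑ y, w x y ≤ 2) (hL : 0 ≤ L2)
    (hwa : ∀ x y x' y', j x y' = 1 → j x' y = 1 → -log (w x y) ≤ L1 + a x y * L2)
    (ha : ∀ x y', j x y' = 1 → ∑ y, (∑ x', cl c j (c x y') x' y) * a x y ≤ β ^ 2) :
    29 * (N * log N) ≤ 22 * (N * (L1 + log 2) + C.card * (β ^ 2 * L2)) +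
      14 * (N * log (C.card * β)) := by
  classical
  have hcl : ∀ z x y, cl c j z x y = 0 ∨ (cl c j z x y = 1 ∧ j x y = 1 ∧ c x y = z) := by
    intro z x y
    by_cases h : c x y = z <;> rcases hj x y with e | e <;> simp [cl, h, e]
  have c0 : ∀ z x y, 0 ≤ cl c j z x y := fun z x y => by
    rcases hcl z x y with e | ⟨e, -⟩ <;> simp [e]
  have c1 : ∀ z x y, cl c j z x y ≤ 1 := fun z x y => by
    rcases hcl z x y with e | ⟨e, -⟩ <;> simp [e]
  set e : X → ℝ := fun z => ∑ x, ∑ y, cl c j z x y with he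
  set P : X → X → ℝ := fun z x => (∑ y, cl c j z x y) / e z with hP
  set Q : X → X → ℝ := fun z y => (∑ x, cl c j z x y) / e z with hQ
  have e0 : ∀ z, 0 ≤ e z := fun z => sum_nonneg fun x _ => sum_nonneg fun y _ => c0 z x y
  have hm : Good (fun z => e z ≠ 0) e := fun z => ⟨e0 z, em _⟩
  have sP : Sto (fun z => e z ≠ 0) P := ⟨fun z x => div_nonneg (sum_nonneg fun y _ => c0 z x y)
    (e0 z), fun z hz => by simp only [hP]; rw [← sum_div, div_self hz]⟩
  have sQ : Sto (fun z => e z ≠ 0) Q := ⟨fun z y => div_nonneg (sum_nonneg fun x _ => c0 z x y)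
    (e0 z), fun z hz => by simp only [hQ]; rw [← sum_div, sum_comm, div_self hz]⟩
  have h5 := five (r := fun z i => cl c j z i.1 i.2 / e z) hm
    ⟨fun z i => div_nonneg (c0 _ _ _) (e0 z), fun z hz => by
      rw [← sum_div, Fintype.sum_prod_type, div_self hz]⟩ sP sQ
    (fun z x => (sum_div _ _ _).symm) (fun z y => (sum_div _ _ _).symm)
    fun i => ⟨c i.1 i.2, fun z hz => by simp [cl, hz.symm]⟩
  have eN : ∑ z, e z = N := by
    rw [← hN, sum_comm]
    refine sum_congr rfl fun x _ => ?_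
    rw [sum_comm]
    simp [cl]
  have eC : ∀ z, e z ≠ 0 → z ∈ C := fun z hz => by
    obtain ⟨x, -, h1⟩ := exists_ne_zero_of_sum_ne_zero hz
    obtain ⟨y, -, h2⟩ := exists_ne_zero_of_sum_ne_zero h1
    obtain ⟨-, h3, rfl⟩ := (hcl z x y).resolve_left h2
    exact hC x y h3
  have g1 := sum_le_sum fun z (_ : z ∈ univ) => ent_ge (v := fun x => ∑ y, cl c j z x y)
    (fun x => sum_nonneg fun y _ => c0 z x y) (hx z) (e := e z) rfl
  have g2 := sum_le_sum fun z (_ : z ∈ univ) => ent_ge (v := fun y => ∑ x, cl c j z x y)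
    (fun y => sum_nonneg fun x _ => c0 z x y) (hy z) (e := e z) sum_comm
  have g3 := sum_le_sum fun z (_ : z ∈ univ) => ent_ge (v := fun i : X × X => cl c j z i.1 i.2)
    (fun i => c0 _ _ _) (fun i => c1 _ _ _) (e := e z) (Fintype.sum_prod_type _)
  simp only [sum_sub_distrib, ← sum_mul, eN, log_one, mul_zero, sub_zero] at g1 g2 g3
  change _ ≤ ∑ z, e z * ∑ x, negMulLog (P z x) at g1
  change _ ≤ ∑ z, e z * ∑ x, negMulLog (Q z x) at g2
  have g4 : HH e = N * log N - ∑ z, e z * log (e z) := by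
    simp only [HH, negMulLog, eN, neg_mul, sum_neg_distrib]
    ring
  have g5 := gibbs (v := e) (w := fun z => if z ∈ C then 1 else 0) e0
    (fun z => by split_ifs <;> norm_num) fun z hz => by simp [eC z hz]
  have g6 : ∀ z, log (if z ∈ C then 1 else 0) = 0 := fun z => by split_ifs <;> simp
  simp only [g6, neg_zero, mul_zero, sum_const_zero, eN, sum_boole, filter_mem_eq_inter,
    univ_inter, zero_add] at g5
  have hk : (0 : ℝ) < C.card := by
    obtain ⟨z, -, hz⟩ := exists_ne_zero_of_sum_ne_zero (eN ▸ hN0.ne' : ∑ z, e z ≠ 0)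
    exact_mod_cast card_pos.mpr ⟨z, eC z hz⟩
  have g7 := gibbs (v := fun i : X × X => ∑ z, e z * (P z i.1 * Q z i.2))
    (w := fun i => w i.1 i.2) (fun i => sum_nonneg fun z _ =>
      mul_nonneg (e0 z) (mul_nonneg (sP.1 _ _) (sQ.1 _ _))) (fun i => (hw _ _).le)
      fun i _ => (hw _ _).ne'
  have g8 : ∑ i : X × X, ∑ z, e z * (P z i.1 * Q z i.2) = N := by
    rw [Fintype.sum_prod_type, ← eN]
    simp only [← mul_assoc]
    rw [sum_congr rfl fun x _ => sum_comm, sum_comm]
    simp only [(hm.mul sP _).sum sQ, hm.sum sP]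
  have g9 : log (∑ i : X × X, w i.1 i.2) ≤ log 2 := by
    obtain ⟨z, -⟩ := card_pos.mp (Nat.cast_pos.mp hk)
    exact log_le_log (sum_pos' (fun i _ => (hw _ _).le) ⟨(z, z), mem_univ _, hw _ _⟩)
      ((Fintype.sum_prod_type _).trans_le hw2)
  have g10 : ∑ i : X × X, (∑ z, e z * (P z i.1 * Q z i.2)) * -log (w i.1 i.2) ≤
      ∑ z, (e z * L1 + (if z ∈ C then 1 else 0) * (β ^ 2 * L2)) := by
    simp only [sum_mul]
    rw [sum_comm]
    refine sum_le_sum fun z _ => ?_
    by_cases hz : e z = 0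
    · simp only [hz, zero_mul, sum_const_zero, zero_add]
      positivity
    have h1 : ∀ x, ∑ y, e z * (P z x * Q z y) * -log (w x y) ≤
        e z * P z x * L1 + P z x * (β ^ 2 * L2) := fun x => by
      by_cases h2 : ∑ y, cl c j z x y = 0
      · simp [hP, h2]
      obtain ⟨y', -, h3⟩ := exists_ne_zero_of_sum_ne_zero h2
      obtain ⟨-, h4, rfl⟩ := (hcl z x y').resolve_left h3
      have h6 : ∀ y, e (c x y') * (P (c x y') x * Q (c x y') y) * -log (w x y) ≤
          e (c x y') * P (c x y') x * Q (c x y') y * L1 +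
            P (c x y') x * ((∑ x', cl c j (c x y') x' y) * a x y * L2) := fun y => by
        by_cases h7 : ∑ x', cl c j (c x y') x' y = 0
        · simp [hQ, h7]
        obtain ⟨x', -, h8⟩ := exists_ne_zero_of_sum_ne_zero h7
        have h9 := mul_le_mul_of_nonneg_left
          (hwa x y x' y' h4 ((hcl _ x' y).resolve_left h8).2.1)
          (mul_nonneg (e0 (c x y')) (mul_nonneg (sP.1 (c x y') x) (sQ.1 (c x y') y)))
        have h10 : e (c x y') * Q (c x y') y = ∑ x', cl c j (c x y') x' y :=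
          mul_div_cancel₀ _ hz
        rw [← h10]
        linarith
      refine (sum_le_sum fun y _ => h6 y).trans ?_
      simp only [sum_add_distrib, ← sum_mul, (hm.mul sP x).sum sQ]
      rw [← mul_sum, ← sum_mul]
      exact add_le_add_right (mul_le_mul_of_nonneg_left
        (mul_le_mul_of_nonneg_right (ha x y' h4) hL) (sP.1 _ _)) _
    rw [Fintype.sum_prod_type]
    refine (sum_le_sum fun x _ => h1 x).trans (le_of_eq ?_)
    simp only [sum_add_distrib, ← sum_mul, hm.sum sP, sP.2 z hz, if_pos (eC z hz)]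
  simp only [sum_add_distrib, ← sum_mul, eN, sum_boole, filter_mem_eq_inter, univ_inter] at g10
  rw [g8] at g7
  rw [log_mul hk.ne' hβ.ne']
  linarith [mul_le_mul_of_nonneg_left g9 hN0.le]

end Pool.Agent.Lib.MP_a77646_co.Win
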