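import Pool.Agent.Lib.MP_a77646_co.WinEdw
import Pool.Agent.Lib.MP_a77646_co.WinEnt
import Pool.Agent.Lib.MP_a77646_co.WinCS

/-! The lower bound for books just below `n^2/4` edges. -/

set_option autoImplicit false

namespace Pool.Agent.Lib.MP_a77646_co.Win

open Finset
open scoped Classical

variable {V : Type} [Fintype V] {a : V → V → ℝ}

/-- A pair of vertices of small weight. -/
lemma Bit.pair (h : Bit a) {n β f : ℝ} (hn : (univ : Finset V).card = n) (hβ : 0 < β)
    (hβn : 78 * β ≤ n) (hfn : 4 * f < n) (hM : n ^ 2 / 2 - 2 * f * n ≤ MM a univ)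
    (hc : ∀ x y, a x y = 1 → cd a univ x y ≤ β) :
    ∃ u v, cb a univ u v ≤ 43 * f ∧ tau a univ u + tau a univ v ≤ 43 * (β * f) := by
  have hn0 : 0 < n := by linarith
  have hM0 : 0 < MM a univ := lt_of_lt_of_le (by nlinarith) hM
  have hT0 := h.TT_nonneg univ
  have hE := h.edwards univ fun x _ y _ => hc x y
  have hC := cauchy (a := a) univ
  have hS := h.sum_cb univ
  rw [hn] at hE hC hS
  set M := MM a univ with hMdef
  set T := TT a univ with hTdef
  set Y := n * M - 2 * QQ a univ with hY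
  have hY1 : Y ≤ 4 * f * M := by
    have h1 : n * Y ≤ n * (4 * f * M) := by
      have := mul_le_mul_of_nonneg_left hM hM0.le
      nlinarith
    exact le_of_mul_le_mul_left h1 hn0
  have hT1 : n * T ≤ 13 * (β * f * M) := by
    have h1 := mul_le_mul_of_nonneg_right hβn hT0
    have h2 := mul_le_mul_of_nonneg_left hY1 hβ.le
    nlinarith
  have hne : (univ : Finset (V × V)).Nonempty := by
    have h1 : 0 < (univ : Finset V).card := by
      have : (0 : ℝ) < (univ : Finset V).card := hn ▸ hn0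
      exact_mod_cast this
    obtain ⟨x, -⟩ := card_pos.mp h1
    exact ⟨(x, x), mem_univ _⟩
  obtain ⟨⟨u, v⟩, -, hmin⟩ := exists_min_image univ (fun z : V × V =>
    β * cb a univ z.1 z.2 + tau a univ z.1 + tau a univ z.2) hne
  set w : ℝ := β * cb a univ u v + tau a univ u + tau a univ v with hw
  have h1 : ∑ x, ∑ y, a x y * w ≤
      ∑ x, ∑ y, a x y * (β * cb a univ x y + tau a univ x + tau a univ y) :=
    sum_le_sum fun x _ => sum_le_sum fun y _ =>
      mul_le_mul_of_nonneg_left (hmin (x, y) (mem_univ _)) (h.nonneg x y)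
  have h2 : ∑ x, ∑ y, a x y * w = M * w := by
    rw [sum_left univ (fun _ => w), ← sum_mul, hMdef, MM]
  have h3 : ∑ x, dg a univ x * tau a univ x ≤ n * T := by
    rw [hTdef, TT, mul_sum]
    exact sum_le_sum fun x _ => mul_le_mul_of_nonneg_right (hn ▸ h.dg_le univ x)
      (h.tau_nonneg univ x)
  have h4 : ∑ x, ∑ y, a x y * (β * cb a univ x y + tau a univ x + tau a univ y) =
      β * (Y + T) + 2 * ∑ x, dg a univ x * tau a univ x := by
    simp only [mul_add, sum_add_distrib]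
    rw [sum_left univ (tau a univ), h.sum_right univ (tau a univ), ← mul_add, ← hS, mul_sum]
    have : ∀ x, ∑ y, a x y * (β * cb a univ x y) = β * ∑ y, a x y * cb a univ x y := fun x => by
      rw [mul_sum]
      exact sum_congr rfl fun y _ => by ring
    simp only [this]
    ring
  have h5 : M * w ≤ M * (43 * (β * f)) := by
    have h6 := mul_le_mul_of_nonneg_left hY1 hβ.le
    have h7 : β * T ≤ n * T := mul_le_mul_of_nonneg_right (by linarith) hT0
    nlinarith
  have h8 : w ≤ 43 * (β * f) := le_of_mul_le_mul_left h5 hM0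
  have h9 := h.cb_nonneg univ u v
  have h10 := h.tau_nonneg univ u
  have h11 := h.tau_nonneg univ v
  refine ⟨u, v, ?_, ?_⟩
  · have : β * cb a univ u v ≤ β * (43 * f) := by linarith
    exact le_of_mul_le_mul_left this hβ
  · have := mul_nonneg hβ.le h9
    linarith

/-- Indicator of pairs on different sides of the cut given by `p`. -/
def kap (p : V → ℝ) (x y : V) : ℝ := p x * (1 - p y) + (1 - p x) * p y

/-- A cut with few edges inside the parts. -/
lemma Bit.cut (h : Bit a) {n : ℝ} (hn : (univ : Finset V).card = n) (u v : V) :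
    MM a univ - (tau a univ u + tau a univ v + 2 * n * cb a univ u v) ≤
      ∑ x, ∑ y, kap (a u) x y * a x y := by
  have hτ : ∀ u, ∑ x, ∑ y, a x y * (a u x * a u y) = tau a univ u := fun u => by
    simp only [tau, cd, mul_sum]
    exact sum_congr rfl fun x _ => sum_congr rfl fun y _ => by ring
  have h1 : ∑ x, ∑ y, a x y ≤ ∑ x, ∑ y, (kap (a u) x y * a x y + a x y * (a u x * a u y) +
      a x y * (a v x * a v y) + (1 - a u x) * (1 - a v x) + (1 - a u y) * (1 - a v y)) := by
    refine sum_le_sum fun x _ => sum_le_sum fun y _ => ?_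
    unfold kap
    rcases h.bit x y with e | e <;> rcases h.bit u x with e1 | e1 <;>
      rcases h.bit u y with e2 | e2 <;> rcases h.bit v x with e3 | e3 <;>
      rcases h.bit v y with e4 | e4 <;> rw [e, e1, e2, e3, e4] <;> norm_num
  simp only [sum_add_distrib, hτ, sum_const, nsmul_eq_mul, hn, ← mul_sum] at h1
  simp only [MM, dg, cb]
  linarith

omit [Fintype V] in
lemma kap_bit {p : V → ℝ} (hp : ∀ x, p x = 0 ∨ p x = 1) (x y : V) :
    kap p x y = 0 ∨ kap p x y = 1 := by
  unfold kap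
  rcases hp x with e | e <;> rcases hp y with e' | e' <;> rw [e, e'] <;> norm_num

lemma sum_kap (p : V → ℝ) {n : ℝ} (hn : (univ : Finset V).card = n) :
    ∑ x, ∑ y, kap p x y ≤ n ^ 2 / 2 := by
  have h1 : ∑ x, (1 - p x) = n - ∑ x, p x := by
    rw [sum_sub_distrib, sum_const, nsmul_eq_mul, hn, mul_one]
  simp only [kap, sum_add_distrib, ← mul_sum, ← sum_mul, h1]
  nlinarith [sq_nonneg (n - 2 * ∑ x, p x)]

/-- Deleting a set of vertices. -/
lemma Bit.delete (h : Bit a) (C : Finset V) :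
    MM a univ - 2 * ∑ z ∈ C, dg a univ z ≤ MM a (univ \ C) := by
  have h1 : ∑ x ∈ univ \ C, dg a univ x + ∑ x ∈ C, dg a univ x = MM a univ :=
    sum_sdiff (subset_univ C)
  have h2 : ∀ x, dg a (univ \ C) x + dg a C x = dg a univ x := fun x => sum_sdiff (subset_univ C)
  have h3 : ∑ x ∈ univ \ C, dg a C x ≤ ∑ z ∈ C, dg a univ z := by
    simp only [dg]
    rw [sum_comm]
    refine sum_le_sum fun z _ => ?_
    refine le_trans (le_of_eq (sum_congr rfl fun x _ => h.symm x z)) ?_
    exact sum_le_sum_of_subset_of_nonneg (subset_univ _) fun x _ _ => h.nonneg z x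
  have h4 : ∑ x ∈ univ \ C, dg a univ x = MM a (univ \ C) + ∑ x ∈ univ \ C, dg a C x := by
    rw [MM, ← sum_add_distrib]
    exact sum_congr rfl fun x _ => (h2 x).symm
  linarith

/-- Few vertices have small degree. -/
lemma few {n f : ℝ} (hn : (univ : Finset V).card = n) (hn0 : 0 < n)
    (hM : n ^ 2 / 2 - 2 * f * n ≤ MM a univ) (hY : 0 ≤ n * MM a univ - 2 * QQ a univ)
    (C : Finset V) (hC : ∀ z ∈ C, dg a univ z ≤ n / 4) : (C.card : ℝ) ≤ 16 * f := by
  have h1 : ∑ x, (dg a univ x - n / 2) ^ 2 = QQ a univ - n * MM a univ + n ^ 3 / 4 := by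
    have : ∀ x, (dg a univ x - n / 2) ^ 2 = dg a univ x ^ 2 - n * dg a univ x + n ^ 2 / 4 :=
      fun x => by ring
    simp only [this, sum_add_distrib, sum_sub_distrib, sum_const, nsmul_eq_mul, hn, ← mul_sum,
      QQ, MM]
    ring
  have h2 : ∑ x ∈ C, (dg a univ x - n / 2) ^ 2 ≤ ∑ x, (dg a univ x - n / 2) ^ 2 :=
    sum_le_sum_of_subset_of_nonneg (subset_univ _) fun x _ _ => sq_nonneg _
  have h3 : ∑ _x ∈ C, (n / 4) ^ 2 ≤ ∑ x ∈ C, (dg a univ x - n / 2) ^ 2 :=
    sum_le_sum fun x hx => by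
      have := hC x hx
      nlinarith
  rw [sum_const, nsmul_eq_mul] at h3
  have h4 := mul_le_mul_of_nonneg_left hM hn0.le
  have h5 : n ^ 2 * C.card ≤ n ^ 2 * (16 * f) := by nlinarith
  exact le_of_mul_le_mul_left h5 (by positivity)

/-- Few paths of length three in a sparse relation. -/
lemma paths {μ : V → V → ℝ} {α γ : V → ℝ} {n d : ℝ} (hn : (univ : Finset V).card = n)
    (hd : 0 ≤ d) (hμ : ∀ x y, 0 ≤ μ x y)
    (hα : ∀ x, α x = 0 ∨ (α x = 1 ∧ ∑ y, μ x y ≤ d))
    (hγ : ∀ x, γ x = 0 ∨ (γ x = 1 ∧ ∑ y, μ x y ≤ d)) :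
    ∑ x, ∑ y, α x * ∑ y', μ x y' * (γ y' * ∑ x', μ y' x' * (α x' * μ x' y)) ≤ n * d ^ 3 := by
  have step : ∀ (φ ψ : V → ℝ) (c : ℝ), 0 ≤ c → (∀ x, φ x = 0 ∨ (φ x = 1 ∧ ∑ y, μ x y ≤ d)) →
      (∀ y, ψ y ≤ c) → ∀ x, φ x * ∑ y, μ x y * ψ y ≤ d * c := by
    intro φ ψ c hc hφ hψ x
    rcases hφ x with e | ⟨e, e'⟩
    · rw [e, zero_mul]
      positivity
    · rw [e, one_mul]
      refine le_trans (sum_le_sum fun y _ => mul_le_mul_of_nonneg_left (hψ y) (hμ x y)) ?_
      rw [← sum_mul]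
      exact mul_le_mul_of_nonneg_right e' hc
  have s1 := step α (fun _ => 1) 1 zero_le_one hα fun _ => le_rfl
  have s2 := step γ _ _ (by positivity) hγ s1
  have s3 := step α _ _ (by positivity) hα s2
  have h1 : ∀ x, ∑ y, α x * ∑ y', μ x y' * (γ y' * ∑ x', μ y' x' * (α x' * μ x' y)) =
      α x * ∑ y', μ x y' * (γ y' * ∑ x', μ y' x' * (α x' * ∑ y, μ x' y * 1)) := fun x => by
    simp only [mul_sum, mul_one]
    rw [sum_comm]
    exact sum_congr rfl fun y' _ => sum_comm
  simp only [h1]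
  refine (sum_le_sum fun x _ => s3 x).trans (le_of_eq ?_)
  rw [sum_const, nsmul_eq_mul, hn]
  ring

/-- The four covering bounds for the edges between the typical parts. -/
lemma Bit.cover (h : Bit a) {n β d δ : ℝ} (hn : (univ : Finset V).card = n) (hδ : 0 < δ)
    (hβ : 0 < β) (hd : 0 ≤ d) (hc : ∀ x y, a x y = 1 → cd a univ x y ≤ β)
    (htri : ∀ x y, a x y = 1 → ∃ z, a z x = 1 ∧ a z y = 1) {p α γ : V → ℝ}
    (hpb : ∀ x, p x = 0 ∨ p x = 1)
    (hαb : ∀ x, α x = 0 ∨ (α x = 1 ∧ p x = 0 ∧ ∑ y, kap p x y * (1 - a x y) ≤ d))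
    (hγb : ∀ x, γ x = 0 ∨ (γ x = 1 ∧ p x = 1 ∧ ∑ y, kap p x y * (1 - a x y) ≤ d)) :
    ∃ C : Finset V, (∀ z ∈ C, ∑ x, a z x * α x ≤ β + d ∧ ∑ x, a z x * γ x ≤ β + d) ∧
      ∑ x, ∑ y, α x * γ y * a x y ≤ C.card * (β + d) ^ 2 ∧
      δ * (1 + δ) * β ^ 2 * ∑ x, ∑ y, α x * γ y * a x y ≤
        δ * (1 + δ) * β ^ 2 * (C.card * ((2 + δ) * β ^ 2)) + n * d ^ 3 ∧
      ∀ N, ∑ x, ∑ y, α x * γ y * a x y = N → 0 < N → 0 < d → d ≤ n →
        29 * (N * Real.log N) ≤ 22 * (N * (Real.log (n * d) + Real.log 2) +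
          C.card * (β ^ 2 * Real.log (n / d))) + 14 * (N * Real.log (C.card * β)) ∧
        ∃ T S : ℝ, N ^ 2 ≤ C.card * T ∧ T ≤ β ^ 2 * N + S ∧
          S ^ 2 ≤ n * d * (β * d * T + n ^ 3 * β ^ 3) := by
  have hα0 : ∀ x, 0 ≤ α x := fun x => by rcases hαb x with e | ⟨e, -⟩ <;> simp [e]
  have hγ0 : ∀ x, 0 ≤ γ x := fun x => by rcases hγb x with e | ⟨e, -⟩ <;> simp [e]
  have hα1 : ∀ x, α x ≤ 1 := fun x => by rcases hαb x with e | ⟨e, -⟩ <;> simp [e]
  have hγ1 : ∀ x, γ x ≤ 1 := fun x => by rcases hγb x with e | ⟨e, -⟩ <;> simp [e]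
  set μ : V → V → ℝ := fun x y => kap p x y * (1 - a x y) with hμ
  have hμ0 : ∀ x y, 0 ≤ μ x y := fun x y => mul_nonneg
    (by rcases kap_bit hpb x y with e | e <;> simp [e]) (sub_nonneg.2 (h.le_one x y))
  have hμ1 : ∀ x y, α x = 1 → γ y = 1 → μ x y = 1 - a x y ∧ μ y x = 1 - a x y := by
    intro x y hx hy
    have e1 := ((hαb x).resolve_left (by rw [hx]; norm_num)).2.1
    have e2 := ((hγb y).resolve_left (by rw [hy]; norm_num)).2.1
    simp [hμ, kap, e1, e2, h.symm y x]
  set C : Finset V := univ.filter fun z =>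
    (∃ x, α x = 1 ∧ a z x = 1) ∧ ∃ y, γ y = 1 ∧ a z y = 1 with hC
  set X : V → ℝ := fun z => ∑ x, a z x * α x with hX
  set Y : V → ℝ := fun z => ∑ x, a z x * γ x with hY
  have hY0 : ∀ z, 0 ≤ Y z := fun z => sum_nonneg fun x _ => mul_nonneg (h.nonneg z x) (hγ0 x)
  have hcd : ∀ (z x : V) (φ : V → ℝ), a z x = 1 → (∀ y, φ y ≤ 1) →
      ∑ y, a z y * φ y * a x y ≤ β := fun z x φ h1 h2 =>
    le_trans (sum_le_sum fun y _ => mul_le_mul_of_nonneg_right
      (mul_le_of_le_one_right (h.nonneg z y) (h2 y)) (h.nonneg x y)) (hc z x h1)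
  have hside : ∀ (z x : V) (φ : V → ℝ), a z x = 1 →
      (∀ y, φ y = 0 ∨ (φ y = 1 ∧ μ x y = 1 - a x y)) →
      ∑ y, a z y * φ y ≤ β + ∑ y, μ x y * (φ y * a z y) := by
    intro z x φ h1 h3
    have h5 := hcd z x φ h1 fun y => by rcases h3 y with e | ⟨e, -⟩ <;> simp [e]
    have h4 : ∑ y, a z y * φ y = ∑ y, a z y * φ y * a x y + ∑ y, μ x y * (φ y * a z y) := by
      rw [← sum_add_distrib]
      refine sum_congr rfl fun y _ => ?_
      rcases h3 y with e | ⟨e, e'⟩
      · rw [e]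
        ring
      · rw [e, e']
        ring
    linarith
  have hsα : ∀ z y, a z y = 1 → γ y = 1 → X z ≤ β + ∑ x, μ y x * (α x * a z x) :=
    fun z y h1 h2 => hside z y α h1 fun x => (hαb x).imp_right fun e =>
      ⟨e.1, by rw [(hμ1 x y e.1 h2).2, h.symm]⟩
  have hsγ : ∀ z x, a z x = 1 → α x = 1 → Y z ≤ β + ∑ y, μ x y * (γ y * a z y) :=
    fun z x h1 h2 => hside z x γ h1 fun y => (hγb y).imp_right fun e =>
      ⟨e.1, (hμ1 x y h2 e.1).1⟩
  have hdrop : ∀ (z x : V) (φ : V → ℝ), (∀ y, φ y ≤ 1) →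
      ∑ y, μ x y * (φ y * a z y) ≤ ∑ y, μ x y := fun z x φ h1 => sum_le_sum fun y _ =>
    mul_le_of_le_one_right (hμ0 x y) ((mul_le_of_le_one_left (h.nonneg z y) (h1 y)).trans
      (h.le_one z y))
  have hXY : ∀ z ∈ C, X z ≤ β + d ∧ Y z ≤ β + d := by
    intro z hz
    obtain ⟨⟨x, hx1, hx2⟩, y, hy1, hy2⟩ := (mem_filter.mp hz).2
    have e1 := ((hαb x).resolve_left (by rw [hx1]; norm_num)).2.2
    have e2 := ((hγb y).resolve_left (by rw [hy1]; norm_num)).2.2
    exact ⟨by linarith [hsα z y hy2 hy1, hdrop z y α hα1],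
      by linarith [hsγ z x hx2 hx1, hdrop z x γ hγ1]⟩
  have hcase : ∀ x y, α x * γ y * a x y = 0 ∨
      (α x = 1 ∧ γ y = 1 ∧ a x y = 1 ∧ ∃ z ∈ C, a z x = 1 ∧ a z y = 1) := by
    intro x y
    rcases hαb x with e1 | ⟨e1, -⟩
    · exact Or.inl (by rw [e1]; ring)
    rcases hγb y with e2 | ⟨e2, -⟩
    · exact Or.inl (by rw [e2]; ring)
    rcases h.bit x y with e3 | e3
    · exact Or.inl (by rw [e3]; ring)
    obtain ⟨z, hz1, hz2⟩ := htri x y e3
    exact Or.inr ⟨e1, e2, e3, z, mem_filter.mpr ⟨mem_univ _, ⟨x, e1, hz1⟩, y, e2, hz2⟩, hz1, hz2⟩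
  have g1 : ∀ x y z, 0 ≤ a z x * α x * (a z y * γ y) := fun x y z =>
    mul_nonneg (mul_nonneg (h.nonneg z x) (hα0 x)) (mul_nonneg (h.nonneg z y) (hγ0 y))
  refine ⟨C, hXY, ?_, ?_, fun N hN hN0 hd0 hdn => ?_⟩
  · have h1 : ∑ x, ∑ y, α x * γ y * a x y ≤ ∑ x, ∑ y, ∑ z ∈ C, a z x * α x * (a z y * γ y) := by
      refine sum_le_sum fun x _ => sum_le_sum fun y _ => ?_
      rcases hcase x y with e | ⟨e1, e2, e3, z, hz, hz1, hz2⟩
      · rw [e]
        exact sum_nonneg fun z _ => g1 x y z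
      · refine le_trans (le_of_eq ?_) (single_le_sum (fun z _ => g1 x y z) hz)
        rw [e1, e2, e3, hz1, hz2]
        norm_num
    have h2 : ∑ x, ∑ y, ∑ z ∈ C, a z x * α x * (a z y * γ y) = ∑ z ∈ C, X z * Y z := by
      simp only [hX, hY, sum_mul_sum]
      rw [sum_congr rfl fun x _ => sum_comm, sum_comm]
    have h3 := sum_le_sum (s := C) (f := fun z => X z * Y z) (g := fun _ => (β + d) ^ 2)
      fun z hz => by
        rw [sq]
        exact mul_le_mul (hXY z hz).1 (hXY z hz).2 (hY0 z) (by positivity)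
    rw [sum_const, nsmul_eq_mul] at h3
    linarith
  · set S : Finset V := C.filter fun z => X z ≤ (2 + δ) * β ∨ Y z ≤ (2 + δ) * β with hS
    set P : V → V → ℝ := fun x y =>
      α x * ∑ y', μ x y' * (γ y' * ∑ x', μ y' x' * (α x' * μ x' y)) with hP
    have hin : ∀ y' y, 0 ≤ ∑ x', μ y' x' * (α x' * μ x' y) := fun y' y =>
      sum_nonneg fun x' _ => mul_nonneg (hμ0 _ _) (mul_nonneg (hα0 _) (hμ0 _ _))
    have hP0 : ∀ x y, 0 ≤ P x y := fun x y => mul_nonneg (hα0 x) (sum_nonneg fun y' _ =>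
      mul_nonneg (hμ0 _ _) (mul_nonneg (hγ0 _) (hin y' y)))
    have hq : 0 < δ * (1 + δ) * β ^ 2 := by positivity
    have g2 : ∀ x y z, 0 ≤ a z x * α x * (a z y * γ y) * a x y := fun x y z =>
      mul_nonneg (g1 x y z) (h.nonneg x y)
    have h1 : ∑ x, ∑ y, δ * (1 + δ) * β ^ 2 * (α x * γ y * a x y) ≤ ∑ x, ∑ y,
        (δ * (1 + δ) * β ^ 2 * ∑ z ∈ S, a z x * α x * (a z y * γ y) * a x y + P x y) := by
      refine sum_le_sum fun x _ => sum_le_sum fun y _ => ?_
      have s1 := mul_nonneg hq.le (sum_nonneg (s := S) fun z _ => g2 x y z)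
      have s2 := hP0 x y
      rcases hcase x y with e | ⟨e1, e2, e3, z, hz, hz1, hz2⟩
      · rw [e]
        linarith
      by_cases hz3 : X z ≤ (2 + δ) * β ∨ Y z ≤ (2 + δ) * β
      · have s3 := single_le_sum (s := S) (fun z _ => g2 x y z) (mem_filter.mpr ⟨hz, hz3⟩)
        have s4 : α x * γ y * a x y = a z x * α x * (a z y * γ y) * a x y := by
          rw [hz1, hz2]
          ring
        rw [s4]
        linarith [mul_le_mul_of_nonneg_left s3 hq.le]
      · push Not at hz3
        have s3 : ∀ y', γ y' * a z y' * (δ * β) ≤ γ y' * ∑ x', μ y' x' * (α x' * μ x' y) := by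
          intro y'
          rcases hγb y' with e4 | ⟨e4, -⟩
          · simp [e4]
          rcases h.bit z y' with e5 | e5
          · simpa [e4, e5] using hin y' y
          have s4 := hsα z y' e5 e4
          have s5 := hcd z y α hz2 hα1
          have s6 : ∑ x', μ y' x' * (α x' * a z x') ≤
              ∑ x', a z x' * α x' * a y x' + ∑ x', μ y' x' * (α x' * μ x' y) := by
            rw [← sum_add_distrib]
            refine sum_le_sum fun x' _ => ?_
            rcases hαb x' with e6 | ⟨e6, -⟩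
            · simp [e6]
            rw [(hμ1 x' y e6 e2).1, (hμ1 x' y' e6 e4).2, e6, h.symm y x']
            rcases h.bit x' y with e7 | e7 <;> rcases h.bit x' y' with e8 | e8 <;>
              rcases h.bit z x' with e9 | e9 <;> rw [e7, e8, e9] <;> norm_num
          rw [e4, e5]
          linarith [hz3.1]
        have s7 : (∑ y', μ x y' * (γ y' * a z y')) * (δ * β) ≤ P x y := by
          simp only [hP, e1, one_mul, sum_mul]
          refine sum_le_sum fun y' _ => ?_
          rw [mul_assoc]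
          exact mul_le_mul_of_nonneg_left (s3 y') (hμ0 x y')
        have s8 : (1 + δ) * β ≤ ∑ y', μ x y' * (γ y' * a z y') := by
          linarith [hsγ z x hz1 e1, hz3.2]
        have s9 := mul_le_mul_of_nonneg_right s8 (mul_pos hδ hβ).le
        have s10 : α x * γ y * a x y = 1 := by rw [e1, e2, e3]; norm_num
        rw [s10]
        linarith
    have h2 : ∑ x, ∑ y, ∑ z ∈ S, a z x * α x * (a z y * γ y) * a x y ≤
        C.card * ((2 + δ) * β ^ 2) := by
      rw [sum_congr rfl fun x _ => sum_comm, sum_comm]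
      have h3 : ∀ z ∈ S, ∑ x, ∑ y, a z x * α x * (a z y * γ y) * a x y ≤ (2 + δ) * β ^ 2 := by
        intro z hz
        have h4 : ∀ φ ψ : V → ℝ, (∀ x, 0 ≤ φ x) → (∀ x, ψ x ≤ 1) →
            ∑ x, a z x * φ x ≤ (2 + δ) * β →
            ∑ x, ∑ y, a z x * φ x * (a z y * ψ y) * a x y ≤ (2 + δ) * β ^ 2 := by
          intro φ ψ h5 h6 h7
          have h8 : ∑ x, ∑ y, a z x * φ x * (a z y * ψ y) * a x y ≤ ∑ x, a z x * φ x * β := by
            refine sum_le_sum fun x _ => ?_
            simp only [mul_assoc (a z x * φ x), ← mul_sum]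
            rcases h.bit z x with e | e
            · simp [e]
            · exact mul_le_mul_of_nonneg_left (hcd z x ψ e h6) (mul_nonneg (h.nonneg z x) (h5 x))
          rw [← sum_mul] at h8
          nlinarith [mul_le_mul_of_nonneg_right h7 hβ.le]
        rcases (mem_filter.mp hz).2 with e | e
        · exact h4 α γ hα0 hγ1 e
        · refine le_trans (le_of_eq ?_) (h4 γ α hγ0 hα1 e)
          rw [sum_comm]
          refine sum_congr rfl fun x _ => sum_congr rfl fun y _ => ?_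
          rw [h.symm y x]
          ring
      refine (sum_le_sum h3).trans ?_
      rw [sum_const, nsmul_eq_mul]
      exact mul_le_mul_of_nonneg_right (Nat.cast_le.mpr (card_filter_le _ _)) (by positivity)
    have h3 : ∑ x, ∑ y, P x y ≤ n * d ^ 3 := paths hn hd hμ0
      (fun x => (hαb x).imp_right fun e => ⟨e.1, e.2.2⟩)
      (fun x => (hγb x).imp_right fun e => ⟨e.1, e.2.2⟩)
    simp only [sum_add_distrib, ← mul_sum] at h1
    linarith [mul_le_mul_of_nonneg_left h2 hq.le]
  · have hn0 : 0 < n := hd0.trans_le hdn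
    have hj1 : ∀ x y, α x * γ y * a x y = 1 →
        α x = 1 ∧ γ y = 1 ∧ a x y = 1 ∧ ∃ z ∈ C, a z x = 1 ∧ a z y = 1 := fun x y e =>
      (hcase x y).resolve_left (by rw [e]; norm_num)
    obtain ⟨c, hc0⟩ : ∃ c : V → V → V, ∀ x y, α x * γ y * a x y = 1 →
        c x y ∈ C ∧ a (c x y) x = 1 ∧ a (c x y) y = 1 := by
      have : ∀ x y, ∃ z, α x * γ y * a x y = 1 → z ∈ C ∧ a z x = 1 ∧ a z y = 1 := fun x y => by
        by_cases e : α x * γ y * a x y = 1
        · obtain ⟨z, hz⟩ := (hj1 x y e).2.2.2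
          exact ⟨z, fun _ => hz⟩
        · exact ⟨x, fun e' => absurd e' e⟩
      choose c hc0 using this
      exact ⟨c, hc0⟩
    have hj : ∀ x y, α x * γ y * a x y = 0 ∨ α x * γ y * a x y = 1 := fun x y =>
      (hcase x y).imp_right fun e => by rw [e.1, e.2.1, e.2.2.1]; norm_num
    set κ := cl c fun x y => α x * γ y * a x y with hκ
    have hcl : ∀ z x y, κ z x y ≤ a z x * a z y * a x y := fun z x y => by
      have h0 := mul_nonneg (mul_nonneg (h.nonneg z x) (h.nonneg z y)) (h.nonneg x y)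
      simp only [hκ, cl]
      split_ifs with e
      · rcases hj x y with e1 | e1
        · rwa [e1]
        · rw [e1, ← e, (hc0 x y e1).2.1, (hc0 x y e1).2.2, (hj1 x y e1).2.2.1]
          norm_num
      · exact h0
    have hrow : ∀ z x, ∑ y, a z x * a z y * a x y ≤ a z x * β := fun z x => by
      rcases h.bit z x with e | e
      · simp [e]
      · simpa [e] using hcd z x (fun _ => 1) e fun _ => le_rfl
    have hcol : ∀ z y, ∑ x, κ z x y ≤ a z y * β := fun z y =>
      (sum_le_sum fun x _ => (hcl z x y).trans_eq (by rw [h.symm x y]; ring)).trans (hrow z y)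
    have hle : ∀ z x, a z x * β ≤ β := fun z x => mul_le_of_le_one_left hβ.le (h.le_one z x)
    have hb0 : ∀ x y, 0 ≤ α x * γ y * (1 - a x y) := fun x y =>
      mul_nonneg (mul_nonneg (hα0 x) (hγ0 y)) (sub_nonneg.2 (h.le_one x y))
    have hκ1 : ∀ z x y, κ z x y ≠ 0 → c x y = z ∧ α x * γ y * a x y = 1 := fun z x y e => by
      simp only [hκ, cl] at e
      split_ifs at e with e1
      · exact ⟨e1, (hj x y).resolve_left e⟩
      · exact absurd rfl e
    have hκ2 : ∀ z x y, κ z x y ≠ 0 → a z x = 1 ∧ a z y = 1 := fun z x y e => by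
      rw [← (hκ1 z x y e).1]
      exact (hc0 x y (hκ1 z x y e).2).2
    have hκ3 : ∀ x y, ∑ z, κ z x y = α x * γ y * a x y := fun x y => by simp [hκ, cl]
    have hrow' : ∀ z x, ∑ y, κ z x y ≤ a z x * β := fun z x =>
      (sum_le_sum fun y _ => hcl z x y).trans (hrow z x)
    have hsq : ∀ (z x : V) (φ : V → ℝ), a z x = 1 → (∀ y, φ y ≤ a z y * β) →
        ∑ y, φ y * a x y ≤ β ^ 2 := fun z x φ e hφ => by
      have h1 := mul_le_mul_of_nonneg_left (hcd z x (fun _ => 1) e fun _ => le_rfl) hβ.le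
      rw [mul_sum, ← sq] at h1
      exact (sum_le_sum fun y _ => (mul_le_mul_of_nonneg_right (hφ y)
        (h.nonneg x y)).trans_eq (by ring)).trans h1
    refine ⟨?_, cs_count (κ := κ) (a := a) (b := fun x y => α x * γ y * (1 - a x y)) C hn hβ.le hd
      (fun z x y => ?_) (fun z x y e => (hκ1 z x y e).1 ▸ (hc0 x y (hκ1 z x y e).2).1) ?_
      (fun x y => ?_) (fun z x => (hrow' z x).trans (hle z x))
      (fun z y => (hcol z y).trans (hle z y)) h.nonneg (fun x y => ?_)
      (fun z x y x' y' e e' => ?_) (fun x => ?_) (fun y => ?_)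
      (fun z x y' e => hsq z x _ (hκ2 z x y' e).1 (hcol z)) fun z x' y e => ?_⟩
    rotate_left
    · by_cases e : κ z x y = 0
      · exact e.ge
      · have := hκ1 z x y e
        simp [hκ, cl, this.1, this.2]
    · rw [← hN, sum_comm]
      exact sum_congr rfl fun x _ => by rw [sum_comm]; simp only [hκ3]
    · rcases hj x y with e | e <;> simp [hκ3, e]
    · rcases hαb x with e1 | ⟨e1, -⟩ <;> rcases hγb y with e2 | ⟨e2, -⟩ <;>
        rcases h.bit x y with e3 | e3 <;> simp [e1, e2, e3]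
    · simp [(hj1 x y' (hκ1 z x y' e).2).1, (hj1 x' y (hκ1 z x' y e').2).2.1]
    · rcases hαb x with e | ⟨e, -, e'⟩
      · simpa [e] using hd
      refine le_trans (sum_le_sum fun y _ => ?_) e'
      rcases hγb y with e2 | ⟨e2, -⟩
      · simpa [e2] using hμ0 x y
      · rw [e, e2, one_mul, one_mul]
        exact (hμ1 x y e e2).1.ge
    · rcases hγb y with e | ⟨e, -, e'⟩
      · simpa [e] using hd
      refine le_trans (sum_le_sum fun x _ => ?_) e'
      rcases hαb x with e2 | ⟨e2, -⟩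
      · simpa [e2] using hμ0 y x
      · rw [e, e2, one_mul, one_mul]
        exact (hμ1 x y e2 e).2.ge
    · simp only [fun x => h.symm x y]
      exact hsq z y _ (hκ2 z x' y e).2 (hrow' z)
    refine ent_count hj C (fun x y e => (hc0 x y e).1) hβ hN hN0
      (fun z x => ((sum_le_sum fun y _ => hcl z x y).trans (hrow z x)).trans (hle z x))
      (fun z y => (hcol z y).trans (hle z y))
      (fun x y => α x * γ y * (1 - a x y) / (n * d) + 1 / n ^ 2) a
      (fun x y => by have := hb0 x y; positivity) ?_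
      (Real.log_nonneg ((one_le_div hd0).mpr hdn)) (fun x y x' y' e1 e2 => ?_) fun x y' e => ?_
    · have h1 : ∀ x, ∑ y, α x * γ y * (1 - a x y) ≤ d := fun x => by
        rcases hαb x with e | ⟨e, -, e'⟩
        · simpa [e] using hd
        refine le_trans (sum_le_sum fun y _ => ?_) e'
        rcases hγb y with e2 | ⟨e2, -⟩
        · simpa [e2] using hμ0 x y
        · rw [e, e2, one_mul, one_mul]
          exact (hμ1 x y e e2).1.ge
      have h2 := sum_le_sum fun x (_ : x ∈ univ) => h1 x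
      simp only [sum_add_distrib, ← sum_div, sum_const, nsmul_eq_mul, hn] at h2 ⊢
      have h3 := (div_le_one (by positivity)).mpr h2
      have h4 : n * (n * 1) / n ^ 2 = 1 := by field_simp
      linarith
    · rw [(hj1 x y' e1).1, (hj1 x' y e2).2.1]
      rcases h.bit x y with e | e <;> rw [e]
      · rw [zero_mul, add_zero, ← Real.log_inv]
        refine Real.log_le_log (by positivity) (inv_le_of_inv_le₀ (by positivity) ?_)
        simp
        positivity
      · rw [one_mul (Real.log _), ← Real.log_mul (by positivity) (by positivity), ← Real.log_inv]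
        refine le_of_eq (congrArg _ ?_)
        field_simp
        ring
    · refine (sum_le_sum fun y _ => mul_le_mul_of_nonneg_right (hcol _ y) (h.nonneg x y)).trans ?_
      have h1 := mul_le_mul_of_nonneg_left
        (hcd _ x (fun _ => 1) (hc0 x y' e).2.1 fun _ => le_rfl) hβ.le
      rw [mul_sum, ← sq] at h1
      exact le_trans (le_of_eq (sum_congr rfl fun y _ => by ring)) h1

/-- The main inequalities. -/
lemma Bit.core (h : Bit a) {n β d δ θ : ℝ} (hn : (univ : Finset V).card = n) (hδ : 0 < δ)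
    (hθ : 0 < θ) (hδ1 : δ ≤ 1 / 600) (hβ : 0 < β) (hβn : β ≤ δ * n) (hd : 0 < d) (hdn : d ≤ δ * n)
    (hM : n ^ 2 / 2 - 2 * (δ * d) * n ≤ MM a univ) (hc : ∀ x y, a x y = 1 → cd a univ x y ≤ β)
    (htri : ∀ x y, a x y = 1 → ∃ z, a z x = 1 ∧ a z y = 1) :
    (1 - 551 * δ) * n ^ 2 ≤ 8 * (δ * d) * (β + d) ^ 2 ∧
      (d ^ 3 ≤ δ * (θ * (1 + θ) * β ^ 2) * n →
        (1 - 551 * δ) * n ^ 2 ≤ 8 * (δ * d) * ((2 + θ) * β ^ 2)) ∧
      n ^ 2 * (29 * Real.log (n ^ 2 / 10) - 22 * (Real.log (n * d) + Real.log 2) -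
        14 * Real.log (16 * (δ * d) * β)) ≤ 3520 * (δ * d * β ^ 2 * Real.log (n / d)) ∧
      (320 * (δ * d * β ^ 2) ≤ n ^ 2 → n ^ 3 ≤ 12800 * (δ * d * d ^ 2 * β) ∨
        n ^ 4 ≤ 20480000 * ((δ * d) ^ 2 * d * β ^ 3)) := by
  have hn0 : 0 < n := by
    by_contra h0
    have := mul_nonpos_of_nonneg_of_nonpos hδ.le (not_lt.mp h0)
    linarith
  set f : ℝ := δ * d with hfd
  have hf : 0 < f := mul_pos hδ hd
  have hδn : δ * n ≤ n / 600 := by nlinarith
  have hf1 : f ≤ δ * n / 600 := by nlinarith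
  obtain ⟨u, v, hu1, hu2⟩ := h.pair hn hβ (by linarith) (by linarith) hM hc
  set p : V → ℝ := a u with hp
  have hpb : ∀ x, p x = 0 ∨ p x = 1 := h.bit u
  have hcut : n ^ 2 / 2 - 89 * (f * n) ≤ ∑ x, ∑ y, kap p x y * a x y := by
    have h1 := h.cut hn u v
    have h2 := mul_le_mul_of_nonneg_left hu1 hn0.le
    have h3 : β * f ≤ n / 600 * f := mul_le_mul_of_nonneg_right (by linarith) hf.le
    have h4 := mul_nonneg hf.le hn0.le
    nlinarith
  set miss : V → ℝ := fun x => ∑ y, kap p x y * (1 - a x y) with hmiss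
  have hm0 : ∀ x, 0 ≤ miss x := fun x => sum_nonneg fun y _ => mul_nonneg
    (by rcases kap_bit hpb x y with e | e <;> simp [e]) (sub_nonneg.2 (h.le_one x y))
  have hm1 : ∑ x, miss x ≤ 89 * (f * n) := by
    have h1 := sum_kap p hn
    simp only [hmiss, mul_sub, mul_one, sum_sub_distrib]
    linarith
  set t : V → ℝ := fun x => if miss x ≤ d then 1 else 0 with ht
  have htb : ∀ x, t x = 0 ∨ (t x = 1 ∧ miss x ≤ d) := fun x => by
    simp only [ht]
    split_ifs with h0
    · exact Or.inr ⟨rfl, h0⟩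
    · exact Or.inl rfl
  set W : ℝ := ∑ x, (1 - t x) with hW
  have hW1 : W ≤ 89 * (δ * n) := by
    have h1 : d * W ≤ ∑ x, miss x := by
      rw [hW, mul_sum]
      refine sum_le_sum fun x _ => ?_
      simp only [ht]
      split_ifs with h0
      · simpa using hm0 x
      · simpa using (not_le.mp h0).le
    have h3 : d * W ≤ d * (89 * (δ * n)) := by
      rw [hfd] at hm1
      linarith
    exact le_of_mul_le_mul_left h3 hd
  set α : V → ℝ := fun x => (1 - p x) * t x with hα
  set γ : V → ℝ := fun x => p x * t x with hγ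
  obtain ⟨C, hXY, hc1, hc2, hc3⟩ := h.cover hn hθ hβ hd.le hc htri (p := p) (α := α) (γ := γ) hpb
    (fun x => by
      rcases hpb x with e | e <;> rcases htb x with e' | ⟨e', e2⟩
      · exact Or.inl (by simp [hα, e'])
      · exact Or.inr ⟨by simp [hα, e, e'], e, e2⟩
      · exact Or.inl (by simp [hα, e])
      · exact Or.inl (by simp [hα, e]))
    (fun x => by
      rcases hpb x with e | e <;> rcases htb x with e' | ⟨e', e2⟩
      · exact Or.inl (by simp [hγ, e])
      · exact Or.inl (by simp [hγ, e])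
      · exact Or.inl (by simp [hγ, e'])
      · exact Or.inr ⟨by simp [hγ, e, e'], e, e2⟩)
  have hdeg : ∀ z ∈ C, dg a univ z ≤ 93 * (δ * n) := by
    intro z hz
    have h1 : dg a univ z ≤ ∑ x, a z x * α x + ∑ x, a z x * γ x + W := by
      simp only [dg, hW, ← sum_add_distrib]
      refine sum_le_sum fun x _ => ?_
      simp only [hα, hγ]
      rcases h.bit z x with e | e <;> rcases htb x with e' | ⟨e', -⟩ <;> rw [e, e'] <;> norm_num
    linarith [(hXY z hz).1, (hXY z hz).2]
  set k : ℝ := (C.card : ℝ) with hk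
  have hk0 : 0 ≤ k := Nat.cast_nonneg _
  set N : ℝ := ∑ x, ∑ y, α x * γ y * a x y with hN
  have hcover : ∑ x, ∑ y, kap p x y * a x y ≤ 2 * N + 2 * (n * W) := by
    have h1 : ∑ x, ∑ y, kap p x y * a x y ≤ ∑ x, ∑ y,
        (α x * γ y * a x y + α y * γ x * a y x + (1 - t x) + (1 - t y)) := by
      refine sum_le_sum fun x _ => sum_le_sum fun y _ => ?_
      simp only [hα, hγ, kap, h.symm y x]
      rcases h.bit x y with e | e <;> rcases hpb x with e1 | e1 <;> rcases hpb y with e2 | e2 <;>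
        rcases htb x with e3 | ⟨e3, -⟩ <;> rcases htb y with e4 | ⟨e4, -⟩ <;>
        rw [e, e1, e2, e3, e4] <;> norm_num
    have h2 : ∑ x, ∑ y, α y * γ x * a y x = N := sum_comm
    simp only [sum_add_distrib, h2, sum_const, nsmul_eq_mul, hn, ← hW, ← hN] at h1
    rw [← mul_sum, ← hW] at h1
    linarith
  have hYn := h.Y_nonneg univ hβ (by rw [hn]; linarith) fun x _ y _ => hc x y
  rw [hn] at hYn
  have hk1 : k ≤ 16 * f := few hn hn0 hM hYn C fun z hz => by linarith [hdeg z hz]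
  have hk2 : k ≤ δ * n := by linarith [mul_pos hδ hn0]
  have hcard : ((univ \ C).card : ℝ) = n - k := by
    rw [card_sdiff_of_subset (subset_univ C), Nat.cast_sub (card_le_card (subset_univ C)), hn]
  have hman := h.mantel (univ \ C) hβ (by rw [hcard]; linarith) fun x _ y _ e =>
    le_trans (sum_le_sum_of_subset_of_nonneg (subset_univ _) fun z _ _ =>
      mul_nonneg (h.nonneg x z) (h.nonneg y z)) (hc x y e)
  rw [hcard] at hman
  have hdel := h.delete C
  have hds : ∑ z ∈ C, dg a univ z ≤ k * (93 * (δ * n)) := by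
    have := sum_le_sum hdeg
    simpa [hk] using this
  have hA : k * (1 - 187 * δ) ≤ 2 * f := by
    have h1 := mul_le_mul_of_nonneg_left hk2 hk0
    have h2 : 0 ≤ k * (δ * n) := mul_nonneg hk0 (by positivity)
    have h3 : n * (k * (1 - 187 * δ)) ≤ n * (2 * f) := by nlinarith
    exact le_of_mul_le_mul_left h3 hn0
  have hB : (1 - 360 * δ) * n ^ 2 ≤ 4 * N := by
    have h1 := mul_le_mul_of_nonneg_left hW1 hn0.le
    have h2 : f * n ≤ δ * n / 600 * n := mul_le_mul_of_nonneg_right hf1 hn0.le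
    have h3 : 0 ≤ δ * n * n := by positivity
    nlinarith
  have fin : ∀ b : ℝ, 0 ≤ b → N ≤ k * b + δ * n ^ 2 → (1 - 551 * δ) * n ^ 2 ≤ 8 * f * b := by
    intro b hb0 hb
    have h0 : (1 - 364 * δ) * n ^ 2 ≤ 4 * (k * b) := by linarith
    have h1 := mul_le_mul_of_nonneg_right hA hb0
    have h2 := mul_le_mul_of_nonneg_left h0 (show 0 ≤ 1 - 187 * δ by linarith)
    have h3 : 0 ≤ δ ^ 2 * n ^ 2 := by positivity
    linarith
  refine ⟨fin _ (sq_nonneg _) (hc1.trans (le_add_of_nonneg_right (by positivity))),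
    fun h3 => fin _ (by positivity) ?_, ?_⟩
  · have h4 := mul_le_mul_of_nonneg_left h3 hn0.le
    have h5 : θ * (1 + θ) * β ^ 2 * N ≤
        θ * (1 + θ) * β ^ 2 * (k * ((2 + θ) * β ^ 2) + δ * n ^ 2) := by linarith
    exact le_of_mul_le_mul_left h5 (by positivity)
  have hn2 : 0 < n ^ 2 := by positivity
  have h1 : n ^ 2 / 10 ≤ N := by linarith [mul_le_mul_of_nonneg_right hδ1 hn2.le]
  have h2 : 0 < N := by linarith
  have h3 : 0 < k := hk0.lt_of_ne' fun e => by rw [e] at hc1; linarith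
  obtain ⟨h4, T, S, t1, t2, t3⟩ := hc3 N rfl h2 hd (by linarith)
  refine ⟨?_, fun t4 => ?_⟩
  swap
  · have t5 : 2 * (k * β ^ 2) ≤ N := by linarith [mul_le_mul_of_nonneg_right hk1 (sq_nonneg β)]
    have t6 : 2 * (β ^ 2 * N) ≤ T := le_of_mul_le_mul_left
      (by linarith [mul_le_mul_of_nonneg_right t5 h2.le]) h3
    have t7 : 0 < T := lt_of_lt_of_le (by positivity) t6
    have t8 : n ^ 4 ≤ 1600 * (f * T) := by
      have := pow_le_pow_left₀ (by positivity) h1 2
      linarith [mul_le_mul_of_nonneg_right hk1 t7.le]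
    have t9 := pow_le_pow_left₀ (by positivity) (show T / 2 ≤ S by linarith) 2
    rcases le_total T (8 * (n * d ^ 2 * β)) with e | e
    · exact Or.inl (le_of_mul_le_mul_left
        (by linarith [mul_le_mul_of_nonneg_left e hf.le]) hn0)
    · have t10 : T ^ 2 ≤ 8 * (n ^ 4 * d * β ^ 3) := by
        linarith [mul_le_mul_of_nonneg_right e t7.le]
      have t11 := pow_le_pow_left₀ (by positivity) t8 2
      exact Or.inr (le_of_mul_le_mul_left
        (by linarith [mul_le_mul_of_nonneg_left t10 (sq_nonneg f)]) (pow_pos hn0 4))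
  have h5 := mul_le_mul_of_nonneg_left (Real.log_le_log (by positivity) h1) h2.le
  have h6 := mul_le_mul_of_nonneg_left (Real.log_le_log (by positivity)
    (mul_le_mul_of_nonneg_right hk1 hβ.le)) h2.le
  have h7 : 0 ≤ β ^ 2 * Real.log (n / d) :=
    mul_nonneg (sq_nonneg β) (Real.log_nonneg ((one_le_div hd).mpr (by linarith)))
  have h8 := mul_le_mul_of_nonneg_right hk1 h7
  have h9 := mul_nonneg hf.le h7
  set A := 29 * Real.log (n ^ 2 / 10) - 22 * (Real.log (n * d) + Real.log 2) -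
    14 * Real.log (16 * f * β) with hA'
  have h10 : N * A ≤ 352 * (f * (β ^ 2 * Real.log (n / d))) := by
    rw [hA']
    linarith
  rcases le_total A 0 with e | e
  · linarith [mul_nonpos_of_nonneg_of_nonpos hn2.le e]
  · linarith [mul_le_mul_of_nonneg_right h1 e]

end Pool.Agent.Lib.MP_a77646_co.Win
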