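import Mathlib

set_option autoImplicit false

namespace Pool.Agent.Lib.MP_a77646_co.Win

/-- Every simple graph with `n` vertices and `e` edges in which every edge lies in a triangle has
an edge that lies in at least `x` triangles. -/
def Forced (n e : ℕ) (x : ℝ) : Prop :=
  ∀ G : SimpleGraph (Fin n), G.edgeSet.ncard = e →
    (∀ u v, G.Adj u v → 1 ≤ (G.commonNeighbors u v).ncard) →
    ∃ u v, G.Adj u v ∧ x ≤ (G.commonNeighbors u v).ncard

/-- Some simple graph with `n` vertices and `e` edges has every edge in at least one and at most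
`x` triangles. -/
def Avoided (n e : ℕ) (x : ℝ) : Prop :=
  ∃ G : SimpleGraph (Fin n), G.edgeSet.ncard = e ∧ ∀ u v, G.Adj u v →
    1 ≤ (G.commonNeighbors u v).ncard ∧ ((G.commonNeighbors u v).ncard : ℝ) ≤ x

end Pool.Agent.Lib.MP_a77646_co.Win
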