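import Mathlib

/-! The inequality of Edwards for books, for a symmetric `0/1` matrix on a finite set. -/

set_option autoImplicit false

namespace Pool.Agent.Lib.MP_a77646_co.Win

open Finset

variable {V : Type}

/-- A symmetric `0/1` matrix. -/
structure Bit (a : V → V → ℝ) : Prop where
  bit : ∀ x y, a x y = 0 ∨ a x y = 1
  symm : ∀ x y, a x y = a y x

/-- Degree inside `S`. -/
def dg (a : V → V → ℝ) (S : Finset V) (x : V) : ℝ := ∑ y ∈ S, a x y

/-- Number of common neighbours inside `S`. -/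
def cd (a : V → V → ℝ) (S : Finset V) (x y : V) : ℝ := ∑ z ∈ S, a x z * a y z

/-- Number of common non-neighbours inside `S`. -/
def cb (a : V → V → ℝ) (S : Finset V) (x y : V) : ℝ := ∑ z ∈ S, (1 - a x z) * (1 - a y z)

/-- Twice the number of triangles at `x`. -/
def tau (a : V → V → ℝ) (S : Finset V) (x : V) : ℝ := ∑ y ∈ S, a x y * cd a S x y

/-- Twice the number of edges. -/
def MM (a : V → V → ℝ) (S : Finset V) : ℝ := ∑ x ∈ S, dg a S x

/-- Sum of the squares of the degrees. -/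
def QQ (a : V → V → ℝ) (S : Finset V) : ℝ := ∑ x ∈ S, dg a S x ^ 2

/-- Six times the number of triangles. -/
def TT (a : V → V → ℝ) (S : Finset V) : ℝ := ∑ x ∈ S, tau a S x

variable {a : V → V → ℝ}

lemma Bit.nonneg (h : Bit a) (x y : V) : 0 ≤ a x y := by
  rcases h.bit x y with e | e <;> simp [e]

lemma Bit.le_one (h : Bit a) (x y : V) : a x y ≤ 1 := by
  rcases h.bit x y with e | e <;> simp [e]

lemma Bit.dg_nonneg (h : Bit a) (S : Finset V) (x : V) : 0 ≤ dg a S x :=
  sum_nonneg fun y _ => h.nonneg x y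

lemma Bit.dg_le (h : Bit a) (S : Finset V) (x : V) : dg a S x ≤ S.card := by
  have := sum_le_sum (s := S) fun y _ => h.le_one x y
  simpa [dg] using this

lemma Bit.cd_nonneg (h : Bit a) (S : Finset V) (x y : V) : 0 ≤ cd a S x y :=
  sum_nonneg fun z _ => mul_nonneg (h.nonneg x z) (h.nonneg y z)

lemma Bit.cb_nonneg (h : Bit a) (S : Finset V) (x y : V) : 0 ≤ cb a S x y :=
  sum_nonneg fun z _ => mul_nonneg (sub_nonneg.2 (h.le_one x z)) (sub_nonneg.2 (h.le_one y z))

lemma Bit.tau_nonneg (h : Bit a) (S : Finset V) (x : V) : 0 ≤ tau a S x :=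
  sum_nonneg fun y _ => mul_nonneg (h.nonneg x y) (h.cd_nonneg S x y)

lemma Bit.TT_nonneg (h : Bit a) (S : Finset V) : 0 ≤ TT a S :=
  sum_nonneg fun x _ => h.tau_nonneg S x

lemma Bit.MM_nonneg (h : Bit a) (S : Finset V) : 0 ≤ MM a S :=
  sum_nonneg fun x _ => h.dg_nonneg S x

lemma cb_eq (S : Finset V) (x y : V) :
    cb a S x y = S.card - dg a S x - dg a S y + cd a S x y := by
  have : ∀ z, (1 - a x z) * (1 - a y z) = 1 - a x z - a y z + a x z * a y z := fun z => by ring
  simp only [cb, dg, cd, this, sum_add_distrib, sum_sub_distrib, sum_const, nsmul_eq_mul, mul_one]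

lemma sum_left (S : Finset V) (φ : V → ℝ) :
    ∑ x ∈ S, ∑ y ∈ S, a x y * φ x = ∑ x ∈ S, dg a S x * φ x := by
  simp only [dg, sum_mul]

lemma Bit.sum_right (h : Bit a) (S : Finset V) (φ : V → ℝ) :
    ∑ x ∈ S, ∑ y ∈ S, a x y * φ y = ∑ x ∈ S, dg a S x * φ x := by
  rw [sum_comm, ← sum_left]
  exact sum_congr rfl fun x _ => sum_congr rfl fun y _ => by rw [h.symm]

lemma Bit.sum_cb (h : Bit a) (S : Finset V) :
    ∑ x ∈ S, ∑ y ∈ S, a x y * cb a S x y = S.card * MM a S - 2 * QQ a S + TT a S := by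
  have h1 := sum_left (a := a) S (fun _ => (S.card : ℝ))
  have h2 := sum_left (a := a) S (dg a S)
  have h3 := h.sum_right S (dg a S)
  have h4 : ∑ x ∈ S, dg a S x * dg a S x = QQ a S := sum_congr rfl fun x _ => (sq _).symm
  have h5 : ∑ x ∈ S, dg a S x * (S.card : ℝ) = S.card * MM a S := by
    rw [← sum_mul, mul_comm, MM]
  simp only [cb_eq, mul_add, mul_sub, sum_add_distrib, sum_sub_distrib]
  rw [h1, h2, h3, h4, h5]
  simp only [TT, tau]
  ring

lemma Bit.three (h : Bit a) (S : Finset V) (x y z : V) :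
    (S.card : ℝ) ≤ (cd a S x y + cb a S x y) + (cd a S x z + cb a S x z) +
      (cd a S y z + cb a S y z) := by
  have := sum_le_sum (s := S) (f := fun _ => (1 : ℝ)) (g := fun w =>
    (a x w * a y w + (1 - a x w) * (1 - a y w)) + (a x w * a z w + (1 - a x w) * (1 - a z w)) +
      (a y w * a z w + (1 - a y w) * (1 - a z w))) fun w _ => by
    rcases h.bit x w with e1 | e1 <;> rcases h.bit y w with e2 | e2 <;>
      rcases h.bit z w with e3 | e3 <;> rw [e1, e2, e3] <;> norm_num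
  simpa only [cd, cb, sum_add_distrib, sum_const, nsmul_eq_mul, mul_one] using this

/-- The inequality of Edwards. -/
lemma Bit.edwards (h : Bit a) (S : Finset V) {β : ℝ}
    (hc : ∀ x ∈ S, ∀ y ∈ S, a x y = 1 → cd a S x y ≤ β) :
    S.card * TT a S ≤ 3 * β * (2 * TT a S + (S.card * MM a S - 2 * QQ a S)) := by
  set g : V → V → ℝ := fun x y => cd a S x y + cb a S x y with hg
  set U : ℝ := ∑ x ∈ S, ∑ y ∈ S, ∑ z ∈ S, a x y * (a x z * a y z) * g x y with hU
  have h1 : ∑ x ∈ S, ∑ y ∈ S, ∑ z ∈ S, a x y * (a x z * a y z) * g x z = U := by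
    refine sum_congr rfl fun x _ => ?_
    rw [sum_comm]
    refine sum_congr rfl fun y _ => sum_congr rfl fun z _ => ?_
    rw [h.symm z y]
    ring
  have h2 : ∑ x ∈ S, ∑ y ∈ S, ∑ z ∈ S, a x y * (a x z * a y z) * g y z = U := by
    rw [← h1, sum_comm]
    refine sum_congr rfl fun x _ => sum_congr rfl fun y _ => sum_congr rfl fun z _ => ?_
    rw [h.symm y x]
    ring
  have h3 : S.card * TT a S ≤ U + U + U := by
    nth_rewrite 3 [← h2]
    nth_rewrite 2 [← h1]
    simp only [hU, TT, tau, cd, mul_sum, ← sum_add_distrib]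
    refine sum_le_sum fun x _ => sum_le_sum fun y _ => sum_le_sum fun z _ => ?_
    have h4 := mul_le_mul_of_nonneg_left (h.three S x y z)
      (mul_nonneg (h.nonneg x y) (mul_nonneg (h.nonneg x z) (h.nonneg y z)))
    simp only [hg]
    linarith
  have h5 : U ≤ β * ∑ x ∈ S, ∑ y ∈ S, a x y * g x y := by
    simp only [hU, mul_sum]
    refine sum_le_sum fun x hx => sum_le_sum fun y hy => ?_
    rw [← sum_mul, ← mul_sum]
    have hg0 : 0 ≤ g x y := add_nonneg (h.cd_nonneg S x y) (h.cb_nonneg S x y)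
    rcases h.bit x y with e | e
    · simp [e]
    · have := mul_le_mul_of_nonneg_right (hc x hx y hy e) hg0
      simpa [e, cd] using this
  have h6 : ∑ x ∈ S, ∑ y ∈ S, a x y * g x y =
      2 * TT a S + (S.card * MM a S - 2 * QQ a S) := by
    simp only [hg, mul_add, sum_add_distrib]
    rw [h.sum_cb]
    simp only [TT, tau]
    ring
  rw [h6] at h5
  linarith

lemma cauchy (S : Finset V) : MM a S ^ 2 ≤ S.card * QQ a S := sq_sum_le_card_mul_sum_sq

lemma Bit.Y_nonneg (h : Bit a) (S : Finset V) {β : ℝ} (hβ : 0 < β) (hS : 6 * β ≤ S.card)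
    (hc : ∀ x ∈ S, ∀ y ∈ S, a x y = 1 → cd a S x y ≤ β) :
    0 ≤ S.card * MM a S - 2 * QQ a S := by
  have h1 := h.edwards S hc
  have h2 := mul_le_mul_of_nonneg_right hS (h.TT_nonneg S)
  have h3 : 0 ≤ 3 * β * (S.card * MM a S - 2 * QQ a S) := by linarith
  exact nonneg_of_mul_nonneg_right h3 (by linarith) |> fun x => x

/-- Small books force at most `|S|^2 / 4` edges. -/
lemma Bit.mantel (h : Bit a) (S : Finset V) {β : ℝ} (hβ : 0 < β) (hS : 6 * β ≤ S.card)
    (hc : ∀ x ∈ S, ∀ y ∈ S, a x y = 1 → cd a S x y ≤ β) : MM a S ≤ (S.card : ℝ) ^ 2 / 2 := by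
  have h1 := h.Y_nonneg S hβ hS hc
  have h2 := cauchy (a := a) S
  have h3 : (0 : ℝ) ≤ S.card := by linarith
  have h4 := mul_nonneg h3 h1
  by_contra h5
  rw [not_le] at h5
  have h6 : 0 < MM a S := lt_of_le_of_lt (by positivity) h5
  nlinarith

end Pool.Agent.Lib.MP_a77646_co.Win
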