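import Pool.Agent.Lib.MP_a77646_co.WinMain

/-! The two lower bounds for books beyond the critical window. -/

set_option autoImplicit false

namespace Pool.Agent.Lib.MP_a77646_co.Win

open Real

lemma Forced.mono {n e : ℕ} {x y : ℝ} (h : Forced n e x) (hxy : y ≤ x) : Forced n e y :=
  fun G g1 g2 => (h G g1 g2).imp fun _ hu => hu.imp fun _ hv => ⟨hv.1, hxy.trans hv.2⟩

/-- The bound from the entropy inequality. -/
theorem shannon (s : ℝ) (hs : s < 18 / 7) : ∃ c : ℝ, 0 < c ∧ ∀ (n e : ℕ) (f : ℝ), 1 ≤ f →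
    8 * f ≤ n → (e : ℝ) = (n : ℝ) ^ 2 / 4 - f * n →
    Forced n e (c * min (n / √f) ((n / f) ^ s)) := by
  obtain ⟨δ, h0, h1⟩ : ∃ δ : ℝ, 0 < δ ∧ δ ≤ 1 / 1200 := ⟨1 / 1200, by norm_num, le_rfl⟩
  obtain ⟨c, c0, c1, c2⟩ : ∃ c : ℝ, 0 < c ∧ c ≤ δ ^ 7 ∧ c ≤ 36 - 14 * s :=
    ⟨min (δ ^ 7) (36 - 14 * s), lt_min (by positivity) (by linarith), min_le_left _ _,
      min_le_right _ _⟩
  refine ⟨c, c0, fun n e f hf hfn he => ?_⟩
  have hf0 : 0 < f := by linarith
  have hn0 : (0 : ℝ) < n := by linarith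
  set t : ℝ := n / f with ht
  have ht1 : 1 ≤ t := (one_le_div hf0).mpr (by linarith)
  have ht2 : f * t = n := by rw [ht]; field_simp
  set β : ℝ := c * min (n / √f) (t ^ s) with hβ
  have hβ0 : 0 < β := by positivity
  have hβ1 : β ≤ c * (n / √f) := mul_le_mul_of_nonneg_left (min_le_left _ _) c0.le
  have hβ2 : β ≤ c * t ^ s := mul_le_mul_of_nonneg_left (min_le_right _ _) c0.le
  have hp : ∀ j : ℕ, j ≤ 7 → c ≤ δ ^ j := fun j hj =>
    c1.trans (pow_le_pow_of_le_one h0.le (by linarith) hj)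
  rcases le_total (δ ^ 2 * t) 1 with h2 | h2
  · intro G g1 g2
    have h6 : t ^ s ≤ t ^ 3 := by
      rw [← rpow_natCast]
      exact rpow_le_rpow_of_exponent_le ht1 (by push_cast; linarith)
    have h3 : β ≤ (δ ^ 2 * t) ^ 3 := by
      rw [mul_pow, ← pow_mul]
      exact hβ2.trans (mul_le_mul (hp 6 (by norm_num)) h6 (by positivity) (by positivity))
    have h4 : (0 : ℝ) < e := by nlinarith
    have h5 : 0 < G.edgeSet.ncard := by rw [g1]; exact_mod_cast h4
    obtain ⟨z, hz⟩ := (Set.ncard_pos (Set.toFinite _)).mp h5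
    induction z using Sym2.ind with
    | h u v =>
      exact ⟨u, v, hz, (h3.trans (pow_le_one₀ (by positivity) h2)).trans
        (by exact_mod_cast g2 u v hz)⟩
  by_contra hcon
  have hs1 : 1 ≤ √f := one_le_sqrt.mpr hf
  have h3 : β * √f ≤ c * n := by
    have := mul_le_mul_of_nonneg_right hβ1 (sqrt_nonneg f)
    rwa [mul_assoc c (n / √f), div_mul_cancel₀ (n : ℝ) (by positivity : √f ≠ 0)] at this
  have h4 : f * β ^ 2 ≤ c ^ 2 * (n : ℝ) ^ 2 := by
    have := pow_le_pow_left₀ (by positivity) h3 2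
    rw [mul_pow, mul_pow, sq_sqrt hf0.le] at this
    linarith
  set d : ℝ := f / δ with hd
  have hdf : δ * d = f := by rw [hd]; field_simp
  have h5 : d ≤ δ * n := by
    have h7 : δ * d ≤ δ * (δ * n) := by
      rw [hdf, ← ht2]
      nlinarith
    exact le_of_mul_le_mul_left h7 h0
  have c3 : c ≤ δ := by simpa using hp 1 (by norm_num)
  have c4 : 3520 * c ≤ 1 := by nlinarith [hp 2 (by norm_num)]
  have hcore := (toCore h0 h0 (by linarith) hβ0 (by nlinarith) (by positivity : 0 < d) h5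
    (by rwa [hdf]) hcon).2.2.1
  have l0 : log δ < 0 := log_neg h0 (by linarith)
  have l1 : ∀ x : ℝ, 0 < x → x ≤ 1200 → log x ≤ -log δ := fun x hx hx' => by
    have := log_nonpos (by positivity : 0 ≤ x * δ) (by nlinarith)
    rw [log_mul hx.ne' h0.ne'] at this
    linarith
  have l2 : 0 ≤ log t := log_nonneg ht1
  have l3 : log n = log f + log t := by rw [← ht2, log_mul hf0.ne' (by positivity)]
  have l4 : log d = log f - log δ := log_div hf0.ne' h0.ne'
  have l5 : log β ≤ 7 * log δ + s * log t := by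
    have := log_le_log hβ0 (hβ2.trans (mul_le_mul_of_nonneg_right c1 (by positivity)))
    rwa [log_mul (x := δ ^ 7) (by positivity) (by positivity), log_pow,
      log_rpow (by positivity)] at this
  have l6 : 0 ≤ log (n / d) := log_nonneg ((one_le_div (by positivity)).mpr (by nlinarith))
  have l7 : log (n / d) ≤ log t := by
    rw [log_div hn0.ne' (by positivity), l3, l4]
    linarith
  have h6 : 3520 * c ^ 2 ≤ 36 - 14 * s := by nlinarith
  have h7 := mul_le_mul h4 l7 l6 (by positivity)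
  have h8 := mul_le_mul_of_nonneg_right h6 (mul_nonneg (sq_nonneg (n : ℝ)) l2)
  rw [hdf, log_div (by positivity) (by norm_num), log_pow, log_mul hn0.ne' (by positivity),
    log_mul (by positivity) hβ0.ne', log_mul (by norm_num) hf0.ne', l3, l4] at hcore
  have h9 := le_of_mul_le_mul_left
    (hcore.trans (show _ ≤ (n : ℝ) ^ 2 * ((36 - 14 * s) * log t) by linarith)) (by positivity)
  push_cast at h9
  linarith [l1 10 (by norm_num) (by norm_num), l1 2 (by norm_num) (by norm_num),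
    l1 16 (by norm_num) (by norm_num)]

/-- The bound from the second moment inequality. -/
theorem cube : ∃ c : ℝ, 0 < c ∧ ∀ (n e : ℕ) (f : ℝ), 1 ≤ f →
    8 * f ≤ n → (e : ℝ) = (n : ℝ) ^ 2 / 4 - f * n →
    Forced n e (c * min (n / √f) (min ((n : ℝ) ^ ((4 : ℝ) / 3) / f) ((n / f) ^ 3))) := by
  obtain ⟨δ, h0, h1⟩ : ∃ δ : ℝ, 0 < δ ∧ δ ≤ 1 / 1200 := ⟨1 / 1200, by norm_num, le_rfl⟩
  obtain ⟨c, c1⟩ : ∃ c : ℝ, c = δ ^ 6 := ⟨_, rfl⟩
  have c0 : 0 < c := by rw [c1]; positivity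
  refine ⟨c, c0, fun n e f hf hfn he => ?_⟩
  have hf0 : 0 < f := by linarith
  have hn0 : (0 : ℝ) < n := by linarith
  set t : ℝ := n / f with ht
  have ht2 : f * t = n := by rw [ht]; field_simp
  have ht0 : 0 < t := by positivity
  set β : ℝ := c * min (n / √f) (min ((n : ℝ) ^ ((4 : ℝ) / 3) / f) (t ^ 3)) with hβ
  have hβ0 : 0 < β := by positivity
  have hβ1 : β ≤ c * (n / √f) := mul_le_mul_of_nonneg_left (min_le_left _ _) c0.le
  have hβ2 : β ≤ c * t ^ 3 :=
    mul_le_mul_of_nonneg_left ((min_le_right _ _).trans (min_le_right _ _)) c0.le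
  have hβ3 : β ≤ c * ((n : ℝ) ^ ((4 : ℝ) / 3) / f) :=
    mul_le_mul_of_nonneg_left ((min_le_right _ _).trans (min_le_left _ _)) c0.le
  have hp : ∀ j : ℕ, j ≤ 6 → c ≤ δ ^ j := fun j hj =>
    c1.le.trans (pow_le_pow_of_le_one h0.le (by linarith) hj)
  rcases le_total (δ ^ 2 * t) 1 with h2 | h2
  · intro G g1 g2
    have h3 : β ≤ (δ ^ 2 * t) ^ 3 := by
      rw [mul_pow, ← pow_mul, ← c1]
      exact hβ2
    have h4 : (0 : ℝ) < e := by nlinarith
    have h5 : 0 < G.edgeSet.ncard := by rw [g1]; exact_mod_cast h4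
    obtain ⟨z, hz⟩ := (Set.ncard_pos (Set.toFinite _)).mp h5
    induction z using Sym2.ind with
    | h u v =>
      exact ⟨u, v, hz, (h3.trans (pow_le_one₀ (by positivity) h2)).trans
        (by exact_mod_cast g2 u v hz)⟩
  by_contra hcon
  have hs1 : 1 ≤ √f := one_le_sqrt.mpr hf
  have h3 : β * √f ≤ c * n := by
    have := mul_le_mul_of_nonneg_right hβ1 (sqrt_nonneg f)
    rwa [mul_assoc c (n / √f), div_mul_cancel₀ (n : ℝ) (by positivity : √f ≠ 0)] at this
  have h4 : f * β ^ 2 ≤ c ^ 2 * (n : ℝ) ^ 2 := by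
    have := pow_le_pow_left₀ (by positivity) h3 2
    rw [mul_pow, mul_pow, sq_sqrt hf0.le] at this
    linarith
  set d : ℝ := f / δ with hd
  have hdf : δ * d = f := by rw [hd]; field_simp
  have hd0 : 0 < d := by positivity
  have h5 : d ≤ δ * n := by
    have h7 : δ * d ≤ δ * (δ * n) := by
      rw [hdf, ← ht2]
      nlinarith
    exact le_of_mul_le_mul_left h7 h0
  have c3 : c ≤ δ := by simpa using hp 1 (by norm_num)
  have c4 : 320 * c ^ 2 ≤ 1 := by nlinarith
  have c5 : δ ^ 2 ≤ 1 / 1440000 := by nlinarith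
  have hcore := (toCore h0 h0 (by linarith) hβ0 (by nlinarith) hd0 h5 (by rwa [hdf]) hcon).2.2.2
  rw [hdf] at hcore
  rcases hcore (by nlinarith [mul_le_mul_of_nonneg_right c4 (sq_nonneg (n : ℝ))]) with h6 | h6
  · have h7 : f ^ 3 * β ≤ c * (n : ℝ) ^ 3 := by
      rw [← ht2, mul_pow]
      linarith [mul_le_mul_of_nonneg_left hβ2 (pow_pos hf0 3).le]
    have h8 : δ ^ 2 * (n : ℝ) ^ 3 ≤ 12800 * (f ^ 3 * β) := by
      refine (mul_le_mul_of_nonneg_left h6 (sq_nonneg δ)).trans_eq ?_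
      rw [← hdf]
      ring
    have h9 : δ ^ 2 ≤ 12800 * c := le_of_mul_le_mul_right (by linarith) (pow_pos hn0 3)
    nlinarith [hp 4 (by norm_num), pow_pos h0 2]
  · have h7 : f * β ≤ c * (n : ℝ) ^ ((4 : ℝ) / 3) := by
      have := mul_le_mul_of_nonneg_left hβ3 hf0.le
      rwa [mul_left_comm f c (_ / f), mul_div_cancel₀ _ hf0.ne'] at this
    have h8 := pow_le_pow_left₀ (by positivity) h7 3
    rw [mul_pow c, ← rpow_natCast ((n : ℝ) ^ _), ← rpow_mul hn0.le,
      show (4 : ℝ) / 3 * (3 : ℕ) = (4 : ℕ) by norm_num, rpow_natCast] at h8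
    have h9 : δ * (n : ℝ) ^ 4 ≤ 20480000 * (f * β) ^ 3 := by
      refine (mul_le_mul_of_nonneg_left h6 h0.le).trans_eq ?_
      rw [← hdf]
      ring
    have h10 : δ ≤ 20480000 * c ^ 3 := le_of_mul_le_mul_right (by linarith) (pow_pos hn0 4)
    have h11 : c ^ 3 ≤ δ * (δ ^ 2 * δ ^ 2) := by
      refine (pow_le_of_le_one c0.le (by linarith) (by norm_num)).trans ?_
      exact (hp 5 (by norm_num)).trans_eq (by ring)
    have h12 : δ ^ 2 * δ ^ 2 ≤ 1 / 1440000 * (1 / 1440000) :=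
      mul_le_mul c5 c5 (sq_nonneg δ) (by norm_num)
    nlinarith [mul_le_mul_of_nonneg_left h12 h0.le]

end Pool.Agent.Lib.MP_a77646_co.Win
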