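import Pool.Agent.Lib.MP_a77646_co.WinCore
import Pool.Agent.Lib.MP_a77646_co.WinDefs
import Pool.Agent.Lib.MP_a77646_co.Graph

/-! Books in the critical window: lower bounds for graphs and the three constructions. -/

set_option autoImplicit false

namespace Pool.Agent.Lib.MP_a77646_co.Win

open Finset
open scoped Classical

lemma toCore {n e : ℕ} {β d δ θ : ℝ} (hδ : 0 < δ) (hθ : 0 < θ) (hδ1 : δ ≤ 1 / 600)
    (hβ : 0 < β) (hβn : β ≤ δ * n) (hd : 0 < d) (hdn : d ≤ δ * n)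
    (he : (e : ℝ) = (n : ℝ) ^ 2 / 4 - δ * d * n) (hcon : ¬ Forced n e β) :
    (1 - 551 * δ) * (n : ℝ) ^ 2 ≤ 8 * (δ * d) * (β + d) ^ 2 ∧
      (d ^ 3 ≤ δ * (θ * (1 + θ) * β ^ 2) * n →
        (1 - 551 * δ) * (n : ℝ) ^ 2 ≤ 8 * (δ * d) * ((2 + θ) * β ^ 2)) ∧
      (n : ℝ) ^ 2 * (29 * Real.log ((n : ℝ) ^ 2 / 10) - 22 * (Real.log (n * d) + Real.log 2) -
        14 * Real.log (16 * (δ * d) * β)) ≤ 3520 * (δ * d * β ^ 2 * Real.log (n / d)) ∧
      (320 * (δ * d * β ^ 2) ≤ (n : ℝ) ^ 2 → (n : ℝ) ^ 3 ≤ 12800 * (δ * d * d ^ 2 * β) ∨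
        (n : ℝ) ^ 4 ≤ 20480000 * ((δ * d) ^ 2 * d * β ^ 3)) := by
  unfold Forced at hcon
  push Not at hcon
  obtain ⟨G, hG, htri, hcon⟩ := hcon
  set a : Fin n → Fin n → ℝ := fun x y => if G.Adj x y then 1 else 0 with ha
  have ha1 : ∀ x y, a x y = 1 ↔ G.Adj x y := fun x y => by simp [ha]
  have hb : Bit a := ⟨fun x y => by by_cases h : G.Adj x y <;> simp [ha, h],
    fun x y => by simp only [ha, G.adj_comm x y]⟩
  have hM : MM a univ = 2 * e := by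
    have h1 := G.sum_degrees_eq_twice_card_edges
    have h2 : G.edgeFinset.card = e := by
      rw [← hG, ← SimpleGraph.coe_edgeFinset, Set.ncard_coe_finset]
    have h3 : ∀ x, dg a univ x = G.degree x := fun x => by
      rw [← SimpleGraph.card_neighborFinset_eq_degree, SimpleGraph.neighborFinset_eq_filter]
      simp [dg, ha]
    rw [h2] at h1
    simp only [MM, h3]
    exact_mod_cast h1
  have hcd : ∀ x y, cd a univ x y = (G.commonNeighbors x y).ncard := fun x y => by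
    have h1 : G.commonNeighbors x y = ↑(univ.filter fun z => G.Adj x z ∧ G.Adj y z) := by
      ext z
      simp [SimpleGraph.mem_commonNeighbors]
    rw [h1, Set.ncard_coe_finset, card_filter]
    push_cast
    refine sum_congr rfl fun z _ => ?_
    by_cases e1 : G.Adj x z <;> by_cases e2 : G.Adj y z <;> simp [ha, e1, e2]
  exact hb.core (by simp) hδ hθ hδ1 hβ hβn hd hdn (by rw [hM, he]; linarith)
    (fun x y hxy => by rw [hcd]; exact (hcon x y ((ha1 x y).mp hxy)).le)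
    (fun x y hxy => by
      obtain ⟨z, hz⟩ := (Set.ncard_pos (Set.toFinite _)).mp (htri x y ((ha1 x y).mp hxy))
      exact ⟨z, (ha1 z x).mpr hz.1.symm, (ha1 z y).mpr hz.2.symm⟩)

lemma pos_aux {a b : ℝ} (h : 0 < a * b) (ha : 0 ≤ a) : 0 < b := by
  by_contra hb
  linarith [mul_nonpos_of_nonneg_of_nonpos ha (not_lt.mp hb)]

lemma beta_le {δ ε f r m c : ℝ} (hδ : 0 < δ) (hε : 0 < ε) (hm : 0 < m) (hr : 0 < r)
    (hc : 1 ≤ c) (hr2 : r ^ 2 = c * f) (hf : 1 ≤ δ ^ 2 * f) : (1 - ε) * m ≤ δ * (m * r) := by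
  have h1 : 1 ≤ δ * r := by
    refine le_of_sq_le_sq ?_ (by positivity)
    rw [mul_pow, hr2]
    nlinarith
  nlinarith [mul_le_mul_of_nonneg_left h1 hm.le, mul_pos hε hm]

lemma lowerA {n e : ℕ} {f δ : ℝ} (hδ : 0 < δ) (hδ1 : δ ≤ 1 / 1200) (hn : 0 < n)
    (he : (e : ℝ) = (n : ℝ) ^ 2 / 4 - f * n) (hf1 : 1 ≤ δ ^ 2 * f)
    (hf2 : 32 * f ^ 3 ≤ δ ^ 4 * (n : ℝ) ^ 2) : Forced n e ((1 - 600 * δ) * (n / √(8 * f))) := by
  by_contra hcon
  have hn0 : (0 : ℝ) < n := by exact_mod_cast hn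
  have hf0 : 0 < f := pos_aux (by linarith) (sq_nonneg δ)
  set r : ℝ := √(8 * f) with hr
  have hr0 : 0 < r := Real.sqrt_pos.mpr (by positivity)
  have hr2 : r ^ 2 = 8 * f := Real.sq_sqrt (by positivity)
  set m : ℝ := n / r with hm
  have hm0 : 0 < m := by positivity
  have hmr : m * r = n := by rw [hm]; field_simp
  set d : ℝ := f / δ with hd
  have hdf : δ * d = f := by rw [hd]; field_simp
  set β : ℝ := (1 - 600 * δ) * m with hβ
  have hβ0 : 0 < β := mul_pos (by linarith) hm0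
  have h1 : β ≤ δ * n := hmr ▸ beta_le hδ (by positivity) hm0 hr0 (by norm_num) hr2 hf1
  have h3 : 2 * f * r ≤ δ ^ 2 * n := by
    refine le_of_sq_le_sq ?_ (by positivity)
    rw [mul_pow, hr2]
    nlinarith
  have h4 : d ≤ δ * β := by
    have h6 : r * (2 * f) ≤ r * (δ ^ 2 * m) := by
      rw [← hmr] at h3
      linarith
    have h7 := le_of_mul_le_mul_left h6 hr0
    have h8 : 0 ≤ δ ^ 2 * m * (1 / 2 - 600 * δ) := mul_nonneg (by positivity) (by linarith)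
    have h9 : δ * d ≤ δ * (δ * β) := by
      rw [hdf, hβ]
      nlinarith
    exact le_of_mul_le_mul_left h9 hδ
  have hcore := (toCore hδ hδ (by linarith) hβ0 h1 (by positivity : 0 < d)
    (by nlinarith) (by rwa [hdf]) hcon).1
  have h5 : (β + d) ^ 2 ≤ (β * (1 + δ)) ^ 2 := pow_le_pow_left₀ (by positivity) (by linarith) 2
  have h9 : 8 * f * (β * (1 + δ)) ^ 2 = ((1 - 600 * δ) * (1 + δ)) ^ 2 * (n : ℝ) ^ 2 := by
    rw [← hr2, ← hmr, hβ]
    ring
  rw [hdf] at hcore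
  have h10 := le_of_mul_le_mul_right ((hcore.trans
    (mul_le_mul_of_nonneg_left h5 (by positivity))).trans_eq h9) (by positivity)
  have h12 : (1 - 600 * δ) * (1 + δ) ≤ 1 - 599 * δ := by nlinarith
  have h13 : 0 ≤ (1 - 600 * δ) * (1 + δ) := mul_nonneg (by linarith) (by linarith)
  nlinarith

lemma lowerB {n e : ℕ} {f δ : ℝ} (hδ : 0 < δ) (hδ1 : δ ≤ 1 / 1200) (hn : 0 < n)
    (he : (e : ℝ) = (n : ℝ) ^ 2 / 4 - f * n) (hf1 : 1 ≤ δ ^ 2 * f)
    (hf2 : 64 * f ^ 4 ≤ δ ^ 8 * (n : ℝ) ^ 3) : Forced n e ((1 - 600 * δ) * (n / √(16 * f))) := by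
  by_contra hcon
  have hn1 : (1 : ℝ) ≤ n := by exact_mod_cast hn
  have hn0 : (0 : ℝ) < n := by linarith
  have hf0 : 0 < f := pos_aux (by linarith) (sq_nonneg δ)
  set r : ℝ := √(16 * f) with hr
  have hr0 : 0 < r := Real.sqrt_pos.mpr (by positivity)
  have hr2 : r ^ 2 = 16 * f := Real.sq_sqrt (by positivity)
  set m : ℝ := n / r with hm
  have hm0 : 0 < m := by positivity
  have hmr : m * r = n := by rw [hm]; field_simp
  set d : ℝ := f / δ with hd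
  have hdf : δ * d = f := by rw [hd]; field_simp
  set β : ℝ := (1 - 600 * δ) * m with hβ
  have hβ0 : 0 < β := mul_pos (by linarith) hm0
  have h1 : β ≤ δ * n := hmr ▸ beta_le hδ (by positivity) hm0 hr0 (by norm_num) hr2 hf1
  have h3 : f ≤ δ ^ 2 * n := by
    refine le_of_pow_le_pow_left₀ (n := 4) (by norm_num) (by positivity) ?_
    have h4 : δ ^ 8 * (n : ℝ) ^ 3 * 1 ≤ δ ^ 8 * (n : ℝ) ^ 3 * n :=
      mul_le_mul_of_nonneg_left hn1 (by positivity)
    have h5 : 0 ≤ f ^ 4 := by positivity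
    nlinarith
  have h4 : d ≤ δ * n := by
    have h9 : δ * d ≤ δ * (δ * n) := by
      rw [hdf]
      linarith
    exact le_of_mul_le_mul_left h9 hδ
  have h5 : d ^ 3 ≤ δ ^ 2 * β ^ 2 * n := by
    have h6 : (m / 2) ^ 2 ≤ β ^ 2 := pow_le_pow_left₀ (by positivity) (by nlinarith) 2
    have h7 : (n : ℝ) ^ 2 ≤ 64 * f * β ^ 2 := by
      have := mul_le_mul_of_nonneg_left h6 (show 0 ≤ 64 * f by positivity)
      rw [← hmr, mul_pow, hr2]
      linarith
    have h8 : δ ^ 8 ≤ δ ^ 5 := pow_le_pow_of_le_one hδ.le (by linarith) (by norm_num)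
    have h9 : δ ^ 8 * (n : ℝ) ^ 3 ≤ δ ^ 5 * (n : ℝ) ^ 3 :=
      mul_le_mul_of_nonneg_right h8 (by positivity)
    have h10 := mul_le_mul_of_nonneg_left h7 (show 0 ≤ δ ^ 5 * n by positivity)
    have h11 : 64 * f * δ ^ 3 * d ^ 3 ≤ 64 * f * δ ^ 3 * (δ ^ 2 * β ^ 2 * n) := by
      have : 64 * f * δ ^ 3 * d ^ 3 = 64 * f ^ 4 := by
        rw [mul_assoc, ← mul_pow, hdf]
        ring
      rw [this]
      linarith
    exact le_of_mul_le_mul_left h11 (by positivity)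
  have hcore := (toCore hδ hδ (by linarith) hβ0 h1 (by positivity : 0 < d) h4
    (by rwa [hdf]) hcon).2.1 (by linarith [show 0 ≤ δ ^ 3 * β ^ 2 * n by positivity])
  have h9 : 8 * f * ((2 + δ) * β ^ 2) = (1 + δ / 2) * (1 - 600 * δ) ^ 2 * (n : ℝ) ^ 2 := by
    have : 8 * f = r ^ 2 / 2 := by linarith
    rw [this, ← hmr, hβ]
    ring
  rw [hdf, h9] at hcore
  have h10 := le_of_mul_le_mul_right hcore (by positivity)
  have h12 : (1 - 600 * δ) ^ 2 ≤ 1 - 600 * δ := by nlinarith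
  nlinarith

lemma exists_h (n s l : ℕ) (hs : 0 < s) (hl : l ≤ n) :
    ∃ h : ℕ, 2 * (s * h) + l ≤ n ∧ n ≤ 2 * (s * h) + l + 2 * s := by
  have h1 := Nat.div_add_mod (n - l) (2 * s)
  have h2 := Nat.mod_lt (n - l) (show 0 < 2 * s by omega)
  rw [mul_assoc] at h1
  exact ⟨(n - l) / (2 * s), by omega, by omega⟩

/-- The blow-up construction. -/
lemma gen {X L : Type} [Fintype X] [Fintype L] (H : X → X → Prop) (g : X → X → L)
    (hg : ∀ x x' y y', H x' y → H x y' → H x y → g x' y = g x y' → x' = x ∧ y' = y)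
    {n e : ℕ} {f ε r c s D m : ℝ} (hε : 0 < ε) (hr : 0 < r) (hrc : (2 * r) ^ 2 = c * f)
    (he : (e : ℝ) = (n : ℝ) ^ 2 / 4 - f * n) (hs : (Fintype.card X : ℝ) = s) (hs0 : 0 < s)
    (hsn : 12 * s ≤ n) (hf : 8 * f ≤ n) (hm : s * m = n) (hD : 0 ≤ D)
    (hH : s * (s - D) ≤ ∑ z : X × X, ind (H z.1 z.2))
    (hl : Fintype.card L + 2 * s + D * m / 2 ≤ 2 * f) (h1 : r ≤ (1 + ε) * s) :
    Avoided n e ((1 + ε) * (n / √(c * f))) := by
  have hn0 : (0 : ℝ) < n := by linarith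
  have hm0 : 0 < m := pos_aux (by linarith) hs0.le
  have hDm : 0 ≤ D * m := mul_nonneg hD hm0.le
  have hL0 : (0 : ℝ) ≤ Fintype.card L := Nat.cast_nonneg _
  obtain ⟨h, h2, h3⟩ := exists_h n (Fintype.card X) (Fintype.card L)
    (by exact_mod_cast hs ▸ hs0) (by exact_mod_cast (show (Fintype.card L : ℝ) ≤ n by linarith))
  have h2' : 2 * (s * h) + Fintype.card L ≤ n := by
    rw [← hs]
    exact_mod_cast h2
  have h3' : (n : ℝ) ≤ 2 * (s * h) + Fintype.card L + 2 * s := by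
    rw [← hs]
    exact_mod_cast h3
  have hA : (n : ℝ) - (2 * f - D * m / 2) ≤ 2 * (s * h) := by linarith
  have hB : 2 * (s * h) ≤ n := by linarith
  have hh : 0 < h := by
    rcases Nat.eq_zero_or_pos h with h0 | h0
    · rw [h0] at h3'
      simp at h3'
      linarith
    · exact h0
  have hh0 : (0 : ℝ) ≤ h := Nat.cast_nonneg h
  obtain ⟨G, ge, hG⟩ := graph h hh H g hg e (by
    have : ((3 * (Fintype.card X ^ 2 * h) : ℕ) : ℝ) ≤ e := by
      push_cast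
      rw [hs]
      nlinarith [mul_le_mul_of_nonneg_left hB hs0.le, mul_le_mul_of_nonneg_left hf hn0.le,
        mul_le_mul_of_nonneg_left hsn hn0.le]
    exact_mod_cast this) (by
    refine le_trans ?_ (mul_le_mul_of_nonneg_right hH (sq_nonneg _))
    have h4 : ((n : ℝ) - (2 * f - D * m / 2)) ^ 2 ≤ (2 * (s * h)) ^ 2 :=
      pow_le_pow_left₀ (by linarith) hA 2
    have h5 : 2 * (h : ℝ) ≤ m := by
      have : s * (2 * h) ≤ s * m := by linarith
      exact le_of_mul_le_mul_left this hs0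
    have h6 : 2 * (s * h) * (2 * h) ≤ n * m := mul_le_mul hB h5 (by positivity) hn0.le
    have h7 := mul_le_mul_of_nonneg_left h6 hD
    rw [he]
    nlinarith [sq_nonneg (2 * f - D * m / 2)])
  obtain ⟨G', g1, g2⟩ := pad G n h (by
    simp only [Fintype.card_sum, Fintype.card_prod, Fintype.card_fin]
    omega) hG
  refine ⟨G', g1.trans ge, fun u v huv => ⟨(g2 u v huv).1, ?_⟩⟩
  have h4 : ((G'.commonNeighbors u v).ncard : ℝ) ≤ h := by exact_mod_cast (g2 u v huv).2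
  refine h4.trans ?_
  rw [← hrc, Real.sqrt_sq (by positivity), ← mul_div_assoc, le_div_iff₀ (by positivity)]
  have h5 := mul_le_mul_of_nonneg_left h1 hh0
  have h6 := mul_le_mul_of_nonneg_left hB (show 0 ≤ 1 + ε by linarith)
  nlinarith

/-- The grid construction. -/
lemma upperA {n e : ℕ} {f ε : ℝ} (hε : 0 < ε) (hε1 : ε ≤ 1 / 4)
    (he : (e : ℝ) = (n : ℝ) ^ 2 / 4 - f * n) (hf1 : 8 ≤ ε ^ 2 * f) (hf2 : 8 * f ≤ n) :
    Avoided n e ((1 + ε) * (n / √(8 * f))) := by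
  have hf0 : 0 < f := pos_aux (by linarith) (sq_nonneg ε)
  set r : ℝ := √(2 * f) with hr
  have hr0 : 0 < r := Real.sqrt_pos.mpr (by positivity)
  have hr2 : r ^ 2 = 2 * f := Real.sq_sqrt (by positivity)
  have hεr : 4 ≤ ε * r := by
    refine le_of_sq_le_sq ?_ (by positivity)
    rw [mul_pow, hr2]
    linarith
  have hr8 : 8 ≤ r := by nlinarith
  set s : ℕ := ⌊r - 1⌋₊ with hs
  have hs1 : (s : ℝ) ≤ r - 1 := Nat.floor_le (by linarith)
  have hs2 : r - 1 < s + 1 := Nat.lt_floor_add_one _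
  have hs3 : (s : ℝ) ^ 2 + 2 * s ≤ 2 * f := by nlinarith [Nat.cast_nonneg (α := ℝ) s]
  have hs6 : (6 : ℝ) ≤ s := by linarith
  refine gen (X := Fin s) (L := Fin s × Fin s) (fun _ _ => True) (fun x y => (x, y))
    (fun x x' y y' _ _ _ hxy => ⟨(Prod.mk.inj hxy).1, (Prod.mk.inj hxy).2.symm⟩)
    (s := s) (D := 0) (m := n / s) hε hr0 (by rw [mul_pow, hr2]; ring) he (by simp)
    (by linarith) (by nlinarith) hf2 (by field_simp) le_rfl (by simp [ind_pos]) ?_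
    (by nlinarith)
  simp only [Fintype.card_prod, Fintype.card_fin]
  push_cast
  linarith

/-- The construction with induced matchings of size two. -/
lemma upperB {n e : ℕ} {f ε : ℝ} (hε : 0 < ε) (hε1 : ε ≤ 1 / 4) (hn : 0 < n)
    (he : (e : ℝ) = (n : ℝ) ^ 2 / 4 - f * n) (hf1 : 400 * (n : ℝ) ^ 2 ≤ ε ^ 2 * f ^ 3)
    (hf2 : 8 * f ≤ n) : Avoided n e ((1 + ε) * (n / √(16 * f))) := by
  have hn0 : (0 : ℝ) < n := by exact_mod_cast hn
  have hf0 : 0 < f := by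
    have : 0 < f ^ 3 := pos_aux (lt_of_lt_of_le (by positivity) hf1) (sq_nonneg ε)
    exact (Odd.pow_pos_iff (by decide)).mp this
  set r : ℝ := √(4 * f) with hr
  have hr0 : 0 < r := Real.sqrt_pos.mpr (by positivity)
  have hr2 : r ^ 2 = 4 * f := Real.sq_sqrt (by positivity)
  have hεr : 40 ≤ ε * r := by
    have h1 : (8 * f) ^ 2 ≤ (n : ℝ) ^ 2 := pow_le_pow_left₀ (by positivity) hf2 2
    have h2 : f ^ 2 * 400 ≤ f ^ 2 * (f * ε ^ 2) := by nlinarith [sq_nonneg f]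
    have h3 := le_of_mul_le_mul_left h2 (by positivity)
    refine le_of_sq_le_sq ?_ (by positivity)
    rw [mul_pow, hr2]
    linarith
  have hεn : 16 * (n : ℝ) ≤ ε * r ^ 2 * r := by
    refine le_of_sq_le_sq ?_ (by positivity)
    rw [mul_pow (ε * r ^ 2), hr2]
    nlinarith [sq_nonneg (n : ℝ)]
  have hr8 : 80 ≤ r := by nlinarith
  set s : ℕ := ⌊r * (1 - ε / 4)⌋₊ with hs
  have hs1 : (s : ℝ) ≤ r * (1 - ε / 4) := Nat.floor_le (mul_nonneg hr0.le (by linarith))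
  have hs2 : r * (1 - ε / 4) < s + 1 := Nat.lt_floor_add_one _
  have hs4 : r * (1 - ε / 2) ≤ s := by nlinarith
  have hs5 : r / 2 ≤ s := by nlinarith
  have hs6 : (s : ℝ) ≤ r := by nlinarith
  have hs0 : (0 : ℝ) < s := by linarith
  set m : ℝ := n / s with hm
  have hm0 : 0 < m := by positivity
  have hms : s * m = n := by rw [hm]; field_simp
  have hs3 : (s : ℝ) ^ 2 + 5 * s + m ≤ 4 * f := by
    have h1 : (s : ℝ) * s ≤ r * (1 - ε / 4) * r := mul_le_mul hs1 hs6 hs0.le (by linarith)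
    have h2 : r * 40 ≤ r * (ε * r) := mul_le_mul_of_nonneg_left hεr hr0.le
    have h3 : r / 2 * m ≤ s * m := mul_le_mul_of_nonneg_right hs5 hm0.le
    have h4 : r * (8 * m) ≤ r * (ε * r ^ 2) := by linarith
    have h5 := le_of_mul_le_mul_left h4 hr0
    nlinarith
  refine gen (X := Fin s) (L := Sym2 (Fin s)) (fun x y => x ≠ y) (fun x y => s(x, y))
    (fun x x' y y' _ _ hxy hs => ?_) (s := s) (D := 1) (m := m) hε hr0
    (by rw [mul_pow, hr2]; ring) he (by simp) hs0 (by nlinarith) hf2 hms zero_le_one ?_ ?_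
    (by nlinarith [mul_pos hε hr0])
  · rcases Sym2.eq_iff.mp hs with ⟨e1, e2⟩ | ⟨-, e2⟩
    · exact ⟨e1, e2.symm⟩
    · exact absurd e2.symm hxy
  · have h4 : ∀ x y : Fin s, ind (x ≠ y) = 1 - if x = y then 1 else 0 := fun x y => by
      by_cases hxy : x = y
      · rw [ind_neg (not_not.mpr hxy), if_pos hxy, sub_self]
      · rw [ind_pos hxy, if_neg hxy, sub_zero]
    rw [Fintype.sum_prod_type]
    simp [h4, mul_sub]
  · rw [Sym2.card, Nat.cast_choose_two, Fintype.card_fin]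
    push_cast
    linarith

/-- Two points of the cube differ in at least two coordinates. -/
def Far {q : ℕ} (x y : Fin q × Fin q × Fin q) : Prop :=
  ¬ (x.2.1 = y.2.1 ∧ x.2.2 = y.2.2) ∧ ¬ (x.1 = y.1 ∧ x.2.2 = y.2.2) ∧
    ¬ (x.1 = y.1 ∧ x.2.1 = y.2.1)

/-- The sub-cube spanned by two points, with a parity bit. -/
def lab {q : ℕ} (x y : Fin q × Fin q × Fin q) :
    Sym2 (Fin q) × Sym2 (Fin q) × Sym2 (Fin q) × Bool :=
  (s(x.1, y.1), s(x.2.1, y.2.1), s(x.2.2, y.2.2),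
    xor (xor (decide (x.1 < y.1)) (decide (x.2.1 < y.2.1))) (decide (x.2.2 < y.2.2)))

lemma lt_swap {q : ℕ} {u v : Fin q} (h : decide (u < v) = decide (v < u)) : u = v := by
  rw [decide_eq_decide] at h
  rcases lt_trichotomy u v with e | e | e
  · exact absurd (h.mp e) e.not_gt
  · exact e
  · exact absurd (h.mpr e) e.not_gt

lemma lab_inj {q : ℕ} (x x' y y' : Fin q × Fin q × Fin q) (h : Far x y)
    (e : lab x' y = lab x y') : x' = x ∧ y' = y := by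
  obtain ⟨x1, x2, x3⟩ := x
  obtain ⟨u1, u2, u3⟩ := x'
  obtain ⟨y1, y2, y3⟩ := y
  obtain ⟨v1, v2, v3⟩ := y'
  simp only [lab, Prod.mk.injEq, Sym2.eq_iff] at e
  simp only [Far] at h
  obtain ⟨h1, h2, h3⟩ := h
  obtain ⟨⟨rfl, rfl⟩ | ⟨rfl, rfl⟩, ⟨rfl, rfl⟩ | ⟨rfl, rfl⟩, ⟨rfl, rfl⟩ | ⟨rfl, rfl⟩, e4⟩ := e
  · exact ⟨rfl, rfl⟩
  · obtain rfl := lt_swap (Bool.xor_right_inj.mp e4)
    exact ⟨rfl, rfl⟩
  · obtain rfl := lt_swap (Bool.xor_right_inj.mp (Bool.xor_left_inj.mp e4))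
    exact ⟨rfl, rfl⟩
  · exact absurd ⟨rfl, rfl⟩ h1
  · obtain rfl := lt_swap (Bool.xor_left_inj.mp (Bool.xor_left_inj.mp e4))
    exact ⟨rfl, rfl⟩
  · exact absurd ⟨rfl, rfl⟩ h2
  · exact absurd ⟨rfl, rfl⟩ h3
  · exact absurd ⟨rfl, rfl⟩ h1

lemma sum_far (q : ℕ) : (q : ℝ) ^ 3 * ((q : ℝ) ^ 3 - 3 * q) ≤
    ∑ z : (Fin q × Fin q × Fin q) × (Fin q × Fin q × Fin q), ind (Far z.1 z.2) := by
  rw [Fintype.sum_prod_type]
  have h1 : ∀ x : Fin q × Fin q × Fin q, (q : ℝ) ^ 3 - 3 * q ≤ ∑ y, ind (Far x y) := by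
    intro x
    have h2 : ∀ y : Fin q × Fin q × Fin q,
        1 - (if x.2.1 = y.2.1 then (if x.2.2 = y.2.2 then 1 else 0) else 0) -
          (if x.1 = y.1 then (if x.2.2 = y.2.2 then 1 else 0) else 0) -
          (if x.1 = y.1 then (if x.2.1 = y.2.1 then 1 else 0) else 0) ≤ ind (Far x y) := by
      intro y
      by_cases e1 : x.1 = y.1 <;> by_cases e2 : x.2.1 = y.2.1 <;> by_cases e3 : x.2.2 = y.2.2 <;>
        simp [ind, Far, e1, e2, e3]
    refine le_trans (le_of_eq ?_) (sum_le_sum fun y _ => h2 y)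
    have h3 : ∑ u : Fin q, ∑ _v : Fin q, (if x.2.1 = u then (1 : ℝ) else 0) = q := by
      rw [sum_comm]
      simp
    simp only [Fintype.sum_prod_type, sum_sub_distrib, sum_ite_irrel, h3]
    simp
    ring
  refine le_trans (le_of_eq ?_) (sum_le_sum fun x _ => h1 x)
  simp
  ring

/-- The construction with induced matchings of size four. -/
lemma upperC {n e : ℕ} {f ε : ℝ} (hε : 0 < ε) (hε1 : ε ≤ 1 / 4) (hn : 0 < n) (hf0 : 0 < f)
    (he : (e : ℝ) = (n : ℝ) ^ 2 / 4 - f * n) (hf1 : 14000 * (n : ℝ) ^ 3 ≤ ε ^ 6 * f ^ 4)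
    (hf2 : 8 * f ≤ n) : Avoided n e ((1 + ε) * (n / √(32 * f))) := by
  have hn0 : (0 : ℝ) < n := by exact_mod_cast hn
  obtain ⟨ρ, hρ0, hρ⟩ : ∃ ρ : ℝ, 0 < ρ ∧ ρ ^ 6 = 8 * f :=
    ⟨(8 * f) ^ ((6 : ℕ) : ℝ)⁻¹, by positivity,
      Real.rpow_inv_natCast_pow (by positivity) (by norm_num)⟩
  have hερ : 16 ≤ ε * ρ := by
    have h1 : (8 * f) ^ 3 ≤ (n : ℝ) ^ 3 := pow_le_pow_left₀ (by positivity) hf2 3
    have h2 : f ^ 3 * 7168000 ≤ f ^ 3 * (ε ^ 6 * f) := by linarith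
    have h3 := le_of_mul_le_mul_left h2 (by positivity)
    refine le_of_pow_le_pow_left₀ (n := 6) (by norm_num) (by positivity) ?_
    rw [mul_pow, hρ]
    linarith
  have hεn : 48 * (n : ℝ) ≤ ε * f * ρ ^ 2 := by
    refine le_of_pow_le_pow_left₀ (n := 3) (by norm_num) (by positivity) ?_
    have h1 : ε ^ 6 ≤ ε ^ 3 := pow_le_pow_of_le_one hε.le (by linarith) (by norm_num)
    have h2 := mul_le_mul_of_nonneg_right h1 (show 0 ≤ f ^ 4 by positivity)
    have h3 : (ε * f * ρ ^ 2) ^ 3 = 8 * (ε ^ 3 * f ^ 4) := by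
      rw [mul_pow, ← pow_mul, hρ]
      ring
    have h4 : (0 : ℝ) ≤ (n : ℝ) ^ 3 := by positivity
    rw [h3]
    linarith
  have hρ1 : 64 ≤ ρ := by nlinarith
  set q : ℕ := ⌊ρ * (1 - ε / 8) - 1⌋₊ with hq
  have hq1 : (q : ℝ) ≤ ρ * (1 - ε / 8) - 1 := Nat.floor_le (by nlinarith)
  have hq2 : ρ * (1 - ε / 8) - 1 < q + 1 := Nat.lt_floor_add_one _
  have hq3 : ρ * (1 - ε / 4) ≤ q := by linarith
  have hq4 : ρ / 2 ≤ q := by nlinarith
  have hq5 : (q : ℝ) ≤ ρ := by nlinarith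
  have hq0 : (0 : ℝ) < q := by linarith
  have hs1 : (q : ℝ) ^ 3 ≤ ρ ^ 3 := pow_le_pow_left₀ hq0.le hq5 3
  have hρ2 : 64 ^ 2 ≤ ρ ^ 2 := pow_le_pow_left₀ (by norm_num) hρ1 2
  have hρ3 : 64 ^ 3 ≤ ρ ^ 3 := pow_le_pow_left₀ (by norm_num) hρ1 3
  set m : ℝ := n / (q : ℝ) ^ 3 with hm
  have hm0 : 0 < m := by positivity
  have hms : (q : ℝ) ^ 3 * m = n := by rw [hm]; field_simp
  refine gen (X := Fin q × Fin q × Fin q) Far lab (fun x x' y y' _ _ h e => lab_inj x x' y y' h e)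
    (r := ρ ^ 3) (s := (q : ℝ) ^ 3) (D := 3 * q) (m := m) hε (by positivity)
    (by rw [mul_pow, ← pow_mul, hρ]; ring) he (by simp; ring) (by positivity) (by nlinarith) hf2
    hms (by positivity) (sum_far q) ?_ ?_
  · have h1 : (Fintype.card (Sym2 (Fin q) × Sym2 (Fin q) × Sym2 (Fin q) × Bool) : ℝ) =
        ((q + 1) * q) ^ 3 / 4 := by
      simp only [Fintype.card_prod, Sym2.card, Nat.cast_mul, Nat.cast_choose_two,
        Fintype.card_fin, Fintype.card_bool]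
      push_cast
      ring
    have h2 : (((q : ℝ) + 1) * q) ^ 3 ≤ (ρ * (1 - ε / 8) * ρ) ^ 3 :=
      pow_le_pow_left₀ (by positivity) (mul_le_mul (by linarith) hq5 hq0.le (by linarith)) 3
    have h3 : (1 - ε / 8) ^ 3 ≤ (1 - ε / 8) ^ 1 :=
      pow_le_pow_of_le_one (by linarith) (by linarith) (by norm_num)
    have h4 : (ρ * (1 - ε / 8) * ρ) ^ 3 = 8 * f * (1 - ε / 8) ^ 3 := by
      rw [← hρ]
      ring
    have h5 := mul_le_mul_of_nonneg_left h3 (show 0 ≤ 8 * f by positivity)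
    have h6 : 128 * ρ ^ 3 ≤ ε * (8 * f) := by
      have h7 : 16 * 64 ^ 2 ≤ ε * ρ * ρ ^ 2 := mul_le_mul hερ hρ2 (by norm_num) (by positivity)
      have h8 := mul_le_mul_of_nonneg_right h7 (show 0 ≤ ρ ^ 3 by positivity)
      rw [← hρ]
      nlinarith
    have h9 : 12 * (q * m) ≤ ε * f := by
      have h7 : (ρ / 2) ^ 2 ≤ (q : ℝ) ^ 2 := pow_le_pow_left₀ (by positivity) hq4 2
      have h8 := mul_le_mul_of_nonneg_right h7 (show 0 ≤ q * m by positivity)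
      have h10 : ρ ^ 2 * (12 * (q * m)) ≤ ρ ^ 2 * (ε * f) := by nlinarith
      exact le_of_mul_le_mul_left h10 (by positivity)
    rw [h1]
    nlinarith
  · have h1 : (ρ * (1 - ε / 4)) ^ 3 ≤ (q : ℝ) ^ 3 :=
      pow_le_pow_left₀ (mul_nonneg hρ0.le (by linarith)) hq3 3
    have h2 : 1 ≤ (1 + ε) * (1 - ε / 4) ^ 3 := by
      have h3 : 0 ≤ ε ^ 2 * (12 - ε) := mul_nonneg (sq_nonneg ε) (by linarith)
      have h4 : 1 - 3 * ε / 4 ≤ (1 - ε / 4) ^ 3 := by linarith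
      have h5 := mul_le_mul_of_nonneg_left h4 (show 0 ≤ 1 + ε by linarith)
      linarith [mul_le_mul_of_nonneg_left hε1 hε.le]
    have h4 := mul_le_mul_of_nonneg_left h1 (show 0 ≤ 1 + ε by linarith)
    have h5 := mul_le_mul_of_nonneg_left h2 (show 0 ≤ ρ ^ 3 by positivity)
    rw [mul_pow] at h4
    linarith

end Pool.Agent.Lib.MP_a77646_co.Win
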